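import Mathlib

open scoped Quaternion
open Filter Topology

noncomputable section

set_option linter.unusedSectionVars false

namespace Pool.Agent.Helper190.KHyp

/-! ### `K`-hyperbolic space for `K = ℂ` or `K = ℍ` (ball model) -/

section Defs

variable {K : Type} [NormedDivisionRing K] [StarRing K]

/-- The `K`-Hermitian product `<x,y> = sum x_i * conj(y_i)` on `K^m`. -/
def herm {m : ℕ} (x y : Fin m → K) : K := ∑ i, x i * star (y i)

/-- The squared Euclidean norm on `K^m`. -/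
def nsq {m : ℕ} (x : Fin m → K) : ℝ := ∑ i, ‖x i‖ ^ 2

variable (K) in
/-- The ball model of the `K`-hyperbolic space `KH^m`: the open unit ball of `K^m`. -/
def HBall (m : ℕ) : Type := {x : Fin m → K // nsq x < 1}

/-- The distance of `KH^m` in the ball model,
`cosh d(x,y) = |1 - <x,y>| / sqrt ((1-|x|^2)(1-|y|^2))`; this is the normalisation in which the
sectional curvatures lie between `-4` and `-1`. -/
def hdist {m : ℕ} (x y : HBall K m) : ℝ :=
  Real.arcosh (‖1 - herm x.1 y.1‖ / (√(1 - nsq x.1) * √(1 - nsq y.1)))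

/-- `f` is a quasi-isometric embedding of `KH^n` into `KH^m`. -/
def IsQIEmbedding {n m : ℕ} (f : HBall K n → HBall K m) : Prop :=
  ∃ L C : ℝ, 1 ≤ L ∧ 0 ≤ C ∧ ∀ x y,
    L⁻¹ * hdist x y - C ≤ hdist (f x) (f y) ∧ hdist (f x) (f y) ≤ L * hdist x y + C

/-- `g` is an isometric (distance preserving) embedding of `KH^n` into `KH^m`. -/
def IsIsometricEmbedding {n m : ℕ} (g : HBall K n → HBall K m) : Prop :=
  ∀ x y, hdist (g x) (g y) = hdist x y

/-- The Hausdorff distance of the two subsets `A`, `B` of `KH^m` is finite: for some `R`, every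
point of each of the sets is within distance `R` of a point of the other one. -/
def FiniteHausdorffDist {m : ℕ} (A B : Set (HBall K m)) : Prop :=
  ∃ R : ℝ, (∀ a ∈ A, ∃ b ∈ B, hdist a b ≤ R) ∧ (∀ b ∈ B, ∃ a ∈ A, hdist a b ≤ R)

/-- `f : KH^n → KH^m` is exotic: its image is at infinite Hausdorff distance from the image of
every isometric embedding `KH^n → KH^m`. -/
def IsExotic {n m : ℕ} (f : HBall K n → HBall K m) : Prop :=
  ∀ g : HBall K n → HBall K m, IsIsometricEmbedding g →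
    ¬ FiniteHausdorffDist (Set.range f) (Set.range g)

end Defs

/-! ### The properties of `ℂ` and `ℍ` that are used -/

/-- The common features of `ℂ` and `ℍ` used in the proofs. -/
class HypField (K : Type) [NormedDivisionRing K] [StarRing K] [NormedAlgebra ℝ K] where
  re : K →ₗ[ℝ] ℝ
  im : K
  re_one : re 1 = 1
  norm_sub_sq' : ∀ x y : K, ‖x - y‖ ^ 2 = ‖x‖ ^ 2 + ‖y‖ ^ 2 - 2 * re (x * star y)
  norm_star' : ∀ x : K, ‖star x‖ = ‖x‖
  star_smul' : ∀ (t : ℝ) (x : K), star (t • x) = t • star x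
  abs_re_le' : ∀ x : K, |re x| ≤ ‖x‖
  mul_star' : ∀ x : K, x * star x = (‖x‖ ^ 2) • (1 : K)
  re_im : re im = 0
  norm_im : ‖im‖ = 1

theorem quat_norm_sq (w : ℍ[ℝ]) : ‖w‖ ^ 2 = w.re ^ 2 + w.imI ^ 2 + w.imJ ^ 2 + w.imK ^ 2 := by
  rw [pow_two, ← Quaternion.normSq_eq_norm_mul_self, Quaternion.normSq_def']

/-- The real part of a quaternion as a linear map. -/
def quatRe : ℍ[ℝ] →ₗ[ℝ] ℝ :=
  { toFun := fun q => q.re, map_add' := fun _ _ => rfl, map_smul' := fun _ _ => rfl }

theorem quatRe_apply (q : ℍ[ℝ]) : quatRe q = q.re := rfl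

/-- The quaternion unit `i`. -/
def quatI : ℍ[ℝ] := ⟨0, 1, 0, 0⟩

instance : HypField ℍ[ℝ] where
  re := quatRe
  im := quatI
  re_one := rfl
  norm_sub_sq' x y := by
    rw [quat_norm_sq, quat_norm_sq, quat_norm_sq, quatRe_apply]
    simp
    ring
  norm_star' := Quaternion.norm_star
  star_smul' t x := Quaternion.star_smul t x
  abs_re_le' w := by
    rw [quatRe_apply, ← Real.sqrt_sq (norm_nonneg w), ← Real.sqrt_sq_eq_abs]
    apply Real.sqrt_le_sqrt
    rw [quat_norm_sq]
    nlinarith [sq_nonneg w.imI, sq_nonneg w.imJ, sq_nonneg w.imK]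
  mul_star' x := by
    rw [Quaternion.self_mul_star, Quaternion.normSq_eq_norm_mul_self, ← pow_two,
      ← Quaternion.coe_mul_eq_smul, mul_one]
  re_im := rfl
  norm_im := by
    have h : ‖quatI‖ ^ 2 = 1 := by rw [quat_norm_sq]; simp [quatI]
    have h0 := norm_nonneg quatI
    nlinarith

instance : HypField ℂ where
  re := Complex.reLm
  im := Complex.I
  re_one := rfl
  norm_sub_sq' x y := by
    rw [← Complex.normSq_eq_norm_sq, ← Complex.normSq_eq_norm_sq, ← Complex.normSq_eq_norm_sq]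
    simp [Complex.normSq_apply]
    ring
  norm_star' x := norm_star x
  star_smul' t x := by simp
  abs_re_le' := Complex.abs_re_le_norm
  mul_star' x := by
    simp [Complex.mul_conj, Complex.normSq_eq_norm_sq]
  re_im := by simp
  norm_im := by simp

section Basic

variable {K : Type} [NormedDivisionRing K] [StarRing K] [NormedAlgebra ℝ K] [HypField K]

/-- The real part. -/
abbrev re (x : K) : ℝ := HypField.re x

theorem re_add (x y : K) : re (x + y) = re x + re y := map_add _ _ _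

theorem re_sub (x y : K) : re (x - y) = re x - re y := map_sub _ _ _

theorem re_smul (t : ℝ) (x : K) : re (t • x) = t * re x := by
  simp [re]

theorem re_one' : re (1 : K) = 1 := HypField.re_one

theorem norm_sub_sq (x y : K) : ‖x - y‖ ^ 2 = ‖x‖ ^ 2 + ‖y‖ ^ 2 - 2 * re (x * star y) :=
  HypField.norm_sub_sq' x y

theorem norm_add_sq (x y : K) : ‖x + y‖ ^ 2 = ‖x‖ ^ 2 + ‖y‖ ^ 2 + 2 * re (x * star y) := by
  have h := norm_sub_sq x (-y)
  rw [sub_neg_eq_add, norm_neg, star_neg, mul_neg] at h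
  rw [h]
  simp [re]

theorem norm_star_K (x : K) : ‖star x‖ = ‖x‖ := HypField.norm_star' x

theorem star_smul_K (t : ℝ) (x : K) : star (t • x) = t • star x := HypField.star_smul' t x

theorem abs_re_le (x : K) : |re x| ≤ ‖x‖ := HypField.abs_re_le' x

theorem mul_star_K (x : K) : x * star x = (‖x‖ ^ 2) • (1 : K) := HypField.mul_star' x

theorem norm_real_add (t : ℝ) (w : K) :
    ‖t • (1 : K) + w‖ ^ 2 = t ^ 2 + 2 * t * re w + ‖w‖ ^ 2 := by
  rw [add_comm, norm_add_sq, norm_smul, norm_one, star_smul_K, star_one, mul_smul_comm, mul_one,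
    re_smul, mul_one, Real.norm_eq_abs, sq_abs]
  ring

theorem norm_one_sub_sq (w : K) : ‖1 - w‖ ^ 2 = 1 - 2 * re w + ‖w‖ ^ 2 := by
  have h := norm_real_add 1 (-w)
  rw [one_smul, norm_neg] at h
  rw [sub_eq_add_neg, h]
  simp [re]
  ring

theorem re_star_K (x : K) : re (star x) = re x := by
  have h1 := norm_sub_sq x 1
  have h2 := norm_sub_sq 1 x
  rw [norm_sub_rev, h2] at h1
  rw [star_one, mul_one, one_mul] at h1
  linarith

theorem nsq_nonneg {m : ℕ} (x : Fin m → K) : 0 ≤ nsq x :=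
  Finset.sum_nonneg fun i _ => by positivity

theorem re_sum {ι : Type*} (s : Finset ι) (f : ι → K) : re (∑ i ∈ s, f i) = ∑ i ∈ s, re (f i) :=
  map_sum _ _ _

theorem nsq_sub {m : ℕ} (x y : Fin m → K) :
    nsq (fun i => x i - y i) = nsq x + nsq y - 2 * re (herm x y) := by
  unfold nsq herm
  rw [re_sum, Finset.mul_sum, ← Finset.sum_add_distrib, ← Finset.sum_sub_distrib]
  exact Finset.sum_congr rfl fun i _ => norm_sub_sq _ _

theorem nsq_add {m : ℕ} (x y : Fin m → K) :
    nsq (fun i => x i + y i) = nsq x + nsq y + 2 * re (herm x y) := by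
  unfold nsq herm
  rw [re_sum, Finset.mul_sum, ← Finset.sum_add_distrib, ← Finset.sum_add_distrib]
  exact Finset.sum_congr rfl fun i _ => norm_add_sq _ _

theorem herm_norm_sq_le {m : ℕ} (x y : Fin m → K) : ‖herm x y‖ ^ 2 ≤ nsq x * nsq y := by
  have h1 : ‖herm x y‖ ≤ ∑ i, ‖x i‖ * ‖y i‖ := by
    unfold herm
    refine (norm_sum_le _ _).trans ?_
    apply Finset.sum_le_sum
    intro i _
    rw [norm_mul, norm_star_K]
  calc ‖herm x y‖ ^ 2 ≤ (∑ i, ‖x i‖ * ‖y i‖) ^ 2 := by gcongr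
    _ ≤ nsq x * nsq y := Finset.sum_mul_sq_le_sq_mul_sq _ _ _

theorem herm_smul_left {m : ℕ} (a : ℝ) (x y : Fin m → K) :
    herm (fun i => a • x i) y = a • herm x y := by
  unfold herm
  rw [Finset.smul_sum]
  apply Finset.sum_congr rfl
  intro i _
  rw [smul_mul_assoc]

theorem herm_smul_right {m : ℕ} (a : ℝ) (x y : Fin m → K) :
    herm x (fun i => a • y i) = a • herm x y := by
  unfold herm
  rw [Finset.smul_sum]
  apply Finset.sum_congr rfl
  intro i _
  rw [star_smul_K, mul_smul_comm]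

theorem herm_mul_left {m : ℕ} (q : K) (x y : Fin m → K) :
    herm (fun i => q * x i) y = q * herm x y := by
  unfold herm
  rw [Finset.mul_sum]
  apply Finset.sum_congr rfl
  intro i _
  rw [mul_assoc]

theorem herm_mul_right {m : ℕ} (q : K) (x y : Fin m → K) :
    herm x (fun i => q * y i) = herm x y * star q := by
  unfold herm
  rw [Finset.sum_mul]
  apply Finset.sum_congr rfl
  intro i _
  rw [star_mul, mul_assoc]

theorem herm_add_left {m : ℕ} (x y z : Fin m → K) :
    herm (fun i => x i + y i) z = herm x z + herm y z := by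
  unfold herm
  rw [← Finset.sum_add_distrib]
  apply Finset.sum_congr rfl
  intro i _
  rw [add_mul]

theorem star_herm {m : ℕ} (x y : Fin m → K) : star (herm x y) = herm y x := by
  unfold herm
  rw [star_sum]
  apply Finset.sum_congr rfl
  intro i _
  rw [star_mul, star_star]

theorem herm_self {m : ℕ} (x : Fin m → K) : herm x x = nsq x • (1 : K) := by
  unfold herm nsq
  rw [Finset.sum_smul]
  apply Finset.sum_congr rfl
  intro i _
  rw [mul_star_K]

theorem nsq_mul {m : ℕ} (q : K) (x : Fin m → K) :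
    nsq (fun i => q * x i) = ‖q‖ ^ 2 * nsq x := by
  unfold nsq
  rw [Finset.mul_sum]
  apply Finset.sum_congr rfl
  intro i _
  rw [norm_mul, mul_pow]

theorem nsq_smul {m : ℕ} (a : ℝ) (x : Fin m → K) :
    nsq (fun i => a • x i) = a ^ 2 * nsq x := by
  unfold nsq
  rw [Finset.mul_sum]
  apply Finset.sum_congr rfl
  intro i _
  rw [norm_smul, mul_pow, Real.norm_eq_abs, sq_abs]

theorem norm_coord_le {m : ℕ} (x : Fin m → K) (i0 : Fin m) : ‖x i0‖ ^ 2 ≤ nsq x :=
  Finset.single_le_sum (f := fun i => ‖x i‖ ^ 2) (fun i _ => by positivity) (Finset.mem_univ i0)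

/-! ### The distance -/

theorem sigma_pos {m : ℕ} (z : HBall K m) : 0 < √(1 - nsq z.1) :=
  Real.sqrt_pos.2 (by have := z.2; linarith)

theorem sigma_sq {m : ℕ} (z : HBall K m) : √(1 - nsq z.1) ^ 2 = 1 - nsq z.1 :=
  Real.sq_sqrt (by have := z.2; linarith)

theorem ball_factor {m : ℕ} (x y : HBall K m) :
    √(1 - nsq x.1) * √(1 - nsq y.1) ≤ ‖1 - herm x.1 y.1‖ := by
  have hx := x.2
  have hy := y.2
  have hx0 := nsq_nonneg x.1
  have hy0 := nsq_nonneg y.1
  rw [← Real.sqrt_mul (by linarith)]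
  apply Real.sqrt_le_iff.2
  refine ⟨norm_nonneg _, ?_⟩
  have h1 : ‖herm x.1 y.1‖ ^ 2 ≤ nsq x.1 * nsq y.1 := herm_norm_sq_le _ _
  have h2 : 1 - ‖herm x.1 y.1‖ ≤ ‖1 - herm x.1 y.1‖ := by
    have := norm_sub_norm_le (1 : K) (herm x.1 y.1)
    rwa [norm_one] at this
  have h3 : nsq x.1 * nsq y.1 < 1 := by nlinarith
  have h4 : ‖herm x.1 y.1‖ < 1 := by
    by_contra hc
    push Not at hc
    nlinarith
  have h5 := norm_nonneg (herm x.1 y.1)
  have h6 : (1 - nsq x.1) * (1 - nsq y.1) ≤ (1 - ‖herm x.1 y.1‖) ^ 2 := by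
    have hr : √(nsq x.1 * nsq y.1) ^ 2 = nsq x.1 * nsq y.1 := Real.sq_sqrt (by positivity)
    have hr0 := Real.sqrt_nonneg (nsq x.1 * nsq y.1)
    set r := √(nsq x.1 * nsq y.1)
    have hhr : ‖herm x.1 y.1‖ ≤ r := by nlinarith
    have hr1 : r < 1 := by nlinarith
    have hr2 : 2 * r ≤ nsq x.1 + nsq y.1 := by
      nlinarith [sq_nonneg (nsq x.1 - nsq y.1)]
    nlinarith
  nlinarith

theorem one_le_cosh_arg {m : ℕ} (x y : HBall K m) :
    1 ≤ ‖1 - herm x.1 y.1‖ / (√(1 - nsq x.1) * √(1 - nsq y.1)) :=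
  (one_le_div (mul_pos (sigma_pos x) (sigma_pos y))).2 (ball_factor x y)

theorem cosh_hdist {m : ℕ} (x y : HBall K m) :
    Real.cosh (hdist x y) = ‖1 - herm x.1 y.1‖ / (√(1 - nsq x.1) * √(1 - nsq y.1)) :=
  Real.cosh_arcosh (one_le_cosh_arg x y)

theorem hdist_nonneg {m : ℕ} (x y : HBall K m) : 0 ≤ hdist x y :=
  Real.arcosh_nonneg (one_le_cosh_arg x y)

theorem norm_eq_cosh {m : ℕ} (x y : HBall K m) :
    ‖1 - herm x.1 y.1‖ = Real.cosh (hdist x y) * (√(1 - nsq x.1) * √(1 - nsq y.1)) := by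
  rw [cosh_hdist, div_mul_cancel₀]
  exact (mul_pos (sigma_pos x) (sigma_pos y)).ne'

theorem norm_one_sub_herm_comm {m : ℕ} (x y : Fin m → K) : ‖1 - herm x y‖ = ‖1 - herm y x‖ := by
  rw [← norm_star_K, star_sub, star_one, star_herm]

theorem hdist_comm {m : ℕ} (x y : HBall K m) : hdist x y = hdist y x := by
  unfold hdist
  rw [norm_one_sub_herm_comm, mul_comm (√(1 - nsq x.1))]

theorem hdist_self {m : ℕ} (x : HBall K m) : hdist x x = 0 := by
  have h : ‖1 - herm x.1 x.1‖ = √(1 - nsq x.1) * √(1 - nsq x.1) := by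
    rw [herm_self, ← pow_two, sigma_sq]
    have : (1 : K) - nsq x.1 • (1 : K) = (1 - nsq x.1) • (1 : K) := by
      rw [sub_smul, one_smul]
    rw [this, norm_smul, norm_one, mul_one, Real.norm_of_nonneg]
    have := x.2
    linarith
  unfold hdist
  rw [h, div_self (mul_pos (sigma_pos x) (sigma_pos x)).ne', Real.arcosh_zero]

/-- Points of the ball from vectors `(u,c)` of square norm `-1` for the Lorentzian form. -/
theorem exists_point {m : ℕ} (c : K) (u : Fin m → K) (h : ‖c‖ ^ 2 - nsq u = 1) :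
    ∃ z : HBall K m, ∀ x : HBall K m,
      Real.cosh (hdist z x) = ‖c - herm u x.1‖ / √(1 - nsq x.1) := by
  have hu := nsq_nonneg u
  have hc2 : 0 < ‖c‖ ^ 2 := by linarith
  have hc : c ≠ 0 := by
    intro h0
    rw [h0] at hc2
    simp at hc2
  have hcn : 0 < ‖c‖ := norm_pos_iff.2 hc
  have hz : nsq (fun i => c⁻¹ * u i) = 1 - (‖c‖⁻¹) ^ 2 := by
    rw [nsq_mul, norm_inv]
    have : nsq u = ‖c‖ ^ 2 - 1 := by linarith
    rw [this]
    field_simp
  have hpos : 0 < (‖c‖⁻¹) ^ 2 := by positivity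
  obtain ⟨z, hzv⟩ : ∃ z : HBall K m, z.1 = fun i => c⁻¹ * u i :=
    ⟨⟨fun i => c⁻¹ * u i, by rw [hz]; linarith⟩, rfl⟩
  refine ⟨z, fun x => ?_⟩
  rw [cosh_hdist, hzv, hz, sub_sub_cancel, Real.sqrt_sq (by positivity), herm_mul_left]
  have h1 : 1 - c⁻¹ * herm u x.1 = c⁻¹ * (c - herm u x.1) := by
    rw [mul_sub, inv_mul_cancel₀ hc]
  rw [h1, norm_mul, norm_inv]
  have := sigma_pos x
  field_simp

theorem geod_aux {m : ℕ} (y y' : HBall K m) (α β : ℝ)
    (hab : α ^ 2 + β ^ 2 + 2 * α * β * Real.cosh (hdist y y') = 1) :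
    ∃ z : HBall K m, Real.cosh (hdist z y) = |α + β * Real.cosh (hdist y y')| ∧
      Real.cosh (hdist z y') = |α * Real.cosh (hdist y y') + β| := by
  have hσ := sigma_pos y
  have hσ' := sigma_pos y'
  have hσ2 := sigma_sq y
  have hσ2' := sigma_sq y'
  have hq := norm_eq_cosh y y'
  set σ := √(1 - nsq y.1)
  set σ' := √(1 - nsq y'.1)
  set ch := Real.cosh (hdist y y')
  have hch : 0 < ch := Real.cosh_pos _
  set q : K := 1 - herm y.1 y'.1 with hqdef
  have hq0 : 0 < ‖q‖ := by rw [hq]; positivity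
  obtain ⟨lam, hlam⟩ : ∃ l : K, l = (‖q‖)⁻¹ • q := ⟨_, rfl⟩
  have hlamn : ‖lam‖ = 1 := by
    rw [hlam, norm_smul, norm_inv, norm_norm, inv_mul_cancel₀ hq0.ne']
  have hqs : q * star lam = ‖q‖ • (1 : K) := by
    rw [hlam, star_smul_K, mul_smul_comm, mul_star_K, smul_smul]
    congr 1
    field_simp
  have hsq : lam * star q = ‖q‖ • (1 : K) := by
    rw [hlam, smul_mul_assoc, mul_star_K, smul_smul]
    congr 1
    field_simp
  have hstarq : 1 - herm y'.1 y.1 = star q := by
    rw [hqdef, star_sub, star_one, star_herm]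
  -- the vector
  set c : K := (α / σ) • (1 : K) + (β / σ') • lam with hc
  set u : Fin m → K := fun i => (α / σ) • y.1 i + (β / σ') • (lam * y'.1 i) with hu
  have hnc : ‖c‖ ^ 2 = (α / σ) ^ 2 + (β / σ') ^ 2 + 2 * ((α / σ) * ((β / σ') * re (star lam))) := by
    rw [hc, norm_add_sq, norm_smul, norm_smul, norm_one, hlamn, star_smul_K, smul_mul_assoc,
      one_mul, re_smul, re_smul, Real.norm_eq_abs, Real.norm_eq_abs, mul_one, mul_one, sq_abs,
      sq_abs]
  have hnu : nsq u = (α / σ) ^ 2 * nsq y.1 + (β / σ') ^ 2 * nsq y'.1 +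
      2 * ((α / σ) * ((β / σ') * re (herm y.1 y'.1 * star lam))) := by
    rw [hu, nsq_add, nsq_smul, nsq_smul, nsq_mul, hlamn, herm_smul_left, herm_smul_right,
      herm_mul_right, re_smul, re_smul]
    ring
  have hre : re (star lam) - re (herm y.1 y'.1 * star lam) = ‖q‖ := by
    rw [← re_sub]
    have : star lam - herm y.1 y'.1 * star lam = q * star lam := by
      rw [hqdef, sub_mul, one_mul]
    rw [this, hqs, re_smul, re_one', mul_one]
  have hone : ‖c‖ ^ 2 - nsq u = 1 := by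
    have e : ‖c‖ ^ 2 - nsq u = (α / σ) ^ 2 * σ ^ 2 + (β / σ') ^ 2 * σ' ^ 2 +
        2 * ((α / σ) * (β / σ')) * ‖q‖ := by
      rw [hnc, hnu, hσ2, hσ2', ← hre]
      ring
    rw [e, hq]
    have : (α / σ) ^ 2 * σ ^ 2 + (β / σ') ^ 2 * σ' ^ 2 +
        2 * ((α / σ) * (β / σ')) * (ch * (σ * σ')) = α ^ 2 + β ^ 2 + 2 * α * β * ch := by
      field_simp
    rw [this, hab]
  obtain ⟨z, hz⟩ := exists_point c u hone
  refine ⟨z, ?_, ?_⟩
  · rw [hz y]
    have h1 : c - herm u y.1 = (σ * (α + β * ch)) • (1 : K) := by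
      have : herm u y.1 = (α / σ) • herm y.1 y.1 + (β / σ') • (lam * herm y'.1 y.1) := by
        rw [hu, herm_add_left, herm_smul_left, herm_smul_left, herm_mul_left]
      rw [this, herm_self, hc]
      have h2 : (α / σ) • (1 : K) + (β / σ') • lam -
          ((α / σ) • nsq y.1 • (1 : K) + (β / σ') • (lam * herm y'.1 y.1)) =
          (α / σ) • ((1 - nsq y.1) • (1 : K)) + (β / σ') • (lam * (1 - herm y'.1 y.1)) := by
        rw [mul_sub, mul_one, sub_smul, one_smul, smul_sub, smul_sub]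
        abel
      rw [h2, hstarq, hsq, ← hσ2, smul_smul, smul_smul, ← add_smul, hq]
      congr 1
      field_simp
    change _ / σ = _
    rw [h1, norm_smul, norm_one, mul_one, Real.norm_eq_abs, abs_mul, abs_of_pos hσ]
    field_simp
  · rw [hz y']
    have h1 : c - herm u y'.1 = (σ' * (α * ch + β)) • lam := by
      have : herm u y'.1 = (α / σ) • herm y.1 y'.1 + (β / σ') • (lam * herm y'.1 y'.1) := by
        rw [hu, herm_add_left, herm_smul_left, herm_smul_left, herm_mul_left]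
      rw [this, herm_self, hc]
      have h2 : (α / σ) • (1 : K) + (β / σ') • lam -
          ((α / σ) • herm y.1 y'.1 + (β / σ') • (lam * nsq y'.1 • (1 : K))) =
          (α / σ) • q + (β / σ') • ((1 - nsq y'.1) • lam) := by
        rw [hqdef, smul_sub, mul_smul_comm, mul_one, sub_smul, one_smul, smul_sub]
        abel
      have h3 : q = ‖q‖ • lam := by
        rw [hlam, smul_smul, mul_inv_cancel₀ hq0.ne', one_smul]
      have h4 : (α / σ) • q = ((α / σ) * ‖q‖) • lam := by rw [mul_smul, ← h3]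
      rw [h2, ← hσ2', h4, smul_smul, ← add_smul, hq]
      congr 1
      field_simp
    change _ / σ' = _
    rw [h1, norm_smul, hlamn, mul_one, Real.norm_eq_abs, abs_mul, abs_of_pos hσ']
    field_simp

/-- Geodesics (and their extensions) in the ball model. -/
theorem geod {m : ℕ} (y y' : HBall K m) (hD : 0 < hdist y y') (s : ℝ) :
    ∃ z : HBall K m, Real.cosh (hdist z y) = Real.cosh s ∧
      Real.cosh (hdist z y') = Real.cosh (hdist y y' - s) := by
  set D := hdist y y' with hDdef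
  have hsh : 0 < Real.sinh D := Real.sinh_pos_iff.2 hD
  have e1 : Real.sinh (D - s) / Real.sinh D + Real.sinh s / Real.sinh D * Real.cosh D =
      Real.cosh s := by
    rw [Real.sinh_sub]
    field_simp
    ring
  have e2 : Real.sinh (D - s) / Real.sinh D * Real.cosh D + Real.sinh s / Real.sinh D =
      Real.cosh (D - s) := by
    rw [Real.sinh_sub, Real.cosh_sub]
    field_simp
    have := Real.cosh_sq D
    linear_combination (-(Real.sinh s)) * this
  have h := geod_aux y y' (Real.sinh (D - s) / Real.sinh D) (Real.sinh s / Real.sinh D) (by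
    have h1 : (Real.sinh (D - s) / Real.sinh D) ^ 2 + (Real.sinh s / Real.sinh D) ^ 2 +
        2 * (Real.sinh (D - s) / Real.sinh D) * (Real.sinh s / Real.sinh D) * Real.cosh D =
        (Real.sinh (D - s) / Real.sinh D) * (Real.sinh (D - s) / Real.sinh D +
          Real.sinh s / Real.sinh D * Real.cosh D) + (Real.sinh s / Real.sinh D) *
          (Real.sinh (D - s) / Real.sinh D * Real.cosh D + Real.sinh s / Real.sinh D) := by ring
    rw [h1, e1, e2]
    have h2 : Real.sinh D = Real.sinh (D - s) * Real.cosh s + Real.cosh (D - s) * Real.sinh s := by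
      rw [← Real.sinh_add]; ring_nf
    field_simp
    linarith)
  rw [← hDdef, e1, e2] at h
  obtain ⟨z, h1, h2⟩ := h
  exact ⟨z, by rw [h1, abs_of_pos (Real.cosh_pos _)], by rw [h2, abs_of_pos (Real.cosh_pos _)]⟩

theorem le_of_cosh_le {a b : ℝ} (ha : 0 ≤ a) (hb : 0 ≤ b) (h : Real.cosh a ≤ Real.cosh b) :
    a ≤ b := by
  rw [Real.cosh_le_cosh] at h
  rwa [abs_of_nonneg ha, abs_of_nonneg hb] at h

theorem eq_of_cosh_eq {a b : ℝ} (ha : 0 ≤ a) (hb : 0 ≤ b) (h : Real.cosh a = Real.cosh b) :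
    a = b := le_antisymm (le_of_cosh_le ha hb h.le) (le_of_cosh_le hb ha h.ge)

/-- Points on the segment. -/
theorem exists_between {m : ℕ} (y y' : HBall K m) {s t : ℝ} (hs : 0 ≤ s) (ht : 0 ≤ t)
    (h : hdist y y' ≤ s + t) : ∃ z : HBall K m, hdist z y ≤ s ∧ hdist z y' ≤ t := by
  rcases (hdist_nonneg y y').eq_or_lt with h0 | h0
  · exact ⟨y, by rwa [hdist_self], by rwa [← h0]⟩
  rcases le_total (hdist y y') s with h1 | h1
  · exact ⟨y', by rwa [hdist_comm], by rwa [hdist_self]⟩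
  obtain ⟨z, h2, h3⟩ := geod y y' h0 s
  refine ⟨z, (eq_of_cosh_eq (hdist_nonneg _ _) hs h2).le, ?_⟩
  rw [eq_of_cosh_eq (hdist_nonneg _ _) (by linarith) h3]
  linarith

/-- Extension of segments. -/
theorem exists_extension {m : ℕ} (y y' : HBall K m) (hD : 0 < hdist y y') {L : ℝ} (hL : 0 ≤ L) :
    ∃ w : HBall K m, hdist y w = hdist y y' + L ∧ hdist y' w = L := by
  obtain ⟨w, h2, h3⟩ := geod y y' hD (hdist y y' + L)
  refine ⟨w, ?_, ?_⟩
  · rw [hdist_comm]
    exact eq_of_cosh_eq (hdist_nonneg _ _) (by linarith) h2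
  · rw [hdist_comm]
    refine eq_of_cosh_eq (hdist_nonneg _ _) hL ?_
    rw [h3, ← Real.cosh_neg]
    congr 1
    ring

/-! ### Euclidean estimates in the ball -/

theorem nsq_sub_le_cosh {m : ℕ} (P F : HBall K m) :
    nsq (fun i => P.1 i - F.1 i) ≤
      2 * (Real.cosh (hdist P F) * (√(1 - nsq P.1) * √(1 - nsq F.1))) := by
  rw [← norm_eq_cosh, nsq_sub]
  have h1 := P.2
  have h2 := F.2
  have h3 := (abs_le.1 (abs_re_le (1 - herm P.1 F.1))).2
  rw [re_sub, re_one'] at h3
  linarith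

variable (K) in
/-- The centre of the ball. -/
def origin (m : ℕ) : HBall K m := ⟨fun _ => 0, by simp [nsq]⟩

theorem nsq_origin (m : ℕ) : nsq (origin K m).1 = 0 := by simp [nsq, origin]

theorem herm_origin {m : ℕ} (P : HBall K m) : herm P.1 (origin K m).1 = 0 := by
  simp [herm, origin]

theorem cosh_origin {m : ℕ} (P : HBall K m) :
    Real.cosh (hdist P (origin K m)) = 1 / √(1 - nsq P.1) := by
  rw [cosh_hdist, herm_origin, nsq_origin]
  simp

theorem sigma_le_one {m : ℕ} (P : HBall K m) : √(1 - nsq P.1) ≤ 1 :=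
  Real.sqrt_le_one.2 (by linarith [nsq_nonneg P.1])

theorem sinh_origin {m : ℕ} (P : HBall K m) :
    Real.sinh (hdist P (origin K m)) = √(nsq P.1) / √(1 - nsq P.1) := by
  have h1 := Real.cosh_sq (hdist P (origin K m))
  rw [cosh_origin] at h1
  have h2 := sigma_sq P
  have h3 := sigma_pos P
  have h4 : 0 ≤ Real.sinh (hdist P (origin K m)) := Real.sinh_nonneg_iff.2 (hdist_nonneg _ _)
  have h5 := nsq_nonneg P.1
  have h6 : Real.sinh (hdist P (origin K m)) ^ 2 = (√(nsq P.1) / √(1 - nsq P.1)) ^ 2 := by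
    have : Real.sinh (hdist P (origin K m)) ^ 2 = (1 / √(1 - nsq P.1)) ^ 2 - 1 := by linarith
    rw [this, div_pow, div_pow, Real.sq_sqrt h5, h2]
    have : 1 - nsq P.1 ≠ 0 := by have := P.2; linarith
    field_simp
    ring
  exact (pow_left_inj₀ h4 (by positivity) two_ne_zero).1 h6

theorem norm_herm_le {m : ℕ} (x y : Fin m → K) : ‖herm x y‖ ≤ √(nsq x) * √(nsq y) := by
  rw [← Real.sqrt_mul (nsq_nonneg x)]
  exact Real.le_sqrt_of_sq_le (herm_norm_sq_le x y)

theorem triangle_origin {m : ℕ} (P Q : HBall K m) :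
    hdist P Q ≤ hdist P (origin K m) + hdist Q (origin K m) := by
  apply le_of_cosh_le (hdist_nonneg _ _) (add_nonneg (hdist_nonneg _ _) (hdist_nonneg _ _))
  rw [Real.cosh_add, cosh_origin, cosh_origin, sinh_origin, sinh_origin, cosh_hdist]
  have h1 := sigma_pos P
  have h2 := sigma_pos Q
  have h3 : ‖1 - herm P.1 Q.1‖ ≤ 1 + √(nsq P.1) * √(nsq Q.1) := by
    refine (norm_sub_le _ _).trans ?_
    rw [norm_one]
    linarith [norm_herm_le P.1 Q.1]
  rw [div_mul_div_comm, div_mul_div_comm, ← add_div, one_mul]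
  gcongr

/-- If `M` is not farther than `0` from both of `P`, `Q` and `P + Q` is small, then `M` is
small. -/
theorem nsq_le_of_near {m : ℕ} (P Q M : HBall K m)
    (h1 : hdist M P ≤ hdist P (origin K m)) (h2 : hdist M Q ≤ hdist Q (origin K m)) :
    nsq M.1 ≤ nsq (fun i => P.1 i + Q.1 i) := by
  have key : ∀ P : HBall K m, hdist M P ≤ hdist P (origin K m) →
      1 - 2 * re (herm P.1 M.1) ≤ 1 - nsq M.1 := by
    intro P hP
    have e1 := norm_eq_cosh P M
    have e2 : Real.cosh (hdist P M) ≤ 1 / √(1 - nsq P.1) := by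
      rw [← cosh_origin, Real.cosh_le_cosh, abs_of_nonneg (hdist_nonneg _ _),
        abs_of_nonneg (hdist_nonneg _ _), hdist_comm]
      exact hP
    have h3 := sigma_pos P
    have h4 := sigma_pos M
    have e3 : ‖1 - herm P.1 M.1‖ ≤ √(1 - nsq M.1) := by
      rw [e1]
      calc Real.cosh (hdist P M) * (√(1 - nsq P.1) * √(1 - nsq M.1)) ≤
          1 / √(1 - nsq P.1) * (√(1 - nsq P.1) * √(1 - nsq M.1)) := by gcongr
        _ = √(1 - nsq M.1) := by field_simp
    have e4 : ‖1 - herm P.1 M.1‖ ^ 2 ≤ 1 - nsq M.1 := by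
      rw [← sigma_sq M]
      gcongr
    rw [norm_one_sub_sq] at e4
    nlinarith [sq_nonneg ‖herm P.1 M.1‖]
  have k1 := key P h1
  have k2 := key Q h2
  have k3 : nsq M.1 ≤ re (herm (fun i => P.1 i + Q.1 i) M.1) := by
    rw [herm_add_left, re_add]
    linarith
  have k4 := (abs_le.1 (abs_re_le (herm (fun i => P.1 i + Q.1 i) M.1))).2
  have k5 := herm_norm_sq_le (fun i => P.1 i + Q.1 i) M.1
  have k6 := nsq_nonneg M.1
  have k7 := nsq_nonneg (fun i => P.1 i + Q.1 i)
  have k8 : nsq M.1 ≤ ‖herm (fun i => P.1 i + Q.1 i) M.1‖ := k3.trans k4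
  have k9 : nsq M.1 ^ 2 ≤ nsq (fun i => P.1 i + Q.1 i) * nsq M.1 :=
    (pow_le_pow_left₀ k6 k8 2).trans k5
  by_contra hc
  push Not at hc
  have : 0 < nsq M.1 := lt_of_le_of_lt k7 hc
  nlinarith

theorem nsq_add_le {m : ℕ} (x y : Fin m → K) :
    nsq (fun i => x i + y i) ≤ 2 * nsq x + 2 * nsq y := by
  have h1 := nsq_add x y
  have h2 := nsq_sub x y
  have h3 := nsq_nonneg (fun i => x i - y i)
  linarith

theorem tendsto_sigma {m : ℕ} {F : ℕ → HBall K m} {c : ℝ}
    (h : Tendsto (fun k => nsq (F k).1) atTop (𝓝 c)) :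
    Tendsto (fun k => √(1 - nsq (F k).1)) atTop (𝓝 (√(1 - c))) :=
  (Real.continuous_sqrt.tendsto _).comp (tendsto_const_nhds.sub h)

/-- If `F` tends to the sphere and `G` stays at bounded distance from `F`, then `G - F` tends
to `0`. -/
theorem close_of_bounded {m : ℕ} {F G : ℕ → HBall K m} {R : ℝ}
    (hF : Tendsto (fun k => nsq (F k).1) atTop (𝓝 1)) (hR : ∀ k, hdist (F k) (G k) ≤ R) :
    Tendsto (fun k => nsq (fun i => (F k).1 i - (G k).1 i)) atTop (𝓝 0) := by
  have h1 := (tendsto_sigma hF).const_mul (2 * Real.cosh R)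
  rw [sub_self, Real.sqrt_zero, mul_zero] at h1
  refine tendsto_of_tendsto_of_tendsto_of_le_of_le tendsto_const_nhds h1
    (fun k => nsq_nonneg _) (fun k => ?_)
  refine (nsq_sub_le_cosh _ _).trans ?_
  have h2 : Real.cosh (hdist (F k) (G k)) ≤ Real.cosh R := by
    rw [Real.cosh_le_cosh, abs_of_nonneg (hdist_nonneg _ _)]
    exact (hR k).trans (le_abs_self R)
  have h3 := sigma_pos (F k)
  have h4 := sigma_pos (G k)
  have h5 := sigma_le_one (G k)
  have h6 := Real.cosh_pos (hdist (F k) (G k))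
  calc 2 * (Real.cosh (hdist (F k) (G k)) * (√(1 - nsq (F k).1) * √(1 - nsq (G k).1))) ≤
      2 * (Real.cosh R * (√(1 - nsq (F k).1) * 1)) := by gcongr
    _ = 2 * Real.cosh R * √(1 - nsq (F k).1) := by ring

theorem nsq_tendsto_of_close {m : ℕ} {F G : ℕ → HBall K m}
    (hF : Tendsto (fun k => nsq (F k).1) atTop (𝓝 1))
    (h : Tendsto (fun k => nsq (fun i => (F k).1 i - (G k).1 i)) atTop (𝓝 0)) :
    Tendsto (fun k => nsq (G k).1) atTop (𝓝 1) := by
  -- √nsq G ≥ √nsq F - √nsq (F - G)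
  have h1 : Tendsto (fun k => nsq (F k).1 - 2 * √(nsq (fun i => (F k).1 i - (G k).1 i)) +
      nsq (fun i => (F k).1 i - (G k).1 i)) atTop (𝓝 1) := by
    have h2 := ((Real.continuous_sqrt.tendsto _).comp h).const_mul 2
    rw [Real.sqrt_zero, mul_zero] at h2
    have := (hF.sub h2).add h
    simpa using this
  refine tendsto_of_tendsto_of_tendsto_of_le_of_le h1 tendsto_const_nhds (fun k => ?_)
    (fun k => (G k).2.le)
  have e1 : nsq (G k).1 = nsq (F k).1 + nsq (fun i => (F k).1 i - (G k).1 i) -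
      2 * re (herm (F k).1 (fun i => (F k).1 i - (G k).1 i)) := by
    have := nsq_sub (F k).1 (fun i => (F k).1 i - (G k).1 i)
    rw [← this]
    congr 1
    funext i
    abel
  have e2 := (abs_le.1 (abs_re_le (herm (F k).1 (fun i => (F k).1 i - (G k).1 i)))).2
  have e3 := norm_herm_le (F k).1 (fun i => (F k).1 i - (G k).1 i)
  have e4 : √(nsq (F k).1) ≤ 1 := Real.sqrt_le_one.2 (F k).2.le
  have e5 : √(nsq (F k).1) * √(nsq (fun i => (F k).1 i - (G k).1 i)) ≤
      1 * √(nsq (fun i => (F k).1 i - (G k).1 i)) := by gcongr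
  linarith

theorem re_coord_sq_le {m : ℕ} (x : Fin m → K) (j : Fin m) : re (x j) ^ 2 ≤ nsq x := by
  refine le_trans ?_ (norm_coord_le x j)
  rw [← sq_abs]
  exact pow_le_pow_left₀ (abs_nonneg _) (abs_re_le _) 2

/-- The key estimate: `E → ζ`, `Z → 0`, and `W` on the extension of the segment `[E,Z]` beyond `Z`
at distance `L` from `Z`.  Then `W + tanh L • E → 0`. -/
theorem extension_limit {m : ℕ} {E Z W : ℕ → HBall K m} {L : ℝ} (hL : 0 < L)
    (hE : Tendsto (fun k => nsq (E k).1) atTop (𝓝 1))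
    (hZ : Tendsto (fun k => nsq (Z k).1) atTop (𝓝 0))
    (hW1 : ∀ᶠ k in atTop, hdist (E k) (W k) = hdist (E k) (Z k) + L)
    (hW2 : ∀ᶠ k in atTop, hdist (Z k) (W k) = L) :
    Tendsto (fun k => √(1 - nsq (W k).1)) atTop (𝓝 (1 / Real.cosh L)) ∧
    Tendsto (fun k => nsq (fun i => (W k).1 i + (Real.tanh L) • (E k).1 i)) atTop (𝓝 0) := by
  have hch := Real.cosh_pos L
  -- norms of `1 - herm` involving `Z` tend to one
  have hone : ∀ (V : ℕ → HBall K m), Tendsto (fun k => ‖1 - herm (V k).1 (Z k).1‖) atTop (𝓝 1) := by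
    intro V
    have h1 : Tendsto (fun k => √(nsq (Z k).1)) atTop (𝓝 0) := by
      have := (Real.continuous_sqrt.tendsto _).comp hZ
      rw [Real.sqrt_zero] at this
      exact this
    have h2 : Tendsto (fun k => herm (V k).1 (Z k).1) atTop (𝓝 0) := by
      apply squeeze_zero_norm (fun k => ?_) h1
      have h3 := norm_herm_le (V k).1 (Z k).1
      have h4 : √(nsq (V k).1) ≤ 1 := Real.sqrt_le_one.2 (V k).2.le
      have h5 : √(nsq (V k).1) * √(nsq (Z k).1) ≤ 1 * √(nsq (Z k).1) := by gcongr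
      linarith
    have h3 := (tendsto_const_nhds (x := (1 : K))).sub h2
    rw [sub_zero] at h3
    simpa using h3.norm
  have sE := tendsto_sigma hE
  rw [sub_self, Real.sqrt_zero] at sE
  have sZ := tendsto_sigma hZ
  rw [sub_zero, Real.sqrt_one] at sZ
  -- cosh D * σE → 1
  have ha : Tendsto (fun k => Real.cosh (hdist (E k) (Z k)) * √(1 - nsq (E k).1)) atTop (𝓝 1) := by
    have h1 := (hone E).div sZ one_ne_zero
    rw [div_one] at h1
    refine h1.congr (fun k => ?_)
    have h2 := sigma_pos (Z k)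
    rw [Pi.div_apply, norm_eq_cosh]
    field_simp
  -- sinh D * σE → 1
  have hs : Tendsto (fun k => Real.sinh (hdist (E k) (Z k)) * √(1 - nsq (E k).1)) atTop (𝓝 1) := by
    have h1 : Tendsto (fun k => √((Real.cosh (hdist (E k) (Z k)) * √(1 - nsq (E k).1)) ^ 2 -
        √(1 - nsq (E k).1) ^ 2)) atTop (𝓝 1) := by
      have h2 := (Real.continuous_sqrt.tendsto _).comp ((ha.pow 2).sub (sE.pow 2))
      have h3 : √((1 : ℝ) ^ 2 - 0 ^ 2) = 1 := by norm_num
      rw [h3] at h2
      exact h2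
    refine h1.congr (fun k => ?_)
    have h2 := sigma_pos (E k)
    have h3 : 0 ≤ Real.sinh (hdist (E k) (Z k)) := Real.sinh_nonneg_iff.2 (hdist_nonneg _ _)
    have h4 : (Real.cosh (hdist (E k) (Z k)) * √(1 - nsq (E k).1)) ^ 2 - √(1 - nsq (E k).1) ^ 2 =
        (Real.sinh (hdist (E k) (Z k)) * √(1 - nsq (E k).1)) ^ 2 := by
      have := Real.cosh_sq (hdist (E k) (Z k))
      rw [mul_pow, mul_pow, this]
      ring
    rw [h4, Real.sqrt_sq (by positivity)]
  -- σW → 1 / cosh L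
  have sW : Tendsto (fun k => √(1 - nsq (W k).1)) atTop (𝓝 (1 / Real.cosh L)) := by
    have h1 := ((hone W).div sZ one_ne_zero).div_const (Real.cosh L)
    rw [div_one] at h1
    refine h1.congr' ?_
    filter_upwards [hW2] with k hk
    have h2 := sigma_pos (Z k)
    rw [Pi.div_apply, norm_one_sub_herm_comm, norm_eq_cosh, hk]
    field_simp
  refine ⟨sW, ?_⟩
  -- |1 - <E,W>| → 1 + tanh L
  have hC : Tendsto (fun k => ‖1 - herm (E k).1 (W k).1‖) atTop (𝓝 (1 + Real.tanh L)) := by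
    have h1 := ((ha.mul_const (Real.cosh L)).add (hs.mul_const (Real.sinh L))).mul sW
    have h2 : (1 * Real.cosh L + 1 * Real.sinh L) * (1 / Real.cosh L) = 1 + Real.tanh L := by
      rw [Real.tanh_eq_sinh_div_cosh]
      field_simp
    rw [h2] at h1
    refine h1.congr' ?_
    filter_upwards [hW1] with k hk
    rw [norm_eq_cosh, hk, Real.cosh_add]
    ring
  have nW : Tendsto (fun k => nsq (W k).1) atTop (𝓝 (Real.tanh L ^ 2)) := by
    have h1 := (tendsto_const_nhds (x := (1 : ℝ))).sub (sW.pow 2)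
    have h2 : 1 - (1 / Real.cosh L) ^ 2 = Real.tanh L ^ 2 := by
      rw [Real.tanh_eq_sinh_div_cosh, div_pow, div_pow, Real.cosh_sq]
      have : Real.sinh L ^ 2 + 1 ≠ 0 := by positivity
      field_simp
      ring
    rw [h2] at h1
    refine h1.congr (fun k => ?_)
    rw [sigma_sq]
    ring
  have hT : 0 < Real.tanh L := by
    rw [Real.tanh_eq_sinh_div_cosh]
    have := Real.sinh_pos_iff.2 hL
    positivity
  -- final estimate
  have hup : Tendsto (fun k => nsq (W k).1 + Real.tanh L ^ 2 +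
      Real.tanh L * (1 + nsq (W k).1 - ‖1 - herm (E k).1 (W k).1‖ ^ 2)) atTop (𝓝 0) := by
    have h1 := (nW.add_const (Real.tanh L ^ 2)).add
      (((nW.const_add 1).sub (hC.pow 2)).const_mul (Real.tanh L))
    have h2 : Real.tanh L ^ 2 + Real.tanh L ^ 2 +
        Real.tanh L * (1 + Real.tanh L ^ 2 - (1 + Real.tanh L) ^ 2) = 0 := by ring
    rw [h2] at h1
    exact h1
  refine tendsto_of_tendsto_of_tendsto_of_le_of_le tendsto_const_nhds hup
    (fun k => nsq_nonneg _) (fun k => ?_)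
  have e1 := nsq_add (W k).1 (fun i => (Real.tanh L) • (E k).1 i)
  have e2 : re (herm (W k).1 (fun i => (Real.tanh L) • (E k).1 i)) =
      Real.tanh L * re (herm (E k).1 (W k).1) := by
    rw [herm_smul_right, re_smul, ← star_herm, re_star_K]
  rw [e1, e2, nsq_smul]
  have e3 := norm_one_sub_sq (herm (E k).1 (W k).1)
  have e4 := herm_norm_sq_le (E k).1 (W k).1
  have e5 : nsq (E k).1 * nsq (W k).1 ≤ 1 * nsq (W k).1 :=
    mul_le_mul_of_nonneg_right (E k).2.le (nsq_nonneg _)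
  have e6 : Real.tanh L ^ 2 * nsq (E k).1 ≤ Real.tanh L ^ 2 * 1 :=
    mul_le_mul_of_nonneg_left (E k).2.le (sq_nonneg _)
  have e7 : 2 * re (herm (E k).1 (W k).1) ≤ 1 + nsq (W k).1 - ‖1 - herm (E k).1 (W k).1‖ ^ 2 := by
    linarith
  have e8 := mul_le_mul_of_nonneg_left e7 hT.le
  nlinarith

/-- The exoticness criterion. -/
theorem exotic_core {n m : ℕ} (f : HBall K n → HBall K m) (p p' e : ℕ → HBall K n)
    (j : Fin m) (b : ℝ) (hb : 0 < b)
    (h1 : Tendsto (fun k => nsq (fun i => (f (p k)).1 i + (f (p' k)).1 i)) atTop (𝓝 0))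
    (h2 : Tendsto (fun k => nsq (f (p k)).1) atTop (𝓝 1))
    (h2' : Tendsto (fun k => nsq (f (p' k)).1) atTop (𝓝 1))
    (h3 : Tendsto (fun k => nsq (f (e k)).1) atTop (𝓝 1))
    (h4 : Tendsto (fun k => re ((f (e k)).1 j)) atTop (𝓝 b))
    (h5 : ∀ x, 0 ≤ re ((f x).1 j)) : IsExotic f := by
  rintro g hg ⟨R, hR1, hR2⟩
  have c1 : ∀ x, ∃ y, hdist (f x) (g y) ≤ R := by
    intro x
    obtain ⟨_, ⟨y, rfl⟩, h⟩ := hR1 (f x) ⟨x, rfl⟩
    exact ⟨y, h⟩
  have c2 : ∀ y, ∃ x, hdist (f x) (g y) ≤ R := by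
    intro y
    obtain ⟨_, ⟨x, rfl⟩, h⟩ := hR2 (g y) ⟨y, rfl⟩
    exact ⟨x, h⟩
  choose y hy using c1
  choose v hv using c2
  -- the three sequences in the image of `g`
  have cp := close_of_bounded (G := fun k => g (y (p k))) h2 (fun k => hy (p k))
  have cp' := close_of_bounded (G := fun k => g (y (p' k))) h2' (fun k => hy (p' k))
  have ce := close_of_bounded (G := fun k => g (y (e k))) h3 (fun k => hy (e k))
  have hE := nsq_tendsto_of_close h3 ce
  -- points near the centre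
  have hz : ∀ k, ∃ z, nsq (g z).1 ≤
      nsq (fun i => (g (y (p k))).1 i + (g (y (p' k))).1 i) := by
    intro k
    obtain ⟨z, hz1, hz2⟩ := exists_between (y (p k)) (y (p' k))
      (hdist_nonneg (g (y (p k))) (origin K m)) (hdist_nonneg (g (y (p' k))) (origin K m))
      (by rw [← hg]; exact triangle_origin _ _)
    exact ⟨z, nsq_le_of_near _ _ _ (by rw [hg]; exact hz1) (by rw [hg]; exact hz2)⟩
  choose z hz using hz
  have hZ : Tendsto (fun k => nsq (g (z k)).1) atTop (𝓝 0) := by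
    have hb1 := ((h1.const_mul 2).add ((cp.const_mul 4).add (cp'.const_mul 4)))
    simp only [mul_zero, add_zero] at hb1
    refine tendsto_of_tendsto_of_tendsto_of_le_of_le tendsto_const_nhds hb1
      (fun k => nsq_nonneg _) (fun k => (hz k).trans ?_)
    have e1 := nsq_add_le (fun i => (f (p k)).1 i + (f (p' k)).1 i)
      (fun i => ((g (y (p k))).1 i - (f (p k)).1 i) + ((g (y (p' k))).1 i - (f (p' k)).1 i))
    have e2 := nsq_add_le (fun i => (g (y (p k))).1 i - (f (p k)).1 i)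
      (fun i => (g (y (p' k))).1 i - (f (p' k)).1 i)
    have e3 : (fun i => (g (y (p k))).1 i + (g (y (p' k))).1 i) = fun i =>
        ((f (p k)).1 i + (f (p' k)).1 i) +
        (((g (y (p k))).1 i - (f (p k)).1 i) + ((g (y (p' k))).1 i - (f (p' k)).1 i)) := by
      funext i
      abel
    have e4 : ∀ a c : Fin m → K, nsq (fun i => a i - c i) = nsq (fun i => c i - a i) := by
      intro a c
      unfold nsq
      apply Finset.sum_congr rfl
      intro i _
      rw [norm_sub_rev]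
    rw [e3]
    rw [e4 (g (y (p k))).1 (f (p k)).1, e4 (g (y (p' k))).1 (f (p' k)).1] at e2
    linarith
  -- the main inequality, for every `L > 0`
  have key : ∀ L : ℝ, 0 < L → b ^ 2 * (Real.cosh L - 1) ≤ 2 * Real.cosh R := by
    intro L hL
    have hch := Real.cosh_pos L
    -- distances from `E` to `Z` are eventually positive
    have hD : ∀ᶠ k in atTop, 0 < hdist (y (e k)) (z k) := by
      have t1 := hE.sub hZ
      rw [sub_zero] at t1
      filter_upwards [t1.eventually (lt_mem_nhds (zero_lt_one))] with k hk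
      rcases (hdist_nonneg (y (e k)) (z k)).eq_or_lt with h0 | h0
      · exfalso
        have h6 : hdist (g (y (e k))) (g (z k)) = 0 := by rw [hg, ← h0]
        have h7 := norm_eq_cosh (g (y (e k))) (g (z k))
        rw [h6, Real.cosh_zero, one_mul] at h7
        have h8 := nsq_sub_le_cosh (g (y (e k))) (g (z k))
        rw [h6, Real.cosh_zero, one_mul] at h8
        have h9 := nsq_sub (g (y (e k))).1 (g (z k)).1
        have h10 := nsq_nonneg (fun i => (g (y (e k))).1 i - (g (z k)).1 i)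
        have h11 := (abs_le.1 (abs_re_le (1 - herm (g (y (e k))).1 (g (z k)).1))).2
        rw [re_sub, re_one', h7] at h11
        -- (1 - X) + (1 - Y) ≤ 2 √(1-X) √(1-Y), hence X = Y
        have h12 := sigma_sq (g (y (e k)))
        have h13 := sigma_sq (g (z k))
        have h14 : (√(1 - nsq (g (y (e k))).1) - √(1 - nsq (g (z k)).1)) ^ 2 ≤ 0 := by
          nlinarith
        have h15 : √(1 - nsq (g (y (e k))).1) = √(1 - nsq (g (z k)).1) := by
          have := pow_eq_zero_iff (two_ne_zero) |>.1 (le_antisymm h14 (sq_nonneg _))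
          linarith
        rw [h15, h13] at h12
        linarith
      · exact h0
    have hw : ∀ k, ∃ w, 0 < hdist (y (e k)) (z k) →
        (hdist (y (e k)) w = hdist (y (e k)) (z k) + L ∧ hdist (z k) w = L) := by
      intro k
      by_cases h0 : 0 < hdist (y (e k)) (z k)
      · obtain ⟨w, hw⟩ := exists_extension _ _ h0 hL.le
        exact ⟨w, fun _ => hw⟩
      · exact ⟨z k, fun h => absurd h h0⟩
    choose w hw using hw
    obtain ⟨sW, hlim⟩ := extension_limit (E := fun k => g (y (e k))) (Z := fun k => g (z k))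
      (W := fun k => g (w k)) hL hE hZ
      (by filter_upwards [hD] with k hk; rw [hg, hg]; exact (hw k hk).1)
      (by filter_upwards [hD] with k hk; rw [hg]; exact (hw k hk).2)
    -- real part of the `j`-th coordinate of `W`
    have reE : Tendsto (fun k => re ((g (y (e k))).1 j)) atTop (𝓝 b) := by
      have t1 : Tendsto (fun k => re ((f (e k)).1 j - (g (y (e k))).1 j)) atTop (𝓝 0) := by
        have t2 := (Real.continuous_sqrt.tendsto _).comp ce
        rw [Real.sqrt_zero] at t2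
        refine squeeze_zero_norm (fun k => ?_) t2
        rw [Real.norm_eq_abs]
        exact Real.abs_le_sqrt (re_coord_sq_le (fun i => (f (e k)).1 i - (g (y (e k))).1 i) j)
      have t3 := h4.sub t1
      rw [sub_zero] at t3
      refine t3.congr (fun k => ?_)
      rw [re_sub]
      ring
    have reW : Tendsto (fun k => re ((g (w k)).1 j)) atTop (𝓝 (-(Real.tanh L * b))) := by
      have t1 : Tendsto (fun k => re ((g (w k)).1 j + (Real.tanh L) • (g (y (e k))).1 j)) atTop
          (𝓝 0) := by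
        have t2 := (Real.continuous_sqrt.tendsto _).comp hlim
        rw [Real.sqrt_zero] at t2
        refine squeeze_zero_norm (fun k => ?_) t2
        rw [Real.norm_eq_abs]
        exact Real.abs_le_sqrt
          (re_coord_sq_le (fun i => (g (w k)).1 i + (Real.tanh L) • (g (y (e k))).1 i) j)
      have t3 := t1.sub (reE.const_mul (Real.tanh L))
      rw [zero_sub] at t3
      refine t3.congr (fun k => ?_)
      rw [re_add, re_smul]
      ring
    have hT : 0 < Real.tanh L := by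
      rw [Real.tanh_eq_sinh_div_cosh]
      have := Real.sinh_pos_iff.2 hL
      positivity
    have hlimit : (-(Real.tanh L * b)) ^ 2 ≤ 2 * Real.cosh R * (1 / Real.cosh L) := by
      refine le_of_tendsto_of_tendsto (reW.pow 2) (sW.const_mul (2 * Real.cosh R)) ?_
      have hneg : ∀ᶠ k in atTop, re ((g (w k)).1 j) < 0 :=
        reW.eventually (gt_mem_nhds (by nlinarith [mul_pos hT hb]))
      filter_upwards [hneg] with k hk
      have a1 := nsq_sub_le_cosh (f (v (w k))) (g (w k))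
      have a2 := re_coord_sq_le (fun i => (f (v (w k))).1 i - (g (w k)).1 i) j
      have a3 := h5 (v (w k))
      have a4 : Real.cosh (hdist (f (v (w k))) (g (w k))) ≤ Real.cosh R := by
        rw [Real.cosh_le_cosh, abs_of_nonneg (hdist_nonneg _ _)]
        exact (hv (w k)).trans (le_abs_self R)
      have a5 := sigma_le_one (f (v (w k)))
      have a6 := sigma_pos (f (v (w k)))
      have a7 := sigma_pos (g (w k))
      have a8 := Real.cosh_pos (hdist (f (v (w k))) (g (w k)))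
      have a9 : 2 * (Real.cosh (hdist (f (v (w k))) (g (w k))) *
          (√(1 - nsq (f (v (w k))).1) * √(1 - nsq (g (w k)).1))) ≤
          2 * (Real.cosh R * (1 * √(1 - nsq (g (w k)).1))) := by gcongr
      simp only [re_sub] at a2
      nlinarith
    have hid : Real.tanh L ^ 2 * Real.cosh L = Real.cosh L - 1 / Real.cosh L := by
      rw [Real.tanh_eq_sinh_div_cosh, div_pow, Real.sinh_sq]
      field_simp
    have hone : 1 / Real.cosh L ≤ 1 := by
      rw [div_le_one hch]
      exact Real.one_le_cosh L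
    have h6 : b ^ 2 * (Real.tanh L ^ 2 * Real.cosh L) ≤ 2 * Real.cosh R := by
      have := mul_le_mul_of_nonneg_right hlimit hch.le
      have h7 : 2 * Real.cosh R * (1 / Real.cosh L) * Real.cosh L = 2 * Real.cosh R := by
        field_simp
      rw [h7] at this
      nlinarith
    rw [hid] at h6
    nlinarith [sq_nonneg b, mul_le_mul_of_nonneg_left hone (sq_nonneg b)]
  -- choose `L` large
  have hRp := Real.cosh_pos R
  have hx : 1 ≤ 1 + (2 * Real.cosh R + 1) / b ^ 2 := by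
    have : 0 ≤ (2 * Real.cosh R + 1) / b ^ 2 := by positivity
    linarith
  have hLpos : 0 < Real.arcosh (1 + (2 * Real.cosh R + 1) / b ^ 2) := by
    refine lt_of_le_of_ne (Real.arcosh_nonneg hx) (fun h => ?_)
    have h6 := Real.cosh_arcosh hx
    rw [← h, Real.cosh_zero] at h6
    have : 0 < (2 * Real.cosh R + 1) / b ^ 2 := by positivity
    linarith
  have h6 := key _ hLpos
  rw [Real.cosh_arcosh hx] at h6
  have h7 : b ^ 2 * (1 + (2 * Real.cosh R + 1) / b ^ 2 - 1) = 2 * Real.cosh R + 1 := by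
    field_simp
    ring
  linarith

/-! ### The exotic embedding -/

theorem nsq_append {n k : ℕ} (x : Fin n → K) (y : Fin k → K) :
    nsq (Fin.append x y) = nsq x + nsq y := by
  unfold nsq
  rw [Fin.sum_univ_add]
  simp

theorem herm_append {n k : ℕ} (x x' : Fin n → K) (y y' : Fin k → K) :
    herm (Fin.append x y) (Fin.append x' y') = herm x x' + herm y y' := by
  unfold herm
  rw [Fin.sum_univ_add]
  simp

/-- The vector `(b,0,...,0)` with `b` real. -/
def tailv (k : ℕ) (b : ℝ) : Fin (k + 1) → K := fun j => if j = 0 then b • (1 : K) else 0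

theorem nsq_tailv (k : ℕ) (b : ℝ) : nsq (tailv (K := K) k b) = b ^ 2 := by
  unfold nsq tailv
  rw [Finset.sum_eq_single 0]
  · simp [norm_smul]
  · intro j _ hj
    simp [hj]
  · simp

theorem herm_tailv (k : ℕ) (b b' : ℝ) :
    herm (tailv (K := K) k b) (tailv k b') = (b * b') • (1 : K) := by
  unfold herm tailv
  rw [Finset.sum_eq_single 0]
  · simp [star_smul_K, smul_smul, mul_comm]
  · intro j _ hj
    simp [hj]
  · simp

/-- `φ(x) = (1/2) max (Re x_1) 0`. -/
def phi {n : ℕ} (i0 : Fin n) (x : Fin n → K) : ℝ := (1 / 2) * max (re (x i0)) 0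

theorem phi_nonneg {n : ℕ} (i0 : Fin n) (x : Fin n → K) : 0 ≤ phi i0 x := by
  unfold phi
  positivity

theorem phi_le {n : ℕ} (i0 : Fin n) (x : Fin n → K) (hx : nsq x ≤ 1) : phi i0 x ≤ 1 / 2 := by
  have h1 : ‖x i0‖ ≤ 1 := by
    have := (norm_coord_le x i0).trans hx
    nlinarith [norm_nonneg (x i0)]
  have h2 := (abs_le.1 (abs_re_le (x i0))).2
  have : max (re (x i0)) 0 ≤ 1 := max_le (h2.trans h1) zero_le_one
  unfold phi
  linarith

theorem phi_lip {n : ℕ} (i0 : Fin n) (x y : Fin n → K) (hx : nsq x ≤ 1) (hy : nsq y ≤ 1) :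
    (phi i0 x - phi i0 y) ^ 2 ≤ (1 / 2) * ‖1 - herm x y‖ := by
  have h1 : |max (re (x i0)) 0 - max (re (y i0)) 0| ≤ ‖x i0 - y i0‖ := by
    refine (abs_max_sub_max_le_abs _ _ _).trans ?_
    rw [← re_sub]
    exact abs_re_le _
  have h2 : (max (re (x i0)) 0 - max (re (y i0)) 0) ^ 2 ≤ ‖x i0 - y i0‖ ^ 2 := by
    rw [← sq_abs]; gcongr
  have h3 : ‖x i0 - y i0‖ ^ 2 ≤ nsq (fun i => x i - y i) :=
    norm_coord_le (fun i => x i - y i) i0
  have h4 : nsq (fun i => x i - y i) ≤ 2 * re (1 - herm x y) := by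
    rw [nsq_sub, re_sub, re_one']
    linarith
  have h5 : re (1 - herm x y) ≤ ‖1 - herm x y‖ := (abs_le.1 (abs_re_le _)).2
  have h6 : (phi i0 x - phi i0 y) ^ 2 =
      (1 / 4) * (max (re (x i0)) 0 - max (re (y i0)) 0) ^ 2 := by unfold phi; ring
  rw [h6]
  linarith

theorem coef_bounds {b b' : ℝ} (hb : 0 ≤ b) (hb1 : b ≤ 1 / 2) (hb' : 0 ≤ b') (hb1' : b' ≤ 1 / 2) :
    0 ≤ 1 - √(1 - b ^ 2) * √(1 - b' ^ 2) - b * b' ∧
    1 - √(1 - b ^ 2) * √(1 - b' ^ 2) - b * b' ≤ (b - b') ^ 2 ∧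
    3 / 4 ≤ √(1 - b ^ 2) * √(1 - b' ^ 2) := by
  have hA : √(1 - b ^ 2) ^ 2 = 1 - b ^ 2 := Real.sq_sqrt (by nlinarith)
  have hA' : √(1 - b' ^ 2) ^ 2 = 1 - b' ^ 2 := Real.sq_sqrt (by nlinarith)
  have h0 : 0 ≤ √(1 - b ^ 2) := Real.sqrt_nonneg _
  have h0' : 0 ≤ √(1 - b' ^ 2) := Real.sqrt_nonneg _
  set a := √(1 - b ^ 2)
  set a' := √(1 - b' ^ 2)
  have hP : 3 / 4 ≤ a * a' := by
    have : (3 / 4 : ℝ) ^ 2 ≤ (a * a') ^ 2 := by
      rw [mul_pow, hA, hA']
      nlinarith [mul_nonneg (show (0:ℝ) ≤ 1 / 4 - b ^ 2 by nlinarith)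
        (show (0:ℝ) ≤ 1 / 4 - b' ^ 2 by nlinarith)]
    exact (pow_le_pow_iff_left₀ (by norm_num) (by positivity) two_ne_zero).1 this
  have hS : 3 * (a - a') ^ 2 ≤ (b - b') ^ 2 := by
    have h1 : (a - a') ^ 2 * (a + a') ^ 2 = (b - b') ^ 2 * (b + b') ^ 2 := by
      have : (a - a') * (a + a') = -((b - b') * (b + b')) := by ring_nf; nlinarith
      rw [← mul_pow, ← mul_pow, this]; ring
    have h2 : 3 ≤ (a + a') ^ 2 := by nlinarith
    have h3 : (b + b') ^ 2 ≤ 1 := by nlinarith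
    nlinarith [sq_nonneg (a - a'), sq_nonneg (b - b')]
  refine ⟨?_, ?_, hP⟩
  · nlinarith [sq_nonneg (a - a'), sq_nonneg (b - b')]
  · nlinarith [sq_nonneg (a - a'), sq_nonneg (b - b')]

/-- The vector `(√(1 - φ(x)²) x, φ(x), 0, ..., 0)`. -/
def gvec {n : ℕ} (k : ℕ) (i0 : Fin n) (x : Fin n → K) : Fin (n + (k + 1)) → K :=
  Fin.append (fun i => √(1 - phi i0 x ^ 2) • x i) (tailv k (phi i0 x))

theorem one_sub_nsq_gvec {n : ℕ} (k : ℕ) (i0 : Fin n) (x : Fin n → K) (hx : nsq x ≤ 1) :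
    1 - nsq (gvec k i0 x) = √(1 - phi i0 x ^ 2) ^ 2 * (1 - nsq x) := by
  have h1 := phi_nonneg i0 x
  have h2 := phi_le i0 x hx
  unfold gvec
  rw [nsq_append, nsq_tailv, nsq_smul, Real.sq_sqrt (by nlinarith)]
  ring

theorem one_sub_herm_gvec {n : ℕ} (k : ℕ) (i0 : Fin n) (x y : Fin n → K) :
    1 - herm (gvec k i0 x) (gvec k i0 y) =
      (1 - √(1 - phi i0 x ^ 2) * √(1 - phi i0 y ^ 2) - phi i0 x * phi i0 y) • (1 : K) +
        (√(1 - phi i0 x ^ 2) * √(1 - phi i0 y ^ 2)) • (1 - herm x y) := by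
  unfold gvec
  rw [herm_append, herm_tailv, herm_smul_left, herm_smul_right, smul_smul, smul_sub, sub_smul,
    sub_smul, one_smul]
  abel

theorem sqrt_phi_pos {n : ℕ} (i0 : Fin n) (x : Fin n → K) (hx : nsq x ≤ 1) :
    0 < √(1 - phi i0 x ^ 2) := by
  have h1 := phi_nonneg i0 x
  have h2 := phi_le i0 x hx
  exact Real.sqrt_pos.2 (by nlinarith)

/-- The exotic embedding `KH^n → KH^{n+k+1}`,
`x ↦ (√(1 - φ(x)²) x, φ(x), 0, ..., 0)`. -/
def gmap {n : ℕ} (k : ℕ) (i0 : Fin n) (x : HBall K n) : HBall K (n + (k + 1)) :=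
  ⟨gvec k i0 x.1, by
    have h := one_sub_nsq_gvec k i0 x.1 x.2.le
    have h1 := sqrt_phi_pos i0 x.1 x.2.le
    have h2 := x.2
    have h3 : 0 < √(1 - phi i0 x.1 ^ 2) ^ 2 * (1 - nsq x.1) := by
      apply mul_pos (by positivity)
      linarith
    linarith⟩

theorem sigma_gmap {n : ℕ} (k : ℕ) (i0 : Fin n) (x : HBall K n) :
    √(1 - nsq (gmap k i0 x).1) = √(1 - phi i0 x.1 ^ 2) * √(1 - nsq x.1) := by
  change √(1 - nsq (gvec k i0 x.1)) = _
  rw [one_sub_nsq_gvec k i0 x.1 x.2.le, Real.sqrt_mul (sq_nonneg _),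
    Real.sqrt_sq (Real.sqrt_nonneg _)]

theorem cosh_gmap {n : ℕ} (k : ℕ) (i0 : Fin n) (x y : HBall K n) :
    Real.cosh (hdist x y) ≤ Real.cosh (hdist (gmap k i0 x) (gmap k i0 y)) ∧
    Real.cosh (hdist (gmap k i0 x) (gmap k i0 y)) ≤ 2 * Real.cosh (hdist x y) := by
  have hx := x.2.le
  have hy := y.2.le
  obtain ⟨c0, c1, c2⟩ := coef_bounds (phi_nonneg i0 x.1) (phi_le i0 x.1 hx)
    (phi_nonneg i0 y.1) (phi_le i0 y.1 hy)
  have hl := phi_lip i0 x.1 y.1 hx hy
  have hA := sqrt_phi_pos i0 x.1 hx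
  have hB := sqrt_phi_pos i0 y.1 hy
  have hσ := sigma_pos x
  have hσ' := sigma_pos y
  have hN : 0 ≤ ‖1 - herm x.1 y.1‖ := norm_nonneg _
  have hre : 0 ≤ re (1 - herm x.1 y.1) := by
    have h1 := nsq_sub x.1 y.1
    have h2 := nsq_nonneg (fun i => x.1 i - y.1 i)
    rw [re_sub, re_one']
    linarith
  rw [cosh_hdist, cosh_hdist, sigma_gmap, sigma_gmap]
  change _ ≤ ‖1 - herm (gvec k i0 x.1) (gvec k i0 y.1)‖ / _ ∧
    ‖1 - herm (gvec k i0 x.1) (gvec k i0 y.1)‖ / _ ≤ _
  rw [one_sub_herm_gvec]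
  set A := √(1 - phi i0 x.1 ^ 2)
  set B := √(1 - phi i0 y.1 ^ 2)
  set σ := √(1 - nsq x.1)
  set σ' := √(1 - nsq y.1)
  set c := 1 - A * B - phi i0 x.1 * phi i0 y.1
  set w := 1 - herm x.1 y.1
  have hAB : 0 < A * B := mul_pos hA hB
  have hlow : A * B * ‖w‖ ≤ ‖c • (1 : K) + (A * B) • w‖ := by
    have h : (A * B * ‖w‖) ^ 2 ≤ ‖c • (1 : K) + (A * B) • w‖ ^ 2 := by
      rw [norm_real_add, norm_smul, Real.norm_of_nonneg hAB.le, re_smul]
      have : 0 ≤ 2 * c * (A * B * re w) := by positivity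
      nlinarith [sq_nonneg c]
    exact (pow_le_pow_iff_left₀ (by positivity) (norm_nonneg _) two_ne_zero).1 h
  have hupp : ‖c • (1 : K) + (A * B) • w‖ ≤ c + A * B * ‖w‖ := by
    refine (norm_add_le _ _).trans ?_
    rw [norm_smul, norm_smul, norm_one, mul_one, Real.norm_of_nonneg hAB.le,
      Real.norm_of_nonneg c0]
  have hupp2 : ‖c • (1 : K) + (A * B) • w‖ ≤ 2 * (A * B * ‖w‖) := by nlinarith
  constructor
  · rw [div_le_div_iff₀ (by positivity) (by positivity)]
    calc ‖w‖ * (A * σ * (B * σ')) = (A * B * ‖w‖) * (σ * σ') := by ring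
      _ ≤ _ := by gcongr
  · rw [← mul_div_assoc, div_le_div_iff₀ (by positivity) (by positivity)]
    calc ‖c • (1 : K) + (A * B) • w‖ * (σ * σ') ≤ (2 * (A * B * ‖w‖)) * (σ * σ') := by gcongr
      _ = _ := by ring

theorem gmap_qi {n : ℕ} (k : ℕ) (i0 : Fin n) : IsQIEmbedding (gmap (K := K) k i0) := by
  refine ⟨1, Real.log 4, le_refl _, Real.log_nonneg (by norm_num), fun x y => ?_⟩
  obtain ⟨h1, h2⟩ := cosh_gmap k i0 x y
  have h3 := le_of_cosh_le (hdist_nonneg _ _) (hdist_nonneg _ _) h1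
  have hl : 0 ≤ Real.log 4 := Real.log_nonneg (by norm_num)
  constructor
  · rw [inv_one, one_mul]
    linarith
  · rw [one_mul]
    have h4 : Real.exp (hdist (gmap k i0 x) (gmap k i0 y)) ≤
        Real.exp (hdist x y + Real.log 4) := by
      rw [Real.exp_add, Real.exp_log (by norm_num)]
      have e1 := Real.cosh_eq (hdist (gmap k i0 x) (gmap k i0 y))
      have e2 := Real.cosh_eq (hdist x y)
      have e3 := Real.exp_pos (-(hdist (gmap k i0 x) (gmap k i0 y)))
      have e4 : Real.exp (-(hdist x y)) ≤ Real.exp (hdist x y) :=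
        Real.exp_le_exp.2 (by linarith [hdist_nonneg x y])
      linarith
    exact Real.exp_le_exp.1 h4

/-! ### The test sequences -/

/-- The vector `q e_1`. -/
def unitv {n : ℕ} (i0 : Fin n) (q : K) : Fin n → K := fun i => if i = i0 then q else 0

theorem nsq_unitv {n : ℕ} (i0 : Fin n) (q : K) : nsq (unitv i0 q) = ‖q‖ ^ 2 := by
  unfold nsq unitv
  rw [Finset.sum_eq_single i0]
  · simp
  · intro j _ hj
    simp [hj]
  · simp

/-- `r_k = 1 - 1/(k+2)`. -/
def rk (k : ℕ) : ℝ := 1 - 1 / ((k : ℝ) + 2)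

theorem rk_pos (k : ℕ) : 0 < rk k := by
  unfold rk
  have h : 1 / ((k : ℝ) + 2) < 1 := by
    rw [div_lt_one (by positivity)]
    have : (0 : ℝ) ≤ k := Nat.cast_nonneg k
    linarith
  linarith

theorem rk_lt_one (k : ℕ) : rk k < 1 := by
  unfold rk
  have : 0 < 1 / ((k : ℝ) + 2) := by positivity
  linarith

theorem rk_tendsto : Tendsto rk atTop (𝓝 1) := by
  have h1 : Tendsto (fun k : ℕ => 1 / ((k : ℝ) + 2)) atTop (𝓝 0) := by
    have := tendsto_one_div_add_atTop_nhds_zero_nat (𝕜 := ℝ)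
    have h2 := (tendsto_add_atTop_iff_nat 1).2 this
    refine h2.congr ?_
    intro k
    push_cast
    ring_nf
  have := (tendsto_const_nhds (x := (1 : ℝ))).sub h1
  rw [sub_zero] at this
  exact this

/-- The point `r_k q e_1`. -/
def seqp {n : ℕ} (i0 : Fin n) (q : K) (hq : ‖q‖ = 1) (k : ℕ) : HBall K n :=
  ⟨unitv i0 (rk k • q), by
    rw [nsq_unitv, norm_smul, hq, mul_one, Real.norm_of_nonneg (rk_pos k).le]
    nlinarith [rk_pos k, rk_lt_one k]⟩

theorem nsq_gmap_seqp {n : ℕ} (k : ℕ) (i0 : Fin n) (q : K) (hq : ‖q‖ = 1) :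
    Tendsto (fun l => nsq (gmap k i0 (seqp i0 q hq l)).1) atTop (𝓝 1) := by
  have h1 : Tendsto (fun l => rk l ^ 2) atTop (𝓝 1) := by
    have := rk_tendsto.pow 2
    rwa [one_pow] at this
  refine tendsto_of_tendsto_of_tendsto_of_le_of_le h1 tendsto_const_nhds (fun l => ?_)
    (fun l => (gmap k i0 (seqp i0 q hq l)).2.le)
  have h2 := one_sub_nsq_gvec k i0 (seqp i0 q hq l).1 (seqp i0 q hq l).2.le
  have h3 : nsq (seqp i0 q hq l).1 = rk l ^ 2 := by
    change nsq (unitv i0 (rk l • q)) = _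
    rw [nsq_unitv, norm_smul, hq, mul_one, Real.norm_eq_abs, sq_abs]
  have h4 : √(1 - phi i0 (seqp i0 q hq l).1 ^ 2) ^ 2 ≤ 1 := by
    have h5 := phi_nonneg i0 (seqp i0 q hq l).1
    have h6 := phi_le i0 (seqp i0 q hq l).1 (seqp i0 q hq l).2.le
    rw [Real.sq_sqrt (by nlinarith)]
    nlinarith
  change rk l ^ 2 ≤ nsq (gvec k i0 (seqp i0 q hq l).1)
  rw [h3] at h2
  have h7 : 0 ≤ 1 - rk l ^ 2 := by nlinarith [rk_pos l, rk_lt_one l]
  have h8 := mul_le_mul_of_nonneg_right h4 h7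
  linarith

theorem gmap_exotic {n : ℕ} (k : ℕ) (i0 : Fin n) : IsExotic (gmap (K := K) k i0) := by
  have nI : ‖(HypField.im : K)‖ = 1 := HypField.norm_im
  have nI' : ‖-(HypField.im : K)‖ = 1 := by rw [norm_neg, nI]
  have n1 : ‖(1 : K)‖ = 1 := norm_one
  have rI : re (HypField.im : K) = 0 := HypField.re_im
  refine exotic_core (gmap k i0) (seqp i0 HypField.im nI) (seqp i0 (-HypField.im) nI')
    (seqp i0 1 n1) (Fin.natAdd n 0) (1 / 2) (by norm_num) ?_ (nsq_gmap_seqp k i0 _ nI)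
    (nsq_gmap_seqp k i0 _ nI') (nsq_gmap_seqp k i0 _ n1) ?_ ?_
  · refine tendsto_const_nhds.congr (fun l => ?_)
    have hφ : ∀ s : ℝ, phi i0 (unitv i0 (rk l • (s • (HypField.im : K)))) = 0 := by
      intro s
      unfold phi unitv
      simp [re, HypField.re_im]
    have e1 : (gmap k i0 (seqp i0 (HypField.im : K) nI l)).1 =
        gvec k i0 (unitv i0 (rk l • ((1 : ℝ) • (HypField.im : K)))) := by rw [one_smul]; rfl
    have e2 : (gmap k i0 (seqp i0 (-(HypField.im : K)) nI' l)).1 =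
        gvec k i0 (unitv i0 (rk l • ((-1 : ℝ) • (HypField.im : K)))) := by
      rw [neg_smul, one_smul]; rfl
    rw [e1, e2]
    unfold gvec
    rw [hφ, hφ]
    unfold nsq
    symm
    apply Finset.sum_eq_zero
    intro i _
    rw [Fin.append]
    refine Fin.addCases (fun j => ?_) (fun j => ?_) i
    · simp [unitv]
      by_cases hj : j = i0 <;> simp [hj]
    · simp [tailv]
  · have h1 : Tendsto (fun l => (1 / 2 : ℝ) * rk l) atTop (𝓝 (1 / 2)) := by
      have := rk_tendsto.const_mul (1 / 2 : ℝ)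
      rwa [mul_one] at this
    refine h1.congr (fun l => ?_)
    change _ = re (gvec k i0 (unitv i0 (rk l • (1 : K))) (Fin.natAdd n 0))
    unfold gvec
    rw [Fin.append_right]
    unfold tailv phi unitv
    simp [re_one', (rk_pos l).le]
  · intro x
    change 0 ≤ re (gvec k i0 x.1 (Fin.natAdd n 0))
    unfold gvec
    rw [Fin.append_right]
    unfold tailv
    simp [re_one', phi_nonneg]

/-- Sanity check: the standard totally geodesic copy gives an isometric embedding
`KH^n → KH^{n+k+1}`, so that the notion of exotic embedding is not vacuous. -/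
theorem standard_isometric (n k : ℕ) :
    ∃ g : HBall K n → HBall K (n + (k + 1)), IsIsometricEmbedding g := by
  have h0 : ∀ x : Fin n → K, nsq (Fin.append x (tailv (K := K) k 0)) = nsq x := by
    intro x
    rw [nsq_append, nsq_tailv]
    ring
  refine ⟨fun x => ⟨Fin.append x.1 (tailv k 0), by rw [h0]; exact x.2⟩, fun x y => ?_⟩
  unfold hdist
  simp only
  rw [h0, h0, herm_append, herm_tailv]
  simp

/-- For `K = ℂ` or `ℍ`, all `n ≥ 1` and all `m > n` there is an exotic quasi-isometric embedding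
of `KH^n` into `KH^m`. -/
theorem exists_exotic (K : Type) [NormedDivisionRing K] [StarRing K] [NormedAlgebra ℝ K]
    [HypField K] (n m : ℕ) (hn : 1 ≤ n) (hnm : n < m) :
    ∃ f : HBall K n → HBall K m, IsQIEmbedding f ∧ IsExotic f := by
  obtain ⟨k, rfl⟩ := Nat.exists_eq_add_of_lt hnm
  exact ⟨gmap k ⟨0, by omega⟩, gmap_qi _ _, gmap_exotic _ _⟩

end Basic

end Pool.Agent.Helper190.KHyp
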