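import Pool.Agent.Helper190.RTAct

set_option autoImplicit false

namespace Pool.Agent.Helper190.RT

variable {Z : Type*}

open Pointwise
lemma arith_delta (θ : ℝ) (hθ : Irrational θ) (s : Finset ℤ) :
    ∃ δ : ℝ, 0 < δ ∧ ∀ x ∈ s, x ≠ 0 → ∀ y : ℤ, δ ≤ |(y : ℝ) - θ * x| := by
  induction s using Finset.induction_on with
  | empty => exact ⟨1, one_pos, by simp⟩
  | insert a s ha ih =>
    obtain ⟨δ, hδ, h⟩ := ih
    by_cases ha0 : a = 0
    · refine ⟨δ, hδ, ?_⟩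
      intro x hx hx0 y
      rcases Finset.mem_insert.1 hx with rfl | hx
      · exact absurd ha0 hx0
      · exact h x hx hx0 y
    · have hir : Irrational (θ * a) := hθ.mul_intCast ha0
      have hpos : 0 < |θ * a - round (θ * a)| := by
        rw [abs_pos, sub_ne_zero]
        exact hir.ne_int _
      refine ⟨min δ |θ * a - round (θ * a)|, lt_min hδ hpos, ?_⟩
      intro x hx hx0 y
      rcases Finset.mem_insert.1 hx with rfl | hx
      · refine (min_le_right _ _).trans ?_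
        rw [abs_sub_comm (y : ℝ)]
        exact round_le _ y
      · exact (min_le_left _ _).trans (h x hx hx0 y)

lemma pv_le (p : ℕ) [Fact p.Prime] (k : ℕ) (hk : 1 ≤ k) : padicValNat p k ≤ k := by
  have h1 : p ^ padicValNat p k ∣ k := pow_padicValNat_dvd
  have h2 := Nat.le_of_dvd hk h1
  have h3 : padicValNat p k < p ^ padicValNat p k :=
    Nat.lt_pow_self (Fact.out : p.Prime).one_lt
  omega

lemma two_three_le (k : ℕ) (hk : 1 ≤ k) : 2 ^ padicValNat 2 k * 3 ^ padicValNat 3 k ≤ k := by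
  apply Nat.le_of_dvd hk
  apply Nat.Coprime.mul_dvd_of_dvd_of_dvd
  · exact Nat.Coprime.pow _ _ (by norm_num)
  · exact pow_padicValNat_dvd
  · exact pow_padicValNat_dvd

lemma vals (I : ℕ) (hI : 1 ≤ I) (r : ℝ) (hr : 0 < r) (n a : ℤ) (l b : ℕ → ℤ) (K : ℕ → ℕ)
    (hK1 : ∀ i ≤ I, 1 ≤ K i)
    (h : ∀ i ≤ I, r ^ i * ((2 : ℝ) ^ n * (3 : ℝ) ^ a) = K i * ((2 : ℝ) ^ (l i) * (3 : ℝ) ^ b i)) :
    ∃ x y : ℤ, ∀ i ≤ I, (i : ℤ) * x = padicValNat 2 (K i) + (l i - n) ∧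
      (i : ℤ) * y = padicValNat 3 (K i) + (b i - a) := by
  set q : ℚ := (K 1 : ℚ) * ((2 : ℚ) ^ (l 1 - n) * (3 : ℚ) ^ (b 1 - a)) with hq
  have h2 : (2 : ℝ) ≠ 0 := by norm_num
  have h3 : (3 : ℝ) ≠ 0 := by norm_num
  have key : ∀ i ≤ I, r ^ i = K i * ((2 : ℝ) ^ (l i - n) * (3 : ℝ) ^ (b i - a)) := by
    intro i hi
    have e := h i hi
    rw [zpow_sub₀ h2, zpow_sub₀ h3]
    have h2n : (2 : ℝ) ^ n ≠ 0 := zpow_ne_zero _ h2
    have h3n : (3 : ℝ) ^ a ≠ 0 := zpow_ne_zero _ h3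
    field_simp
    linarith [e]
  have hrq : r = (q : ℝ) := by
    have := key 1 hI
    rw [pow_one] at this
    rw [this, hq]; push_cast; ring
  have keyq : ∀ i ≤ I, q ^ i = (K i : ℚ) * ((2 : ℚ) ^ (l i - n) * (3 : ℚ) ^ (b i - a)) := by
    intro i hi
    have := key i hi
    rw [hrq] at this
    have h' : ((q ^ i : ℚ) : ℝ) = (((K i : ℚ) * ((2 : ℚ) ^ (l i - n) * (3 : ℚ) ^ (b i - a)) : ℚ) : ℝ) := by
      push_cast; exact this
    exact_mod_cast h'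
  have hq0 : q ≠ 0 := by
    intro h
    rw [h] at hrq
    simp at hrq
    exact hr.ne' hrq
  have f2 : Fact (Nat.Prime 2) := ⟨Nat.prime_two⟩
  have f3 : Fact (Nat.Prime 3) := ⟨Nat.prime_three⟩
  refine ⟨padicValRat 2 q, padicValRat 3 q, ?_⟩
  intro i hi
  have hKi : (K i : ℚ) ≠ 0 := by
    have := hK1 i hi
    exact_mod_cast (by omega : K i ≠ 0)
  have h2q : (2 : ℚ) ≠ 0 := by norm_num
  have h3q : (3 : ℚ) ≠ 0 := by norm_num
  have z2 : (2 : ℚ) ^ (l i - n) ≠ 0 := zpow_ne_zero _ h2q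
  have z3 : (3 : ℚ) ^ (b i - a) ≠ 0 := zpow_ne_zero _ h3q
  have p22 : padicValRat 2 (2 : ℚ) = 1 := by
    have := padicValRat.self (p := 2) (by norm_num)
    simpa using this
  have p33 : padicValRat 3 (3 : ℚ) = 1 := by
    have := padicValRat.self (p := 3) (by norm_num)
    simpa using this
  have p23 : padicValRat 2 (3 : ℚ) = 0 := by
    have : padicValRat 2 ((3 : ℕ) : ℚ) = 0 := by
      rw [padicValRat.of_nat]
      have : padicValNat 2 3 = 0 := padicValNat.eq_zero_of_not_dvd (by norm_num)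
      rw [this]; rfl
    simpa using this
  have p32 : padicValRat 3 (2 : ℚ) = 0 := by
    have : padicValRat 3 ((2 : ℕ) : ℚ) = 0 := by
      rw [padicValRat.of_nat]
      have : padicValNat 3 2 = 0 := padicValNat.eq_zero_of_not_dvd (by norm_num)
      rw [this]; rfl
    simpa using this
  constructor
  · have e := congrArg (padicValRat 2) (keyq i hi)
    rw [padicValRat.pow, padicValRat.mul hKi (mul_ne_zero z2 z3),
      padicValRat.mul z2 z3, padicValRat.zpow, padicValRat.zpow, p22, p23, padicValRat.of_nat] at e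
    rw [e]; ring
  · have e := congrArg (padicValRat 3) (keyq i hi)
    rw [padicValRat.pow, padicValRat.mul hKi (mul_ne_zero z2 z3),
      padicValRat.mul z2 z3, padicValRat.zpow, padicValRat.zpow, p33, p32, padicValRat.of_nat] at e
    rw [e]; ring

lemma vals' (I : ℕ) (hI : 1 ≤ I) (r : ℝ) (hr : 0 < r) (n a : ℤ) (l b : ℕ → ℤ) (K : ℕ → ℕ)
    (hK1 : ∀ i ≤ I, 1 ≤ K i)
    (h : ∀ i ≤ I, r ^ i * ((2 : ℝ) ^ n * (3 : ℝ) ^ a) = K i * ((2 : ℝ) ^ (l i) * (3 : ℝ) ^ b i)) :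
    ∃ x y : ℤ, ∀ i ≤ I, ∃ u v : ℕ, u ≤ K i ∧ v ≤ K i ∧ 2 ^ u * 3 ^ v ≤ K i ∧
      (i : ℤ) * x = u + (l i - n) ∧ (i : ℤ) * y = v + (b i - a) := by
  obtain ⟨x, y, hxy⟩ := vals I hI r hr n a l b K hK1 h
  have f2 : Fact (Nat.Prime 2) := ⟨Nat.prime_two⟩
  have f3 : Fact (Nat.Prime 3) := ⟨Nat.prime_three⟩
  exact ⟨x, y, fun i hi => ⟨padicValNat 2 (K i), padicValNat 3 (K i), pv_le 2 _ (hK1 i hi),
    pv_le 3 _ (hK1 i hi), two_three_le _ (hK1 i hi), (hxy i hi).1, (hxy i hi).2⟩⟩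

theorem arith_false (θ : ℝ) (hθ : Irrational θ) (h0 : 0 < θ) (κ : ℕ) (X : ℤ)
    (h : ∀ I : ℕ, ∃ (r : ℝ) (n : ℤ) (l : ℕ → ℤ) (K : ℕ → ℕ), 0 < r ∧ r ≤ 1 / 2 ∧ |l 1 - n| ≤ X ∧
      ∀ i ≤ I, 1 ≤ K i ∧ K i ≤ κ ∧
        r ^ i * ((2 : ℝ) ^ n * (3 : ℝ) ^ ⌊(n : ℝ) * θ⌋)
          = K i * ((2 : ℝ) ^ (l i) * (3 : ℝ) ^ ⌊(l i : ℝ) * θ⌋)) : False := by
  obtain ⟨δ, hδ, hδ'⟩ := arith_delta θ hθ (Finset.Icc (-(X + κ)) (X + κ))
  obtain ⟨I, hI⟩ := exists_nat_gt (max ((κ + θ * κ + 1) / δ) (max (κ + θ * κ + 1) 1))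
  have hI1 : (κ + θ * κ + 1) / δ < I := lt_of_le_of_lt (le_max_left _ _) hI
  have hI2 : (κ + θ * κ + 1) < I := lt_of_le_of_lt ((le_max_left _ _).trans (le_max_right _ _)) hI
  have hI3 : (1 : ℝ) < I := lt_of_le_of_lt ((le_max_right _ _).trans (le_max_right _ _)) hI
  have hI4 : 1 ≤ I := by exact_mod_cast hI3.le
  obtain ⟨r, n, l, K, hr0, hr1, hX, hK⟩ := h I
  obtain ⟨x, y, hxy⟩ := vals' I hI4 r hr0 n ⌊(n : ℝ) * θ⌋ l (fun i => ⌊(l i : ℝ) * θ⌋) K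
    (fun i hi => (hK i hi).1) (fun i hi => (hK i hi).2.2)
  obtain ⟨u1, v1, hu1, hv1, hd1, e1x, e1y⟩ := hxy 1 hI4
  obtain ⟨u, v, hu, hv, hd, ex, ey⟩ := hxy I le_rfl
  have hK1 := (hK 1 hI4).2.1
  have hKI := (hK I le_rfl).2.1
  have hx1 : |x| ≤ X + κ := by
    rw [abs_le] at hX ⊢
    push_cast at e1x
    have : (u1 : ℤ) ≤ κ := by omega
    have : (0 : ℤ) ≤ u1 := by omega
    constructor <;> linarith [hX.1, hX.2]
  have hmain : (I : ℝ) * |(y : ℝ) - θ * x| ≤ κ + θ * κ + 1 := by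
    have e2 : (I : ℝ) * x = (u : ℝ) + ((l I : ℝ) - n) := by exact_mod_cast ex
    have e3 : (I : ℝ) * y = (v : ℝ) + ((⌊(l I : ℝ) * θ⌋ : ℝ) - (⌊(n : ℝ) * θ⌋ : ℝ)) := by
      exact_mod_cast ey
    have a2 : (u : ℝ) ≤ κ := by exact_mod_cast hu.trans hKI
    have a3 : (v : ℝ) ≤ κ := by exact_mod_cast hv.trans hKI
    have b2 : (0 : ℝ) ≤ u := Nat.cast_nonneg _
    have b3 : (0 : ℝ) ≤ v := Nat.cast_nonneg _
    have c1 := Int.floor_le ((l I : ℝ) * θ)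
    have c2 := Int.lt_floor_add_one ((l I : ℝ) * θ)
    have c3 := Int.floor_le ((n : ℝ) * θ)
    have c4 := Int.lt_floor_add_one ((n : ℝ) * θ)
    have m2 : θ * (u : ℝ) ≤ θ * κ := mul_le_mul_of_nonneg_left a2 h0.le
    have m3 : 0 ≤ θ * (u : ℝ) := mul_nonneg h0.le b2
    have hI0 : (0 : ℝ) ≤ I := Nat.cast_nonneg _
    have e : (I : ℝ) * |(y : ℝ) - θ * x| = |(I : ℝ) * y - θ * (I * x)| := by
      rw [show (I : ℝ) * y - θ * (I * x) = I * (y - θ * x) by ring, abs_mul, abs_of_nonneg hI0]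
    have hκ : (0 : ℝ) ≤ κ := Nat.cast_nonneg _
    have m4 : 0 ≤ θ * κ := mul_nonneg h0.le hκ
    rw [e, e2, e3, abs_le]
    constructor <;> nlinarith
  by_cases hx0 : x = 0
  · subst hx0
    have hy0 : y = 0 := by
      by_contra hy
      have h1 : (1 : ℝ) ≤ |(y : ℝ)| := by exact_mod_cast Int.one_le_abs hy
      have : (I : ℝ) * |(y : ℝ) - θ * ((0 : ℤ) : ℝ)| = I * |(y : ℝ)| := by simp
      rw [this] at hmain
      nlinarith
    subst hy0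
    simp only [mul_zero] at e1x e1y
    have e := (hK 1 hI4).2.2
    have g2 : l 1 = n - u1 := by linarith
    have g3 : ⌊(l 1 : ℝ) * θ⌋ = ⌊(n : ℝ) * θ⌋ - v1 := by linarith
    rw [g3, g2] at e
    have hle : ((2 ^ u1 * 3 ^ v1 : ℕ) : ℝ) ≤ K 1 := by
      exact_mod_cast hd1
    rw [zpow_sub₀ (by norm_num), zpow_sub₀ (by norm_num), zpow_natCast, zpow_natCast, pow_one] at e
    generalize ⌊(n : ℝ) * θ⌋ = a at e
    have P2 : (0 : ℝ) < (2 : ℝ) ^ n := by positivity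
    have P3 : (0 : ℝ) < (3 : ℝ) ^ a := by positivity
    have Q2 : (0 : ℝ) < (2 : ℝ) ^ u1 := by positivity
    have Q3 : (0 : ℝ) < (3 : ℝ) ^ v1 := by positivity
    push_cast at hle
    have e' : r * ((2 : ℝ) ^ u1 * 3 ^ v1) = K 1 := by
      field_simp at e
      linarith
    have : (2 : ℝ) ^ u1 * 3 ^ v1 > 0 := by positivity
    nlinarith
  · have h1 := hδ' x (by rw [Finset.mem_Icc]; exact abs_le.1 hx1) hx0 y
    rw [div_lt_iff₀ hδ] at hI1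
    have hI0 : (0 : ℝ) ≤ I := Nat.cast_nonneg _
    have := mul_le_mul_of_nonneg_left h1 hI0
    linarith

end Pool.Agent.Helper190.RT

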