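import Pool.Agent.Helper190.RTMu

set_option autoImplicit false

namespace Pool.Agent.Helper190.RT

variable {Z : Type*}

open Pointwise
section aux923
open Classical

lemma a923_M_pos (t : ℤ → ℤ) (n : ℤ) : 0 < M t n := by
  unfold M; positivity

lemma a923_t (t : ℤ → ℤ) (ht1 : ∀ n, t (n + 1) ≤ t n + 1) (n : ℤ) (k : ℕ) :
    t (n + k) ≤ t n + k := by
  induction k with
  | zero => simp
  | succ k ih =>
    have h := ht1 (n + k)
    have e : n + ((k + 1 : ℕ) : ℤ) = n + k + 1 := by push_cast; ring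
    rw [e]; push_cast; linarith

lemma a923_fin (S : Scale Z) (t : ℤ → ℤ) (hc : S.Count t) (z : Z) (m n : ℤ) :
    ((Quotient.mk (S.st m)) '' (S.ball z n)).Finite := by
  have key : ∀ n', m ≤ n' → ((Quotient.mk (S.st m)) '' (S.ball z n')).Finite := by
    intro n' hn
    apply Set.finite_of_ncard_ne_zero
    have h := hc z m n' hn
    unfold Scale.num at h
    rw [h]; positivity
  rcases le_total m n with h | h
  · exact key n h
  · refine (key m le_rfl).subset (Set.image_mono ?_)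
    intro x hx
    exact S.mono n m h _ _ hx

lemma a923_finA (S : Scale Z) (t : ℤ → ℤ) (hc : S.Count t) (m : ℤ) (A : Set Z) (hb : S.Bdd A) :
    ((Quotient.mk (S.st m)) '' A).Finite := by
  obtain ⟨z, n, h⟩ := hb
  exact (a923_fin S t hc z m n).subset (Set.image_mono h)

lemma a923_repr (S : Scale Z) (t : ℤ → ℤ) (hc : S.Count t) (m : ℤ) (A : Set Z) (hs : S.Sat m A)
    (hb : S.Bdd A) : ∃ F : Finset Z, F.card = S.num m A ∧ (∀ a ∈ F, a ∈ A) ∧
      (∀ a ∈ F, ∀ b ∈ F, S.r m a b → a = b) ∧ (∀ x ∈ A, ∃ a ∈ F, S.r m a x) := by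
  have hf := a923_finA S t hc m A hb
  have hout : ∀ x, S.r m (Quotient.mk (S.st m) x).out x := fun x => Quotient.mk_out (s := S.st m) x
  refine ⟨hf.toFinset.image Quotient.out, ?_, ?_, ?_, ?_⟩
  · rw [Finset.card_image_of_injective _ Quotient.out_injective]
    unfold Scale.num
    rw [Set.ncard_eq_toFinset_card _ hf]
  · intro a ha
    rw [Finset.mem_image] at ha
    obtain ⟨q, hq, rfl⟩ := ha
    rw [Set.Finite.mem_toFinset] at hq
    obtain ⟨x, hx, rfl⟩ := hq
    exact hs x _ hx (S.symm _ _ _ (hout x))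
  · intro a ha b hb' hab
    rw [Finset.mem_image] at ha hb'
    obtain ⟨q, hq, rfl⟩ := ha
    obtain ⟨q', hq', rfl⟩ := hb'
    have : q = q' := by
      rw [← Quotient.out_eq q, ← Quotient.out_eq q']
      exact Quotient.sound hab
    rw [this]
  · intro x hx
    refine ⟨(Quotient.mk (S.st m) x).out, ?_, hout x⟩
    rw [Finset.mem_image]
    refine ⟨_, ?_, rfl⟩
    rw [Set.Finite.mem_toFinset]
    exact ⟨x, hx, rfl⟩

lemma a923_sat_ball (S : Scale Z) (z : Z) (m n : ℤ) (h : m ≤ n) : S.Sat m (S.ball z n) := by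
  intro x y hx hxy
  exact S.trans n _ _ _ hx (S.mono m n h _ _ hxy)

variable {G : Type*} [Group G] [MulAction G Z] {lam : G → ℤ → ℤ} {D : ℤ}

lemma a923_sat (S : Scale Z) (hA : Act S lam D) (g : G) (A : Set Z) (m : ℤ) (h : S.Sat m A) :
    S.Sat (lam g m - D) (g • A) := by
  intro x y hx hxy
  rw [Set.mem_smul_set_iff_inv_smul_mem] at hx ⊢
  have h1 : S.r m (g⁻¹ • x) (g⁻¹ • y) := by
    apply hA.low g
    simpa using hxy
  exact h _ _ hx h1

lemma a923_sub1 (S : Scale Z) (hA : Act S lam D) (g : G) (z : Z) (n : ℤ) :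
    S.ball (g • z) (lam g n - D) ⊆ g • S.ball z n := by
  intro y hy
  rw [Set.mem_smul_set_iff_inv_smul_mem]
  have h1 : S.r n z (g⁻¹ • y) := by
    apply hA.low g
    rw [smul_inv_smul]
    exact hy
  exact h1

lemma a923_sub2 (S : Scale Z) (hA : Act S lam D) (g : G) (z : Z) (n : ℤ) :
    g • S.ball z n ⊆ S.ball (g • z) (lam g n + D) := by
  intro y hy
  rw [Set.mem_smul_set_iff_inv_smul_mem] at hy
  have h1 := hA.up g n _ _ hy
  rw [smul_inv_smul] at h1
  exact h1

lemma a923_bdd (S : Scale Z) (hA : Act S lam D) (g : G) (A : Set Z) (h : S.Bdd A) :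
    S.Bdd (g • A) := by
  obtain ⟨z, n, h⟩ := h
  exact ⟨g • z, lam g n + D, (Set.smul_set_mono h).trans (a923_sub2 S hA g z n)⟩

lemma a923_clo (S : Scale Z) (hA : Act S lam D) (g : G) (A : Set Z) (h : S.Clo A) :
    S.Clo (g • A) := by
  obtain ⟨⟨m, hm⟩, hb⟩ := h
  exact ⟨⟨_, a923_sat S hA g A m hm⟩, a923_bdd S hA g A hb⟩

lemma a923_ballK (S : Scale Z) (t : ℤ → ℤ) (ht : Monotone t) (ht1 : ∀ n, t (n + 1) ≤ t n + 1)
    (hc : S.Count t) (hA : Act S lam D) (μ : Set Z → ℝ) (hμ : IsMu S t μ) (g : G) (z : Z) (n : ℤ) :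
    ∃ K : ℕ, 1 ≤ K ∧ K ≤ 6 ^ (2 * D).toNat ∧
        μ (g • S.ball z n) = K * M t (lam g n - D) := by
  have hD := hA.hD
  have hb : S.Bdd (g • S.ball z n) := a923_bdd S hA g _ ⟨z, n, subset_rfl⟩
  have hs : S.Sat (lam g n - D) (g • S.ball z n) :=
    a923_sat S hA g _ n (a923_sat_ball S z n n le_rfl)
  have hf := a923_finA S t hc (lam g n - D) _ hb
  refine ⟨S.num (lam g n - D) (g • S.ball z n), ?_, ?_, hμ.2.2 _ _ hs hb⟩
  · unfold Scale.num
    rw [Nat.one_le_iff_ne_zero, Ne, Set.ncard_eq_zero hf, Set.image_eq_empty]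
    intro h
    have : g • z ∈ g • S.ball z n := Set.smul_mem_smul_set (S.refl n z)
    rw [h] at this
    exact this
  · have h1 : S.num (lam g n - D) (g • S.ball z n) ≤
        S.num (lam g n - D) (S.ball (g • z) (lam g n + D)) := by
      unfold Scale.num
      exact Set.ncard_le_ncard (Set.image_mono (a923_sub2 S hA g z n)) (a923_fin S t hc _ _ _)
    refine h1.trans ?_
    rw [hc _ _ _ (by linarith)]
    have h2 : (lam g n + D - (lam g n - D)).toNat = (2 * D).toNat := by congr 1; ring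
    rw [h2]
    have h3 : (t (lam g n + D) - t (lam g n - D)).toNat ≤ (2 * D).toNat := by
      have h4 := a923_t t ht1 (lam g n - D) (2 * D).toNat
      have h5 : (((2 * D).toNat : ℕ) : ℤ) = 2 * D := Int.toNat_of_nonneg (by linarith)
      rw [h5] at h4
      have h6 : lam g n - D + 2 * D = lam g n + D := by ring
      rw [h6] at h4
      apply Int.toNat_le_toNat
      linarith
    calc 2 ^ (2 * D).toNat * 3 ^ (t (lam g n + D) - t (lam g n - D)).toNat
        ≤ 2 ^ (2 * D).toNat * 3 ^ (2 * D).toNat :=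
          Nat.mul_le_mul_left _ (Nat.pow_le_pow_right (by norm_num) h3)
      _ = 6 ^ (2 * D).toNat := by rw [← Nat.mul_pow]

/-- additivity over a finite family of balls -/
lemma a923_sum (S : Scale Z) (t : ℤ → ℤ) (hA : Act S lam D) (μ : Set Z → ℝ) (hμ : IsMu S t μ)
    (g : G) (m : ℤ) (z0 : Z) (n0 : ℤ) (F : Finset Z) (hF : ∀ a ∈ F, S.r n0 z0 a)
    (hd : ∀ a ∈ F, ∀ b ∈ F, S.r m a b → a = b) :
    μ (g • {x | ∃ a ∈ F, S.r m a x}) = ∑ a ∈ F, μ (g • S.ball a m) := by
  induction F using Finset.induction_on with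
  | empty =>
    have e : {x : Z | ∃ a ∈ (∅ : Finset Z), S.r m a x} = ∅ := by
      ext x; simp
    rw [e, Set.smul_set_empty, Finset.sum_empty]
    have h := hμ.2.2 ∅ m (fun x y hx _ => absurd hx (Set.notMem_empty x)) ⟨z0, n0, Set.empty_subset _⟩
    rw [h]
    simp [Scale.num]
  | insert a F ha ih =>
    have ih' := ih (fun b hb => hF b (Finset.mem_insert_of_mem hb))
      (fun b hb c hc' => hd b (Finset.mem_insert_of_mem hb) c (Finset.mem_insert_of_mem hc'))
    have e : {x : Z | ∃ b ∈ insert a F, S.r m b x} = S.ball a m ∪ {x | ∃ b ∈ F, S.r m b x} := by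
      ext x
      simp only [Finset.mem_insert, Set.mem_setOf_eq, Set.mem_union, Scale.ball]
      constructor
      · rintro ⟨b, rfl | hb, h⟩
        · exact Or.inl h
        · exact Or.inr ⟨b, hb, h⟩
      · rintro (h | ⟨b, hb, h⟩)
        · exact ⟨a, Or.inl rfl, h⟩
        · exact ⟨b, Or.inr hb, h⟩
    have hclo1 : S.Clo (S.ball a m) := ⟨⟨m, a923_sat_ball S a m m le_rfl⟩, ⟨a, m, subset_rfl⟩⟩
    have hclo2 : S.Clo {x | ∃ b ∈ F, S.r m b x} := by
      refine ⟨⟨m, ?_⟩, z0, max n0 m, ?_⟩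
      · rintro x y ⟨b, hb, h⟩ hxy
        exact ⟨b, hb, S.trans m _ _ _ h hxy⟩
      · rintro x ⟨b, hb, h⟩
        exact S.trans _ _ _ _ (S.mono _ _ (le_max_left _ _) _ _ (hF b (Finset.mem_insert_of_mem hb)))
          (S.mono _ _ (le_max_right _ _) _ _ h)
    have hdis : Disjoint (g • S.ball a m) (g • {x | ∃ b ∈ F, S.r m b x}) := by
      rw [Set.disjoint_left]
      intro x hx hx'
      rw [Set.mem_smul_set_iff_inv_smul_mem] at hx hx'
      obtain ⟨b, hb, h⟩ := hx'
      have h2 : S.r m a b := S.trans m _ _ _ hx (S.symm _ _ _ h)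
      have h3 := hd a (Finset.mem_insert_self _ _) b (Finset.mem_insert_of_mem hb) h2
      subst h3
      exact ha hb
    rw [e, Set.smul_set_union, hμ.2.1 _ _ (a923_clo S hA g _ hclo1) (a923_clo S hA g _ hclo2) hdis,
      ih', Finset.sum_insert ha]

/-- decomposition of a closed set -/
lemma a923_dec (S : Scale Z) (t : ℤ → ℤ) (hc : S.Count t) (hA : Act S lam D) (μ : Set Z → ℝ)
    (hμ : IsMu S t μ) (g : G) (m : ℤ) (A : Set Z) (hs : S.Sat m A) (hb : S.Bdd A) :
    ∃ F : Finset Z, (A.Nonempty → F.Nonempty) ∧ μ A = F.card * M t m ∧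
      μ (g • A) = ∑ a ∈ F, μ (g • S.ball a m) := by
  obtain ⟨F, h1, h2, h3, h4⟩ := a923_repr S t hc m A hs hb
  obtain ⟨z0, n0, h0⟩ := id hb
  refine ⟨F, ?_, ?_, ?_⟩
  · rintro ⟨x, hx⟩
    obtain ⟨a, ha, _⟩ := h4 x hx
    exact ⟨a, ha⟩
  · rw [hμ.2.2 A m hs hb, h1]
  · have e : A = {x | ∃ a ∈ F, S.r m a x} := by
      ext x
      constructor
      · intro hx
        exact h4 x hx
      · rintro ⟨a, ha, h⟩
        exact hs a x (h2 a ha) h
    conv_lhs => rw [e]
    exact a923_sum S t hA μ hμ g m z0 n0 F (fun a ha => h0 (h2 a ha)) h3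

end aux923

/-- facts on translates of balls -/
theorem act_basic (S : Scale Z) (t : ℤ → ℤ) (ht : Monotone t) (ht1 : ∀ n, t (n + 1) ≤ t n + 1)
    (hc : S.Count t) {G : Type*} [Group G] [MulAction G Z] (lam : G → ℤ → ℤ) (D : ℤ)
    (hA : Act S lam D) (μ : Set Z → ℝ) (hμ : IsMu S t μ) :
    (∀ (g : G) A, S.Clo A → S.Clo (g • A)) ∧
    (∀ (g : G) A m, S.Sat m A → S.Sat (lam g m - D) (g • A)) ∧
    (∀ (g : G) z n, S.ball (g • z) (lam g n - D) ⊆ g • S.ball z n ∧
        g • S.ball z n ⊆ S.ball (g • z) (lam g n + D)) ∧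
    (∀ (g : G) z n, ∃ K : ℕ, 1 ≤ K ∧ K ≤ 6 ^ (2 * D).toNat ∧
        μ (g • S.ball z n) = K * M t (lam g n - D)) ∧
    (∀ (g : G) z n z' n', μ (g • S.ball z n) / M t n
        ≤ 6 ^ (2 * D).toNat * (μ (g • S.ball z' n') / M t n')) ∧
    (∀ (g : G) A z n, S.Clo A → A.Nonempty → μ (g • A) / μ A
        ≤ 6 ^ (2 * D).toNat * (μ (g • S.ball z n) / M t n) ∧
      μ (g • S.ball z n) / M t n ≤ 6 ^ (2 * D).toNat * (μ (g • A) / μ A)) := by
  classical
  have hK := a923_ballK S t ht ht1 hc hA μ hμ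
  have hk0 : (0 : ℝ) < 6 ^ (2 * D).toNat := by positivity
  -- same level
  have same : ∀ (g : G) z z' n, μ (g • S.ball z n) ≤ 6 ^ (2 * D).toNat * μ (g • S.ball z' n) := by
    intro g z z' n
    obtain ⟨K, _, h2, h3⟩ := hK g z n
    obtain ⟨K', h1', _, h3'⟩ := hK g z' n
    rw [h3, h3']
    have hM := a923_M_pos t (lam g n - D)
    have a1 : (K : ℝ) ≤ 6 ^ (2 * D).toNat := by exact_mod_cast h2
    have a2 : (1 : ℝ) ≤ K' := by exact_mod_cast h1'
    calc (K : ℝ) * M t (lam g n - D) ≤ 6 ^ (2 * D).toNat * M t (lam g n - D) := by gcongr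
      _ = 6 ^ (2 * D).toNat * (1 * M t (lam g n - D)) := by ring
      _ ≤ 6 ^ (2 * D).toNat * (K' * M t (lam g n - D)) := by gcongr
  have H5 : ∀ (g : G) z n z' n', μ (g • S.ball z n) / M t n
        ≤ 6 ^ (2 * D).toNat * (μ (g • S.ball z' n') / M t n') := by
    intro g z n z' n'
    have hMn := a923_M_pos t n
    have hMn' := a923_M_pos t n'
    rcases le_total n' n with h | h
    · obtain ⟨F, hne, hc1, hc2⟩ := a923_dec S t hc hA μ hμ g n' (S.ball z n)
        (a923_sat_ball S z n' n h) ⟨z, n, subset_rfl⟩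
      rw [hμ.1] at hc1
      have b1 : μ (g • S.ball z n) ≤ F.card * (6 ^ (2 * D).toNat * μ (g • S.ball z' n')) := by
        rw [hc2, ← nsmul_eq_mul]
        exact Finset.sum_le_card_nsmul _ _ _ (fun a _ => same g a z' n')
      rw [div_le_iff₀ hMn]
      refine b1.trans (le_of_eq ?_)
      rw [hc1]
      field_simp
    · obtain ⟨F, hne, hc1, hc2⟩ := a923_dec S t hc hA μ hμ g n (S.ball z' n')
        (a923_sat_ball S z' n n' h) ⟨z', n', subset_rfl⟩
      rw [hμ.1] at hc1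
      have hFn : F.Nonempty := hne ⟨z', S.refl _ _⟩
      have hFc : (0 : ℝ) < F.card := by exact_mod_cast hFn.card_pos
      have b1 : F.card * μ (g • S.ball z n) ≤ 6 ^ (2 * D).toNat * μ (g • S.ball z' n') := by
        rw [hc2, Finset.mul_sum, ← nsmul_eq_mul]
        exact Finset.card_nsmul_le_sum _ _ _ (fun a _ => same g z a n)
      rw [hc1, ← mul_div_assoc, div_le_div_iff₀ hMn (by positivity)]
      nlinarith [b1, hMn]
  refine ⟨a923_clo S hA, a923_sat S hA, fun g z n => ⟨a923_sub1 S hA g z n, a923_sub2 S hA g z n⟩,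
    hK, H5, ?_⟩
  intro g A z n hclo hne
  obtain ⟨⟨m, hs⟩, hb⟩ := hclo
  obtain ⟨F, hFne, hc1, hc2⟩ := a923_dec S t hc hA μ hμ g m A hs hb
  have hFn := hFne hne
  have hFc : (0 : ℝ) < F.card := by exact_mod_cast hFn.card_pos
  have hMn := a923_M_pos t n
  have hMm := a923_M_pos t m
  constructor
  · rw [hc1, div_le_iff₀ (by positivity)]
    have b1 : μ (g • A) ≤ F.card * (6 ^ (2 * D).toNat * (μ (g • S.ball z n) / M t n) * M t m) := by
      rw [hc2, ← nsmul_eq_mul]
      refine Finset.sum_le_card_nsmul _ _ _ (fun a _ => ?_)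
      have := H5 g a m z n
      rwa [div_le_iff₀ hMm] at this
    refine b1.trans (le_of_eq ?_)
    ring
  · rw [hc1]
    have b1 : F.card * (μ (g • S.ball z n) / M t n) ≤ 6 ^ (2 * D).toNat * (μ (g • A) / M t m) := by
      rw [hc2, Finset.sum_div, Finset.mul_sum, ← nsmul_eq_mul]
      exact Finset.card_nsmul_le_sum _ _ _ (fun a _ => H5 g z n a m)
    have e : 6 ^ (2 * D).toNat * (μ (g • A) / (F.card * M t m)) =
        (6 ^ (2 * D).toNat * (μ (g • A) / M t m)) / F.card := by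
      field_simp
    rw [e, le_div_iff₀ hFc]
    linarith

end Pool.Agent.Helper190.RT

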