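import Mathlib

/-! Definitions for MP_d1d9c5: a roughly transitive graph not roughly isometric to a homogeneous
metric space. -/

set_option autoImplicit false

namespace Pool.Agent.Helper190.RT

/-- An increasing family of equivalence relations on `Z`, indexed by the integers (`x` and `y` are
within distance scale `n`). -/
structure Scale (Z : Type*) where
  r : ℤ → Z → Z → Prop
  refl : ∀ n x, r n x x
  symm : ∀ n x y, r n x y → r n y x
  trans : ∀ n x y z, r n x y → r n y z → r n x z
  mono : ∀ m n, m ≤ n → ∀ x y, r m x y → r n x y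
  exh : ∀ x y, ∃ n, r n x y

variable {Z : Type*}

/-- the setoid of scale `n` -/
def Scale.st (S : Scale Z) (n : ℤ) : Setoid Z where
  r := S.r n
  iseqv := ⟨S.refl n, fun {x y} h => S.symm n x y h, fun {x y z} h h' => S.trans n x y z h h'⟩

/-- the ball of level `n` around `z` -/
def Scale.ball (S : Scale Z) (z : Z) (n : ℤ) : Set Z := {x | S.r n z x}

/-- number of classes of level `m` meeting `A` -/
noncomputable def Scale.num (S : Scale Z) (m : ℤ) (A : Set Z) : ℕ :=
  ((Quotient.mk (S.st m)) '' A).ncard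

/-- `A` is a union of classes of level `m` -/
def Scale.Sat (S : Scale Z) (m : ℤ) (A : Set Z) : Prop := ∀ x y, x ∈ A → S.r m x y → y ∈ A

/-- `A` is contained in a ball -/
def Scale.Bdd (S : Scale Z) (A : Set Z) : Prop := ∃ z n, A ⊆ S.ball z n

/-- `A` is a bounded union of classes of some level -/
def Scale.Clo (S : Scale Z) (A : Set Z) : Prop := (∃ m, S.Sat m A) ∧ S.Bdd A

/-- every class of level `n` consists of `2 ^ (n - m) * 3 ^ (t n - t m)` classes of level `m ≤ n` -/
def Scale.Count (S : Scale Z) (t : ℤ → ℤ) : Prop :=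
  ∀ z m n, m ≤ n → S.num m (S.ball z n) = 2 ^ (n - m).toNat * 3 ^ (t n - t m).toNat

/-- measure of a ball of level `n` -/
noncomputable def M (t : ℤ → ℤ) (n : ℤ) : ℝ := (2 : ℝ) ^ n * (3 : ℝ) ^ (t n)

/-- integer sequences with values in `ℕ` vanishing far to the left -/
def W : Type := {w : ℤ → ℕ // ∃ N : ℤ, ∀ h < N, w h = 0}

/-- agreement up to index `n` -/
def agree (n : ℤ) (w w' : W) : Prop := ∀ h ≤ n, w.1 h = w'.1 h

/-- the points of the horocyclic product -/
@[ext] structure Pt (Z : Type*) where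
  lv : ℤ
  z : Z
  w : W

/-- coarse distance at most `r` -/
def near (S : Scale Z) (r : ℤ) (x y : Pt Z) : Prop :=
  ∃ H L : ℤ, L ≤ x.lv ∧ L ≤ y.lv ∧ x.lv ≤ H ∧ y.lv ≤ H ∧ S.r H x.z y.z ∧ agree L x.w y.w ∧ H - L ≤ r

/-- the graph -/
def graph (S : Scale Z) : SimpleGraph (Pt Z) where
  Adj x y := x ≠ y ∧ near S 1 x y
  symm := ⟨by
    rintro x y ⟨h, H, L, h1, h2, h3, h4, h5, h6, h7⟩
    exact ⟨h.symm, H, L, h2, h1, h4, h3, S.symm _ _ _ h5, fun k hk => (h6 k hk).symm, h7⟩⟩
  loopless := ⟨fun x h => h.1 rfl⟩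

/-- coarse quasi-isometry condition with constant `A` -/
def QI (S : Scale Z) (A : ℤ) (F : Pt Z → Pt Z) : Prop :=
  (∀ x y r, near S r x y → near S (A * r + A) (F x) (F y)) ∧
  (∀ x y r, near S r (F x) (F y) → near S (A * r + A) x y)

/-- finitely many classes of level `m` in a ball -/
def Scale.FinCls (S : Scale Z) : Prop := ∀ z m n, ((Quotient.mk (S.st m)) '' (S.ball z n)).Finite

/-- every ball of level `n` meets at least two classes of level `n - 1` -/
def Scale.Split (S : Scale Z) : Prop := ∀ z n, ∃ z', S.r n z z' ∧ ¬ S.r (n - 1) z z'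

end Pool.Agent.Helper190.RT
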