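import Pool.Agent.Helper190.RTBasic

set_option autoImplicit false

namespace Pool.Agent.Helper190.RT

variable {Z : Type*}

open Pointwise
theorem M_pos_e (t : ℤ → ℤ) (n : ℤ) : 0 < M t n := by
  unfold M; positivity

theorem M_half_e (t : ℤ → ℤ) (ht : Monotone t) (n : ℤ) (j : ℕ) : (2 : ℝ) ^ j * M t (n - j) ≤ M t n := by
  unfold M
  have h1 : (2 : ℝ) ^ j * ((2 : ℝ) ^ (n - j) * (3 : ℝ) ^ (t (n - j))) = (2 : ℝ) ^ n * (3 : ℝ) ^ (t (n - j)) := by
    rw [← mul_assoc, ← zpow_natCast (2 : ℝ) j, ← zpow_add₀ (by norm_num)]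
    congr 2; ring
  rw [h1]
  have h2 : (3 : ℝ) ^ (t (n - j)) ≤ (3 : ℝ) ^ (t n) := zpow_le_zpow_right₀ (by norm_num) (ht (by omega))
  have h3 : (0 : ℝ) < (2 : ℝ) ^ n := by positivity
  exact mul_le_mul_of_nonneg_left h2 h3.le

theorem t_step_e (t : ℤ → ℤ) (ht1 : ∀ n, t (n + 1) ≤ t n + 1) (n : ℤ) (j : ℕ) : t n ≤ t (n - j) + j := by
  induction j with
  | zero => simp
  | succ j ih =>
    have h := ht1 (n - (j + 1 : ℕ))
    have e : n - ((j + 1 : ℕ) : ℤ) + 1 = n - j := by push_cast; ring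
    rw [e] at h
    push_cast at h ⊢
    linarith

theorem M_six_e (t : ℤ → ℤ) (ht1 : ∀ n, t (n + 1) ≤ t n + 1) (n : ℤ) (j : ℕ) : M t n ≤ (6 : ℝ) ^ j * M t (n - j) := by
  unfold M
  have h6 : (6 : ℝ) ^ j = (2 : ℝ) ^ j * (3 : ℝ) ^ j := by rw [← mul_pow]; norm_num
  have h1 : (6 : ℝ) ^ j * ((2 : ℝ) ^ (n - j) * (3 : ℝ) ^ (t (n - j))) = (2 : ℝ) ^ n * (3 : ℝ) ^ (t (n - j) + j) := by
    rw [h6]
    have a1 : (2 : ℝ) ^ n = (2 : ℝ) ^ j * (2 : ℝ) ^ (n - j) := by
      rw [← zpow_natCast (2 : ℝ) j, ← zpow_add₀ (by norm_num)]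
      congr 1; ring
    have a2 : (3 : ℝ) ^ (t (n - j) + j) = (3 : ℝ) ^ (t (n - j)) * (3 : ℝ) ^ j := by
      rw [zpow_add₀ (by norm_num), zpow_natCast]
    rw [a1, a2]; ring
  rw [h1]
  have h2 : (3 : ℝ) ^ (t n) ≤ (3 : ℝ) ^ (t (n - j) + j) := zpow_le_zpow_right₀ (by norm_num) (t_step_e t ht1 n j)
  have h3 : (0 : ℝ) < (2 : ℝ) ^ n := by positivity
  exact mul_le_mul_of_nonneg_left h2 h3.le

theorem M_mono_e (t : ℤ → ℤ) (ht : Monotone t) : Monotone (M t) := by
  intro a b hab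
  obtain ⟨j, hj⟩ := Int.eq_ofNat_of_zero_le (sub_nonneg.2 hab)
  have h := M_half_e t ht b j
  have e : b - (j : ℤ) = a := by rw [← hj]; ring
  rw [e] at h
  have h1 : (1 : ℝ) ≤ 2 ^ j := one_le_pow₀ (by norm_num)
  have h2 := M_pos_e t a
  nlinarith

section basics
variable (S : Scale Z)

theorem sat_mono_e {m n : ℤ} (h : m ≤ n) {A : Set Z} (hA : S.Sat n A) : S.Sat m A :=
  fun x y hx hr => hA x y hx (S.mono m n h x y hr)

theorem sat_ball_e (z : Z) (n : ℤ) : S.Sat n (S.ball z n) :=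
  fun x y hx hr => S.trans n z x y hx hr

theorem mem_ball_self_e (z : Z) (n : ℤ) : z ∈ S.ball z n := S.refl n z

theorem ball_mono_e {z : Z} {m n : ℤ} (h : m ≤ n) : S.ball z m ⊆ S.ball z n :=
  fun x hx => S.mono m n h z x hx

theorem ball_eq_e {z z' : Z} {n : ℤ} (h : S.r n z z') : S.ball z n ⊆ S.ball z' n :=
  fun x hx => S.trans n z' z x (S.symm n z z' h) hx

theorem clo_ball_e (z : Z) (n : ℤ) : S.Clo (S.ball z n) := ⟨⟨n, sat_ball_e S z n⟩, z, n, subset_rfl⟩

theorem bdd_mono_e {A B : Set Z} (h : A ⊆ B) (hB : S.Bdd B) : S.Bdd A := by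
  obtain ⟨z, n, h1⟩ := hB
  exact ⟨z, n, h.trans h1⟩

theorem fin_cls_e {t : ℤ → ℤ} (hc : S.Count t) {X : Set Z} (hX : S.Bdd X) (m : ℤ) :
    ((Quotient.mk (S.st m)) '' X).Finite := by
  obtain ⟨z, n, h⟩ := hX
  have h1 : X ⊆ S.ball z (max n m) := h.trans (ball_mono_e S (le_max_left _ _))
  have h2 := hc z m (max n m) (le_max_right _ _)
  have h3 : ((Quotient.mk (S.st m)) '' (S.ball z (max n m))).Finite := by
    apply Set.finite_of_ncard_pos
    unfold Scale.num at h2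
    rw [h2]; positivity
  exact h3.subset (Set.image_mono h1)

theorem decomp_e {m : ℤ} {X : Set Z} (hX : S.Sat m X)
    (hfin : ((Quotient.mk (S.st m)) '' X).Finite) :
    ∃ F : Finset Z, (∀ x ∈ F, x ∈ X) ∧ X = (⋃ x ∈ F, S.ball x m) ∧
      (∀ x ∈ F, ∀ y ∈ F, S.r m x y → x = y) ∧ F.card = S.num m X := by
  classical
  have hout : ∀ q ∈ hfin.toFinset, ∃ y ∈ X, Quotient.mk (S.st m) y = q ∧ S.r m q.out y := by
    intro q hq
    rw [Set.Finite.mem_toFinset] at hq
    obtain ⟨y, hy, rfl⟩ := hq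
    exact ⟨y, hy, rfl, Quotient.mk_out (s := S.st m) y⟩
  refine ⟨hfin.toFinset.image Quotient.out, ?_, ?_, ?_, ?_⟩
  · intro x hx
    rw [Finset.mem_image] at hx
    obtain ⟨q, hq, rfl⟩ := hx
    obtain ⟨y, hy, _, hr⟩ := hout q hq
    exact hX y _ hy (S.symm _ _ _ hr)
  · ext y
    simp only [Finset.mem_image, Set.mem_iUnion, exists_prop]
    constructor
    · intro hy
      refine ⟨_, ⟨Quotient.mk (S.st m) y, ?_, rfl⟩, ?_⟩
      · rw [Set.Finite.mem_toFinset]; exact ⟨y, hy, rfl⟩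
      · exact Quotient.mk_out (s := S.st m) y
    · rintro ⟨x, ⟨q, hq, rfl⟩, hy⟩
      obtain ⟨y', hy', _, hr⟩ := hout q hq
      exact hX _ _ hy' (S.trans _ _ _ _ (S.symm _ _ _ hr) hy)
  · intro x hx y hy hr
    rw [Finset.mem_image] at hx hy
    obtain ⟨q, hq, rfl⟩ := hx
    obtain ⟨q', hq', rfl⟩ := hy
    have : Quotient.mk (S.st m) q.out = Quotient.mk (S.st m) q'.out := Quotient.sound hr
    rw [Quotient.out_eq, Quotient.out_eq] at this
    rw [this]
  · rw [Finset.card_image_of_injective _ Quotient.out_injective]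
    unfold Scale.num
    rw [Set.ncard_eq_toFinset_card _ hfin]

theorem sum_add_e {m : ℤ} (ν : Set Z → ℝ) (h0 : ν ∅ = 0)
    (hν : ∀ A B, S.Clo A → S.Clo B → Disjoint A B → ν (A ∪ B) = ν A + ν B) (F : Finset Z)
    (hF : ∀ x ∈ F, ∀ y ∈ F, S.r m x y → x = y) (hb : S.Bdd (⋃ x ∈ F, S.ball x m)) :
    ν (⋃ x ∈ F, S.ball x m) = ∑ x ∈ F, ν (S.ball x m) := by
  classical
  induction F using Finset.induction_on with
  | empty => simp [h0]
  | insert a F ha ih =>
    rw [Finset.set_biUnion_insert] at hb ⊢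
    rw [Finset.sum_insert ha, hν _ _ (clo_ball_e S a m) ?_ ?_, ih ?_ ?_]
    · intro x hx y hy; exact hF x (Finset.mem_insert_of_mem hx) y (Finset.mem_insert_of_mem hy)
    · exact bdd_mono_e S Set.subset_union_right hb
    · refine ⟨⟨m, ?_⟩, bdd_mono_e S Set.subset_union_right hb⟩
      intro x y hx hr
      simp only [Set.mem_iUnion, exists_prop] at hx ⊢
      obtain ⟨i, hi, hx⟩ := hx
      exact ⟨i, hi, S.trans _ _ _ _ hx hr⟩
    · rw [Set.disjoint_left]
      intro x hx hx'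
      simp only [Set.mem_iUnion, exists_prop] at hx'
      obtain ⟨i, hi, hx'⟩ := hx'
      have : a = i := hF a (Finset.mem_insert_self _ _) i (Finset.mem_insert_of_mem hi)
        (S.trans _ _ _ _ hx (S.symm _ _ _ hx'))
      rw [this] at ha
      exact ha hi

end basics

/-- a contracting element which scales the measure exactly along many iterates -/
theorem exists_linear (S : Scale Z) (t : ℤ → ℤ) (ht : Monotone t) (ht1 : ∀ n, t (n + 1) ≤ t n + 1)
    (hc : S.Count t) {G : Type*} [Group G] [MulAction G Z] (lam : G → ℤ → ℤ) (D : ℤ)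
    (hA : Act S lam D) (μ : Set Z → ℝ) (hμ : IsMu S t μ) (z₀ : Z)
    (Δ : G → ℝ) (hΔ : ∀ g, 0 < Δ g) (hmul : ∀ g h, Δ (g * h) = Δ g * Δ h) (c : ℝ) (hc1 : 1 ≤ c)
    (hcomp : ∀ (g : G) z n, μ (g • S.ball z n) ≤ c * (Δ g * M t n) ∧
      Δ g * M t n ≤ c * μ (g • S.ball z n)) :
    ∀ I : ℕ, ∃ (k : G) (z : Z) (n : ℤ) (r : ℝ), 0 < r ∧ r ≤ 1 / 2 ∧ |lam k n - n| ≤ 3 * D + 1 ∧
      ∀ i ≤ I, μ ((k ^ i) • S.ball z n) = r ^ i * M t n := by
  intro I
  obtain ⟨b1, b2, b3, b4, -, -⟩ := act_basic S t ht ht1 hc lam D hA μ hμ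
  obtain ⟨m1, m2, m3⟩ := hμ
  have hD := hA.hD
  have hMp := M_pos_e t
  have hc0 : 0 < c := by linarith
  -- basic facts on the measure
  have hempty : μ ∅ = 0 := by
    rw [m3 ∅ 0 (fun x y hx => absurd hx (Set.notMem_empty x)) ⟨z₀, 0, Set.empty_subset _⟩]
    simp [Scale.num]
  have hmono : ∀ A B, S.Clo A → S.Clo B → A ⊆ B → μ A ≤ μ B := by
    rintro A B ⟨⟨a, hAa⟩, hAb⟩ ⟨⟨b, hBb⟩, hBB⟩ hAB
    rw [m3 A (min a b) (sat_mono_e S (min_le_left _ _) hAa) hAb,
      m3 B (min a b) (sat_mono_e S (min_le_right _ _) hBb) hBB]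
    refine mul_le_mul_of_nonneg_right ?_ (hMp _).le
    unfold Scale.num
    exact_mod_cast Set.ncard_le_ncard (Set.image_mono hAB) (fin_cls_e S hc hBB _)
  have hbpos : ∀ (g : G) z n, 0 < μ (g • S.ball z n) := by
    intro g z n
    obtain ⟨K, hK1, -, hK⟩ := b4 g z n
    rw [hK]
    have : (0 : ℝ) < K := by exact_mod_cast hK1
    exact mul_pos this (hMp _)
  have hgempty : ∀ g : G, μ (g • (∅ : Set Z)) = 0 := by intro g; rw [Set.smul_set_empty, hempty]
  have hgadd : ∀ (g : G) A B, S.Clo A → S.Clo B → Disjoint A B →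
      μ (g • (A ∪ B)) = μ (g • A) + μ (g • B) := by
    intro g A B hA' hB' hAB
    rw [Set.smul_set_union]
    exact m2 _ _ (b1 g A hA') (b1 g B hB') (Set.disjoint_smul_set.2 hAB)
  -- decomposition of a saturated bounded set and its translates
  have hdec : ∀ (X : Set Z) m, S.Sat m X → S.Bdd X → ∃ F : Finset Z, (∀ x ∈ F, x ∈ X) ∧
      (F.card = S.num m X) ∧ μ X = F.card * M t m ∧
      ∀ g : G, μ (g • X) = ∑ x ∈ F, μ (g • S.ball x m) := by
    intro X m hX hb
    obtain ⟨F, h1, h2, h3, h4⟩ := decomp_e S hX (fin_cls_e S hc hb m)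
    refine ⟨F, h1, h4, by rw [m3 X m hX hb, h4], ?_⟩
    intro g
    have := sum_add_e S (fun A => μ (g • A)) (hgempty g) (hgadd g) F h3 (by rw [← h2]; exact hb)
    rw [← h2] at this
    exact this
  -- the supremum
  set T : Set ℝ := {v | ∃ (g : G) (z : Z) (n : ℤ), v = μ (g • S.ball z n) / (Δ g * M t n)} with hT
  have hTb : BddAbove T := by
    refine ⟨c, ?_⟩
    rintro v ⟨g, z, n, rfl⟩
    rw [div_le_iff₀ (mul_pos (hΔ g) (hMp n))]
    exact (hcomp g z n).1
  have hTne : T.Nonempty := ⟨_, 1, z₀, 0, rfl⟩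
  set P : ℝ := sSup T with hP
  have hPub : ∀ (g : G) z n, μ (g • S.ball z n) ≤ P * (Δ g * M t n) := by
    intro g z n
    have := le_csSup hTb (show _ ∈ T from ⟨g, z, n, rfl⟩)
    rwa [div_le_iff₀ (mul_pos (hΔ g) (hMp n))] at this
  have hPpos : 0 < P := by
    have h1 := hPub 1 z₀ 0
    have h2 := hbpos 1 z₀ 0
    have h3 := mul_pos (hΔ 1) (hMp 0)
    by_contra hcon
    push Not at hcon
    nlinarith
  have hPub2 : ∀ (g : G) (X : Set Z), S.Clo X → μ (g • X) ≤ P * (Δ g * μ X) := by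
    rintro g X ⟨⟨m, hm⟩, hb⟩
    obtain ⟨F, -, -, h1, h2⟩ := hdec X m hm hb
    rw [h2 g, h1]
    calc ∑ x ∈ F, μ (g • S.ball x m) ≤ ∑ x ∈ F, P * (Δ g * M t m) := Finset.sum_le_sum fun x _ => hPub g x m
      _ = P * (Δ g * (F.card * M t m)) := by rw [Finset.sum_const, nsmul_eq_mul]; ring
  -- constants
  obtain ⟨d, hd⟩ := Int.eq_ofNat_of_zero_le (show 0 ≤ D by omega)
  have hd' : (D : ℤ) = (d : ℤ) := hd
  set e : ℝ := 6 ^ (4 * d + 1) * c with he
  have he1 : 1 ≤ e := by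
    have : (1 : ℝ) ≤ 6 ^ (4 * d + 1) := one_le_pow₀ (by norm_num)
    nlinarith
  obtain ⟨J0, hJ0⟩ := pow_unbounded_of_one_lt (e ^ (I + 1) * c) (show (1 : ℝ) < 2 by norm_num)
  set J : ℕ := J0 + 2 * d with hJ
  set Y : ℝ := 6 ^ (2 * d) * 6 ^ J with hY
  have hY1 : 1 ≤ Y := by
    have h1 : (1 : ℝ) ≤ 6 ^ (2 * d) := one_le_pow₀ (by norm_num)
    have h2 : (1 : ℝ) ≤ 6 ^ J := one_le_pow₀ (by norm_num)
    nlinarith
  -- constancy lemma
  have hconst : ∀ (g : G) z n, P < μ (g • S.ball z n) / (Δ g * M t n) * (1 + 1 / Y) →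
      ∀ X, S.Sat (n - J) X → X ⊆ S.ball z n →
        μ (g • X) * M t n = μ (g • S.ball z n) * μ X := by
    intro g z n hg
    obtain ⟨F, -, -, hF1, hF2⟩ := hdec (S.ball z n) (n - J)
      (sat_mono_e S (by omega) (sat_ball_e S z n)) (clo_ball_e S z n).2
    rw [m1] at hF1
    choose K hK1 hK2 hK3 using fun x => b4 g x (n - J)
    have hF3 := hF2 g
    simp_rw [hK3] at hF3
    rw [← Finset.sum_mul] at hF3
    set mm := lam g (n - J) - D with hmm
    set N0 := F.card with hN0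
    set PP : ℕ := ∑ x ∈ F, K x with hPP
    have hPPc : (∑ x ∈ F, (K x : ℝ)) = (PP : ℝ) := by rw [hPP]; push_cast; rfl
    rw [hPPc] at hF3
    have hJM : 0 < M t (n - J) := hMp _
    have hN0le : (N0 : ℝ) ≤ 6 ^ J := by
      have h1 := M_six_e t ht1 n J
      rw [hF1] at h1
      exact le_of_mul_le_mul_right h1 hJM
    have hPPle : (PP : ℝ) ≤ Y := by
      have h1 : (PP : ℝ) ≤ (N0 : ℝ) * 6 ^ (2 * d) := by
        rw [← hPPc]
        calc (∑ x ∈ F, (K x : ℝ)) ≤ ∑ x ∈ F, (6 : ℝ) ^ (2 * d) := by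
              refine Finset.sum_le_sum fun x _ => ?_
              have h2 := hK2 x
              have h3 : (2 * D).toNat = 2 * d := by rw [hd]; omega
              rw [h3] at h2
              exact_mod_cast h2
          _ = (N0 : ℝ) * 6 ^ (2 * d) := by rw [Finset.sum_const, nsmul_eq_mul]
      have h2 : (0 : ℝ) < 6 ^ (2 * d) := by positivity
      rw [hY]
      nlinarith
    have hPPpos : (0 : ℝ) < PP := by
      have h1 := hbpos g z n
      rw [hF3] at h1
      exact (pos_iff_pos_of_mul_pos h1).2 (hMp _)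
    have hKN : ∀ x, K x * N0 ≤ PP := by
      intro x
      have h1 := hPub g x (n - J)
      rw [hK3 x] at h1
      have hΔg := hΔ g
      have hmp := hMp mm
      have h2 : P * (Δ g * M t n) < (PP : ℝ) * M t mm * (1 + 1 / Y) := by
        rw [hF3] at hg
        have h3 : 0 < Δ g * M t n := mul_pos hΔg (hMp n)
        rw [div_mul_eq_mul_div, lt_div_iff₀ h3] at hg
        exact hg
      have hN0pos : (0 : ℝ) < N0 := by
        have := hMp n
        rw [hF1] at this
        exact (pos_iff_pos_of_mul_pos this).2 hJM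
      have h3 : (K x : ℝ) * M t mm * N0 ≤ P * (Δ g * M t n) := by
        rw [hF1]
        calc (K x : ℝ) * M t mm * N0 ≤ (P * (Δ g * M t (n - J))) * N0 :=
              mul_le_mul_of_nonneg_right h1 hN0pos.le
          _ = P * (Δ g * (N0 * M t (n - J))) := by ring
      have h4 : ((K x : ℝ) * N0) * M t mm < ((PP : ℝ) * (1 + 1 / Y)) * M t mm := by
        calc ((K x : ℝ) * N0) * M t mm = (K x : ℝ) * M t mm * N0 := by ring
          _ < (PP : ℝ) * M t mm * (1 + 1 / Y) := h3.trans_lt h2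
          _ = _ := by ring
      have h5 : (K x : ℝ) * N0 < (PP : ℝ) * (1 + 1 / Y) := lt_of_mul_lt_mul_right h4 hmp.le
      have h6 : (PP : ℝ) * (1 + 1 / Y) ≤ PP + 1 := by
        have : (PP : ℝ) * (1 / Y) ≤ 1 := by
          rw [mul_one_div, div_le_one (by linarith)]
          exact hPPle
        linarith
      have h7 : ((K x * N0 : ℕ) : ℝ) < ((PP + 1 : ℕ) : ℝ) := by
        push_cast
        linarith
      have h8 : K x * N0 < PP + 1 := by exact_mod_cast h7
      omega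
    have hineq : ∀ X, S.Sat (n - J) X → S.Bdd X →
        μ (g • X) * M t n ≤ μ (g • S.ball z n) * μ X := by
      intro X hX hb
      obtain ⟨F', -, -, h1, h2⟩ := hdec X (n - J) hX hb
      rw [h2 g, h1, hF3, hF1]
      have h3 : ∑ x ∈ F', μ (g • S.ball x (n - J)) * N0 ≤ F'.card * ((PP : ℝ) * M t mm) := by
        rw [← nsmul_eq_mul, ← Finset.sum_const]
        refine Finset.sum_le_sum fun x _ => ?_
        rw [hK3 x]
        have h4 : ((K x * N0 : ℕ) : ℝ) ≤ (PP : ℝ) := by exact_mod_cast hKN x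
        push_cast at h4
        calc (K x : ℝ) * M t mm * N0 = (K x * N0) * M t mm := by ring
          _ ≤ PP * M t mm := mul_le_mul_of_nonneg_right h4 (hMp _).le
      rw [← Finset.sum_mul] at h3
      calc (∑ x ∈ F', μ (g • S.ball x (n - J))) * (N0 * M t (n - J))
          = ((∑ x ∈ F', μ (g • S.ball x (n - J))) * N0) * M t (n - J) := by ring
        _ ≤ (F'.card * ((PP : ℝ) * M t mm)) * M t (n - J) := mul_le_mul_of_nonneg_right h3 hJM.le
        _ = _ := by ring
    intro X hX hXA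
    have hXb : S.Bdd X := bdd_mono_e S hXA (clo_ball_e S z n).2
    have hX' : S.Sat (n - J) (S.ball z n \ X) := by
      rintro x y ⟨hx, hx'⟩ hr
      refine ⟨sat_mono_e S (by omega) (sat_ball_e S z n) x y hx hr, fun hy => hx' ?_⟩
      exact hX y x hy (S.symm _ _ _ hr)
    have hXb' : S.Bdd (S.ball z n \ X) := bdd_mono_e S Set.sdiff_subset (clo_ball_e S z n).2
    have e1 : X ∪ (S.ball z n \ X) = S.ball z n := Set.union_sdiff_cancel hXA
    have e2 : Disjoint X (S.ball z n \ X) := Set.disjoint_sdiff_right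
    have h1 := hgadd g X _ ⟨⟨_, hX⟩, hXb⟩ ⟨⟨_, hX'⟩, hXb'⟩ e2
    have h2 := m2 X _ ⟨⟨_, hX⟩, hXb⟩ ⟨⟨_, hX'⟩, hXb'⟩ e2
    rw [e1] at h1 h2
    rw [m1] at h2
    have h3 := hineq X hX hXb
    have h4 := hineq _ hX' hXb'
    have h5 : μ (g • S.ball z n) * M t n = μ (g • S.ball z n) * μ X +
        μ (g • S.ball z n) * μ (S.ball z n \ X) := by rw [h2]; ring
    have h6 : μ (g • S.ball z n) * M t n = μ (g • X) * M t n + μ (g • (S.ball z n \ X)) * M t n := by
      nth_rw 1 [h1]; ring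
    linarith
  -- the nearly extremal pair
  set θ : ℝ := 1 - 1 / Y / 4 with hθ
  have hy0 : 0 < 1 / Y := by positivity
  have hy1 : 1 / Y ≤ 1 := by rw [div_le_one (by linarith)]; exact hY1
  have hθ1 : θ < 1 := by rw [hθ]; linarith
  have hθ0 : 0 < θ := by rw [hθ]; linarith
  have hθ2 : 1 < θ * θ * (1 + 1 / Y) := by
    rw [hθ]
    nlinarith [mul_pos hy0 hy0, mul_pos (mul_pos hy0 hy0) hy0]
  have hθ3 : 1 < θ * (1 + 1 / Y) := by nlinarith
  obtain ⟨v, ⟨g, z, n, rfl⟩, hv⟩ := exists_lt_of_lt_csSup hTne (show θ * P < sSup T by rw [← hP]; nlinarith)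
  obtain ⟨k, hk1, hk2⟩ := hA.cob z z n (n - (2 * D + 1))
  rw [abs_le] at hk2
  have hkA : k • S.ball z n ⊆ S.ball z (n - 1) := by
    refine (b3 k z n).2.trans ?_
    refine (ball_mono_e S (show lam k n + D ≤ n - 1 by omega)).trans ?_
    exact ball_eq_e S (S.mono _ _ (by omega) _ _ hk1)
  have hkA' : k • S.ball z n ⊆ S.ball z n := hkA.trans (ball_mono_e S (by omega))
  have hkk : ∀ i : ℕ, (k ^ i) • S.ball z n ⊆ S.ball z n := by
    intro i
    induction i with
    | zero => simp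
    | succ i ih =>
      rw [pow_succ, mul_smul]
      exact (Set.smul_set_mono hkA').trans ih
  have hΔ1 : Δ 1 = 1 := by
    have h1 := hmul 1 1
    rw [mul_one] at h1
    have h2 := hΔ 1
    have h3 : Δ 1 * (Δ 1 - 1) = 0 := by linarith
    rcases mul_eq_zero.1 h3 with h | h
    · linarith
    · linarith
  have hΔpow : ∀ i : ℕ, Δ (k ^ i) = Δ k ^ i := by
    intro i
    induction i with
    | zero => simp [hΔ1]
    | succ i ih => rw [pow_succ, hmul, ih, pow_succ]
  have hΔk : 1 ≤ e * Δ k := by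
    have h1 := (hcomp k z n).1
    obtain ⟨K, hK1, -, hK⟩ := b4 k z n
    have hK1' : (1 : ℝ) ≤ K := by exact_mod_cast hK1
    have h2 : M t (n - (4 * d + 1 : ℕ)) ≤ M t (lam k n - D) := M_mono_e t ht (by push_cast; omega)
    have h3 := M_six_e t ht1 n (4 * d + 1)
    have h4 : M t n ≤ (e * Δ k) * M t n := by
      calc M t n ≤ 6 ^ (4 * d + 1) * M t (n - (4 * d + 1 : ℕ)) := h3
        _ ≤ 6 ^ (4 * d + 1) * μ (k • S.ball z n) := by
            refine mul_le_mul_of_nonneg_left ?_ (by positivity)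
            rw [hK]
            have := hMp (lam k n - D)
            nlinarith
        _ ≤ 6 ^ (4 * d + 1) * (c * (Δ k * M t n)) := mul_le_mul_of_nonneg_left h1 (by positivity)
        _ = _ := by rw [he]; ring
    have h5 := hMp n
    by_contra hcon
    push Not at hcon
    nlinarith
  have hsat : ∀ i ≤ I + 1, S.Sat (n - J) ((k ^ i) • S.ball z n) := by
    intro i hi
    refine sat_mono_e S ?_ (b2 (k ^ i) _ n (sat_ball_e S z n))
    by_contra hcon
    push Not at hcon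
    have h1 : lam (k ^ i) n + D ≤ n - J0 := by rw [hJ] at hcon; push_cast at hcon; omega
    have h2 : μ ((k ^ i) • S.ball z n) ≤ M t (n - J0) := by
      calc μ ((k ^ i) • S.ball z n) ≤ μ (S.ball ((k ^ i) • z) (lam (k ^ i) n + D)) :=
            hmono _ _ (b1 _ _ (clo_ball_e S z n)) (clo_ball_e S _ _) (b3 _ z n).2
        _ = M t (lam (k ^ i) n + D) := m1 _ _
        _ ≤ M t (n - J0) := M_mono_e t ht h1
    have h3 := (hcomp (k ^ i) z n).2
    rw [hΔpow] at h3
    have h4 : 1 ≤ (e * Δ k) ^ i := one_le_pow₀ hΔk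
    rw [mul_pow] at h4
    have h5 : e ^ i ≤ e ^ (I + 1) := pow_le_pow_right₀ he1 hi
    have h6 : M t n ≤ e ^ (I + 1) * c * M t (n - J0) := by
      calc M t n ≤ (e ^ i * Δ k ^ i) * M t n := le_mul_of_one_le_left (hMp n).le h4
        _ = e ^ i * (Δ k ^ i * M t n) := by ring
        _ ≤ e ^ i * (c * μ ((k ^ i) • S.ball z n)) := mul_le_mul_of_nonneg_left h3 (by positivity)
        _ ≤ e ^ i * (c * M t (n - J0)) := by
            refine mul_le_mul_of_nonneg_left ?_ (by positivity)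
            exact mul_le_mul_of_nonneg_left h2 hc0.le
        _ ≤ e ^ (I + 1) * (c * M t (n - J0)) := by
            refine mul_le_mul_of_nonneg_right h5 ?_
            exact mul_nonneg hc0.le (hMp _).le
        _ = _ := by ring
    have h7 := M_half_e t ht n J0
    have h8 := hMp (n - J0)
    nlinarith
  have hM := hMp n
  set A := S.ball z n with hAdef
  have ha0 : ∀ i, 0 < μ ((k ^ i) • A) := fun i => hbpos _ _ _
  have hΔg := hΔ g
  have hΔk0 := hΔ k
  have hq := hbpos g z n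
  rw [← hAdef] at hq
  have hv' : θ * P * (Δ g * M t n) < μ (g • A) := by
    rwa [lt_div_iff₀ (mul_pos hΔg hM)] at hv
  have hcg := hconst g z n (by
    rw [← hAdef]
    have : P < (θ * P) * (1 + 1 / Y) := by nlinarith
    refine this.trans ?_
    exact mul_lt_mul_of_pos_right hv (by linarith))
  rw [← hAdef] at hcg
  have hkA1 : μ (g • (k • A)) * M t n = μ (g • A) * μ (k • A) := by
    refine hcg _ ?_ hkA'
    have := hsat 1 (by omega)
    rwa [pow_one] at this
  have hak : 0 < μ (k • A) := by have := ha0 1; rwa [pow_one] at this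
  -- rho(k, A) ≥ θ
  have hρk : θ * (Δ k * M t n) < μ (k • A) := by
    have h1 := hPub2 (g * k⁻¹) (k • A) (b1 k A (clo_ball_e S z n))
    have e1 : (g * k⁻¹) • (k • A) = g • A := by rw [smul_smul, inv_mul_cancel_right]
    rw [e1] at h1
    have h2 : Δ (g * k⁻¹) * Δ k = Δ g := by rw [← hmul, inv_mul_cancel_right]
    have h3 : μ (g • A) * Δ k ≤ P * Δ g * μ (k • A) := by
      calc μ (g • A) * Δ k ≤ (P * (Δ (g * k⁻¹) * μ (k • A))) * Δ k := mul_le_mul_of_nonneg_right h1 hΔk0.le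
        _ = P * (Δ (g * k⁻¹) * Δ k) * μ (k • A) := by ring
        _ = _ := by rw [h2]
    have h4 : θ * P * (Δ g * M t n) * Δ k < P * Δ g * μ (k • A) :=
      (mul_lt_mul_of_pos_right hv' hΔk0).trans_le h3
    have h5 : (P * Δ g) * (θ * (Δ k * M t n)) < (P * Δ g) * μ (k • A) := by
      calc (P * Δ g) * (θ * (Δ k * M t n)) = θ * P * (Δ g * M t n) * Δ k := by ring
        _ < _ := h4
    exact lt_of_mul_lt_mul_left h5 (mul_pos hPpos hΔg).le
  have hcgk := hconst (g * k) z n (by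
    rw [← hAdef, hmul]
    have h1 : μ ((g * k) • A) = μ (g • A) * μ (k • A) / M t n := by
      rw [mul_smul, eq_div_iff hM.ne']; exact hkA1
    have h2 : μ ((g * k) • A) / (Δ g * Δ k * M t n) =
        (μ (g • A) / (Δ g * M t n)) * (μ (k • A) / (Δ k * M t n)) := by
      rw [h1]; field_simp
    rw [h2]
    have h3 : θ < μ (k • A) / (Δ k * M t n) := by
      rw [lt_div_iff₀ (mul_pos hΔk0 hM)]; exact hρk
    have h4 : (θ * P) * θ < (μ (g • A) / (Δ g * M t n)) * (μ (k • A) / (Δ k * M t n)) := by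
      have hp1 : 0 < θ * P := mul_pos hθ0 hPpos
      exact mul_lt_mul'' hv h3 hp1.le hθ0.le
    have h5 : P < (θ * P) * θ * (1 + 1 / Y) := by nlinarith
    refine h5.trans ?_
    exact mul_lt_mul_of_pos_right h4 (by linarith))
  rw [← hAdef] at hcgk
  have hstep : ∀ i ≤ I, μ ((k ^ (i + 1)) • A) = (μ (k • A) / M t n) * μ ((k ^ i) • A) := by
    intro i hi
    have h1 := hcgk _ (hsat i (by omega)) (hkk i)
    have h2 := hcg _ (hsat (i + 1) (by omega)) (hkk (i + 1))
    have e1 : (g * k) • ((k ^ i) • A) = g • ((k ^ (i + 1)) • A) := by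
      rw [pow_succ', mul_smul, mul_smul]
    rw [e1] at h1
    have h3 : μ ((g * k) • A) * M t n = μ (g • A) * μ (k • A) := by rw [mul_smul]; exact hkA1
    have h4 : μ (g • A) * μ ((k ^ (i + 1)) • A) = μ ((g * k) • A) * μ ((k ^ i) • A) := by
      rw [← h2, ← h1]
    rw [div_mul_eq_mul_div, eq_div_iff hM.ne']
    refine mul_left_cancel₀ hq.ne' ?_
    calc μ (g • A) * (μ ((k ^ (i + 1)) • A) * M t n) = (μ (g • A) * μ ((k ^ (i + 1)) • A)) * M t n := by ring
      _ = (μ ((g * k) • A) * M t n) * μ ((k ^ i) • A) := by rw [h4]; ring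
      _ = _ := by rw [h3]; ring
  refine ⟨k, z, n, μ (k • A) / M t n, div_pos hak hM, ?_, ?_, ?_⟩
  · rw [div_le_iff₀ hM]
    have h1 : μ (k • A) ≤ M t (n - 1) := by
      rw [← m1 z (n - 1)]
      exact hmono _ _ (b1 _ _ (clo_ball_e S z n)) (clo_ball_e S _ _) hkA
    have h2 := M_half_e t ht n 1
    simp only [pow_one, Nat.cast_one] at h2
    linarith
  · rw [abs_le]; constructor <;> omega
  · intro i
    induction i with
    | zero => intro _; rw [pow_zero, one_smul, pow_zero, one_mul]; exact m1 z n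
    | succ i ih =>
      intro hi
      rw [hstep i (by omega), ih (by omega), pow_succ]
      ring

end Pool.Agent.Helper190.RT
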