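import Pool.Agent.Helper190.RTBasic

set_option autoImplicit false

namespace Pool.Agent.Helper190.RT

variable {Z : Type*}

open Pointwise
theorem ball_mem_self (S : Scale Z) (z : Z) (n : ℤ) : z ∈ S.ball z n := S.refl n z

theorem ball_mono (S : Scale Z) (z : Z) {m n : ℤ} (h : m ≤ n) : S.ball z m ⊆ S.ball z n :=
  fun _ hx => S.mono m n h _ _ hx

theorem ball_sat_l (S : Scale Z) (z : Z) (n : ℤ) : S.Sat n (S.ball z n) :=
  fun x y hx hxy => S.trans n z x y hx hxy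

theorem ball_clo (S : Scale Z) (z : Z) (n : ℤ) : S.Clo (S.ball z n) :=
  ⟨⟨n, ball_sat_l S z n⟩, z, n, subset_rfl⟩

theorem sat_mono_l (S : Scale Z) {m n : ℤ} (h : m ≤ n) {A : Set Z} (hA : S.Sat n A) : S.Sat m A :=
  fun x y hx hxy => hA x y hx (S.mono m n h _ _ hxy)

theorem bdd_sub (S : Scale Z) {A B : Set Z} (h : A ⊆ B) (hB : S.Bdd B) : S.Bdd A := by
  obtain ⟨z, n, hz⟩ := hB
  exact ⟨z, n, h.trans hz⟩

theorem t_up (t : ℤ → ℤ) (ht1 : ∀ n, t (n + 1) ≤ t n + 1) (n : ℤ) (k : ℕ) :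
    t (n + k) ≤ t n + k := by
  induction k with
  | zero => simp
  | succ k ih =>
    have := ht1 (n + k)
    push_cast
    rw [← add_assoc]
    linarith

theorem M_pos_l (t : ℤ → ℤ) (n : ℤ) : 0 < M t n := by
  unfold M
  positivity

theorem M_up (t : ℤ → ℤ) (ht1 : ∀ n, t (n + 1) ≤ t n + 1) (n : ℤ) (k : ℕ) :
    M t (n + k) ≤ 6 ^ k * M t n := by
  have h1 := t_up t ht1 n k
  unfold M
  have h2 : (3 : ℝ) ^ (t (n + k)) ≤ 3 ^ (t n + k) := zpow_le_zpow_right₀ (by norm_num) h1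
  have h3 : (2 : ℝ) ^ (n + k) = 2 ^ n * 2 ^ k := by
    rw [zpow_add₀ (by norm_num), zpow_natCast]
  have h4 : (3 : ℝ) ^ (t n + k) = 3 ^ (t n) * 3 ^ k := by
    rw [zpow_add₀ (by norm_num), zpow_natCast]
  calc (2 : ℝ) ^ (n + k) * 3 ^ (t (n + k)) ≤ 2 ^ (n + k) * 3 ^ (t n + k) :=
        mul_le_mul_of_nonneg_left h2 (by positivity)
    _ = (2 ^ k * 3 ^ k) * (2 ^ n * 3 ^ (t n)) := by rw [h3, h4]; ring
    _ = 6 ^ k * (2 ^ n * 3 ^ (t n)) := by rw [← mul_pow]; norm_num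

theorem M_low (t : ℤ → ℤ) (ht : Monotone t) (n : ℤ) (k : ℕ) :
    2 ^ k * M t n ≤ M t (n + k) := by
  unfold M
  have h1 : t n ≤ t (n + k) := ht (by omega)
  have h2 : (3 : ℝ) ^ (t n) ≤ 3 ^ (t (n + k)) := zpow_le_zpow_right₀ (by norm_num) h1
  have h3 : (2 : ℝ) ^ (n + k) = 2 ^ n * 2 ^ k := by
    rw [zpow_add₀ (by norm_num), zpow_natCast]
  rw [h3]
  calc (2 : ℝ) ^ k * (2 ^ n * 3 ^ (t n)) = 2 ^ n * 2 ^ k * 3 ^ (t n) := by ring
    _ ≤ 2 ^ n * 2 ^ k * 3 ^ (t (n + k)) := mul_le_mul_of_nonneg_left h2 (by positivity)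

theorem M_mono_l (t : ℤ → ℤ) (ht : Monotone t) {m n : ℤ} (h : m ≤ n) : M t m ≤ M t n := by
  obtain ⟨k, hk⟩ : ∃ k : ℕ, n = m + k := ⟨(n - m).toNat, by omega⟩
  subst hk
  have h1 := M_low t ht m k
  have h2 : (1 : ℝ) ≤ 2 ^ k := one_le_pow₀ (by norm_num)
  have h3 := M_pos_l t m
  calc M t m = 1 * M t m := (one_mul _).symm
    _ ≤ 2 ^ k * M t m := mul_le_mul_of_nonneg_right h2 h3.le
    _ ≤ _ := h1

theorem M_cmp (t : ℤ → ℤ) (ht : Monotone t) (a b : ℤ) (K : ℝ) (k : ℕ) (hK : K ≤ 2 ^ k)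
    (h : M t a ≤ K * M t b) : a ≤ b + k := by
  by_contra hcon
  push Not at hcon
  obtain ⟨j, hj⟩ : ∃ j : ℕ, a = b + ((k + 1 + j : ℕ) : ℤ) := ⟨(a - b - k - 1).toNat, by omega⟩
  have h1 := M_low t ht b (k + 1 + j)
  rw [← hj] at h1
  have h2 := M_pos_l t b
  have h3 : (2 : ℝ) ^ k < 2 ^ (k + 1 + j) := by
    apply pow_lt_pow_right₀ (by norm_num) (by omega)
  have h4 : K * M t b ≤ 2 ^ k * M t b := mul_le_mul_of_nonneg_right hK h2.le
  have h5 : (2 : ℝ) ^ k * M t b < 2 ^ (k + 1 + j) * M t b := mul_lt_mul_of_pos_right h3 h2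
  linarith

theorem fin_cls_l (S : Scale Z) (t : ℤ → ℤ) (hc : S.Count t) (z : Z) (m n : ℤ) :
    ((Quotient.mk (S.st m)) '' (S.ball z n)).Finite := by
  have key : ∀ n', m ≤ n' → ((Quotient.mk (S.st m)) '' (S.ball z n')).Finite := by
    intro n' h
    apply Set.finite_of_ncard_ne_zero
    have := hc z m n' h
    unfold Scale.num at this
    rw [this]
    positivity
  rcases le_total m n with h | h
  · exact key n h
  · exact (key m le_rfl).subset (Set.image_mono (ball_mono S z h))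

theorem fin_cls_bdd (S : Scale Z) (t : ℤ → ℤ) (hc : S.Count t) (m : ℤ) {A : Set Z}
    (hA : S.Bdd A) : ((Quotient.mk (S.st m)) '' A).Finite := by
  obtain ⟨z, n, hz⟩ := hA
  exact (fin_cls_l S t hc z m n).subset (Set.image_mono hz)

theorem num_ball_le (S : Scale Z) (t : ℤ → ℤ) (ht1 : ∀ n, t (n + 1) ≤ t n + 1)
    (hc : S.Count t) (z : Z) (m : ℤ) (k : ℕ) : S.num m (S.ball z (m + k)) ≤ 6 ^ k := by
  rw [hc z m (m + k) (by omega)]
  have h1 := t_up t ht1 m k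
  have h2 : (m + k - m).toNat = k := by omega
  have h3 : (t (m + k) - t m).toNat ≤ k := by omega
  rw [h2]
  calc 2 ^ k * 3 ^ (t (m + k) - t m).toNat ≤ 2 ^ k * 3 ^ k :=
        Nat.mul_le_mul_left _ (Nat.pow_le_pow_right (by norm_num) h3)
    _ = 6 ^ k := by rw [← mul_pow]; norm_num

theorem mu_mono_l (S : Scale Z) (t : ℤ → ℤ) (hc : S.Count t) (μ : Set Z → ℝ) (hμ : IsMu S t μ)
    {A B : Set Z} (hA : S.Clo A) (hB : S.Clo B) (h : A ⊆ B) : μ A ≤ μ B := by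
  obtain ⟨⟨m, hm⟩, hbA⟩ := hA
  obtain ⟨⟨n, hn⟩, hbB⟩ := hB
  have h1 := hμ.2.2 A (min m n) (sat_mono_l S (min_le_left m n) hm) hbA
  have h2 := hμ.2.2 B (min m n) (sat_mono_l S (min_le_right m n) hn) hbB
  rw [h1, h2]
  apply mul_le_mul_of_nonneg_right _ (M_pos_l t _).le
  have h3 : S.num (min m n) A ≤ S.num (min m n) B :=
    Set.ncard_le_ncard (Set.image_mono h) (fin_cls_bdd S t hc _ hbB)
  exact_mod_cast h3

theorem mu_pos (S : Scale Z) (t : ℤ → ℤ) (hc : S.Count t) (μ : Set Z → ℝ) (hμ : IsMu S t μ)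
    {A : Set Z} (hA : S.Clo A) (hne : A.Nonempty) : 0 < μ A := by
  obtain ⟨x, hx⟩ := hne
  obtain ⟨⟨m, hm⟩, hb⟩ := hA
  have h1 : S.ball x m ⊆ A := fun y hy => hm x y hx hy
  have h2 := mu_mono_l S t hc μ hμ (ball_clo S x m) ⟨⟨m, hm⟩, hb⟩ h1
  rw [hμ.1] at h2
  exact lt_of_lt_of_le (M_pos_l t m) h2

/-- there are few saturated subsets of a ball -/
theorem few_sat (S : Scale Z) (t : ℤ → ℤ) (ht1 : ∀ n, t (n + 1) ≤ t n + 1)
    (hc : S.Count t) (z : Z) (m : ℤ) (k : ℕ) :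
    {A : Set Z | S.Sat m A ∧ A ⊆ S.ball z (m + k)}.Finite ∧
    {A : Set Z | S.Sat m A ∧ A ⊆ S.ball z (m + k)}.ncard ≤ 2 ^ (6 ^ k) := by
  have hfin := fin_cls_l S t hc z m (m + k)
  set Y := (Quotient.mk (S.st m)) '' (S.ball z (m + k)) with hY
  have hmap : ∀ A ∈ {A : Set Z | S.Sat m A ∧ A ⊆ S.ball z (m + k)},
      (Quotient.mk (S.st m)) '' A ∈ 𝒫 Y := by
    intro A hA
    exact Set.image_mono hA.2
  have hinj : Set.InjOn (fun A : Set Z => (Quotient.mk (S.st m)) '' A)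
      {A : Set Z | S.Sat m A ∧ A ⊆ S.ball z (m + k)} := by
    have key : ∀ A A' : Set Z, S.Sat m A' →
        (Quotient.mk (S.st m)) '' A = (Quotient.mk (S.st m)) '' A' → A ⊆ A' := by
      intro A A' hA' h x hx
      have h1 : Quotient.mk (S.st m) x ∈ (Quotient.mk (S.st m)) '' A' := by
        rw [← h]; exact Set.mem_image_of_mem _ hx
      obtain ⟨y, hy, hyx⟩ := h1
      have h2 : S.r m y x := Quotient.exact hyx
      exact hA' y x hy h2
    intro A hA A' hA' h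
    exact Set.Subset.antisymm (key A A' hA'.1 h) (key A' A hA.1 h.symm)
  have hpf : (𝒫 Y).Finite := hfin.powerset
  refine ⟨Set.Finite.of_injOn hmap hinj hpf, ?_⟩
  calc {A : Set Z | S.Sat m A ∧ A ⊆ S.ball z (m + k)}.ncard ≤ (𝒫 Y).ncard :=
        Set.ncard_le_ncard_of_injOn _ hmap hinj hpf
    _ = 2 ^ Y.ncard := Set.ncard_powerset Y hfin
    _ ≤ 2 ^ (6 ^ k) := Nat.pow_le_pow_right (by norm_num) (num_ball_le S t ht1 hc z m k)

/-- the measure of a bounded set is at most the number of classes times the measure of a class -/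
theorem mu_le_num (S : Scale Z) (t : ℤ → ℤ) (hc : S.Count t) (μ : Set Z → ℝ) (hμ : IsMu S t μ)
    {A : Set Z} (hA : S.Clo A) (l : ℤ) : μ A ≤ (S.num l A : ℝ) * M t l := by
  set A' : Set Z := {x | ∃ y ∈ A, S.r l y x} with hA'
  have hsub : A ⊆ A' := fun x hx => ⟨x, hx, S.refl l x⟩
  have hsat : S.Sat l A' := by
    rintro x y ⟨w, hw, hwx⟩ hxy
    exact ⟨w, hw, S.trans l w x y hwx hxy⟩
  have hbdd : S.Bdd A' := by
    obtain ⟨z, n, hz⟩ := hA.2
    refine ⟨z, max n l, ?_⟩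
    rintro x ⟨w, hw, hwx⟩
    exact S.trans _ z w x (S.mono n _ (le_max_left _ _) _ _ (hz hw))
      (S.mono l _ (le_max_right _ _) _ _ hwx)
  have h1 := mu_mono_l S t hc μ hμ hA ⟨⟨l, hsat⟩, hbdd⟩ hsub
  rw [hμ.2.2 A' l hsat hbdd] at h1
  have h2 : (Quotient.mk (S.st l)) '' A' = (Quotient.mk (S.st l)) '' A := by
    apply Set.Subset.antisymm
    · rintro _ ⟨x, ⟨w, hw, hwx⟩, rfl⟩
      refine ⟨w, hw, ?_⟩
      exact Quotient.sound hwx
    · exact Set.image_mono hsub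
  have h3 : S.num l A' = S.num l A := by
    unfold Scale.num
    rw [h2]
  rw [h3] at h1
  exact h1

theorem lam_step {S : Scale Z} {G : Type*} [Group G] [MulAction G Z] {lam : G → ℤ → ℤ} {D : ℤ}
    (hA : Act S lam D) (g : G) (n : ℤ) (k : ℕ) : |lam g (n + k) - lam g n| ≤ k * D := by
  induction k with
  | zero => simp
  | succ k ih =>
    have h1 := hA.step g (n + k)
    have h2 : lam g (n + ((k + 1 : ℕ) : ℤ)) = lam g (n + k + 1) := by
      congr 1
      push_cast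
      ring
    rw [h2]
    calc |lam g (n + k + 1) - lam g n|
        = |(lam g (n + k + 1) - lam g (n + k)) + (lam g (n + k) - lam g n)| := by
          congr 1; ring
      _ ≤ |lam g (n + k + 1) - lam g (n + k)| + |lam g (n + k) - lam g n| := abs_add_le _ _
      _ ≤ D + k * D := add_le_add h1 ih
      _ = ((k + 1 : ℕ) : ℤ) * D := by push_cast; ring

/-- orbits of sets under stabilizers: lower bound -/
theorem orb_lower (S : Scale Z) (t : ℤ → ℤ) (ht : Monotone t) (ht1 : ∀ n, t (n + 1) ≤ t n + 1)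
    (hc : S.Count t) {G : Type*} [Group G] [MulAction G Z] (lam : G → ℤ → ℤ) (D : ℤ)
    (hA : Act S lam D) (μ : Set Z → ℝ) (hμ : IsMu S t μ) (z₀ : Z)
    (hfin : ∀ g h : G, (orb G (g • S.ball z₀ 0) (h • S.ball z₀ 0)).Finite) :
    ∃ c : ℝ, 1 ≤ c ∧ ∀ g h : G, h • S.ball z₀ 0 ⊆ g • S.ball z₀ 0 →
      μ (g • S.ball z₀ 0) ≤ c * (((orb G (g • S.ball z₀ 0) (h • S.ball z₀ 0)).ncard : ℝ)
        * μ (h • S.ball z₀ 0)) := by
  obtain ⟨a1, a2, a3, a4, -, a6⟩ := act_basic S t ht ht1 hc lam D hA μ hμ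
  obtain ⟨d, hd⟩ : ∃ d : ℕ, D = d := ⟨D.toNat, by have := hA.hD; omega⟩
  subst hd
  have hd1 : 1 ≤ d := by have := hA.hD; omega
  have h2d : (2 * (d : ℤ)).toNat = 2 * d := by omega
  rw [h2d] at a4 a6
  set k0 : ℝ := (6 : ℝ) ^ (2 * d) with hk0
  have hk0pos : 0 < k0 := by positivity
  have hk01 : 1 ≤ k0 := one_le_pow₀ (by norm_num)
  have hk0two : k0 ≤ 2 ^ (6 * d) := by
    have : (2 : ℝ) ^ (6 * d) = 8 ^ (2 * d) := by
      rw [show (8 : ℝ) = 2 ^ 3 by norm_num, ← pow_mul]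
      congr 1
      ring
    rw [this, hk0]
    exact pow_le_pow_left₀ (by norm_num) (by norm_num) _
  have hk03 : k0 ^ 3 ≤ 2 ^ (18 * d) := by
    calc k0 ^ 3 ≤ (2 ^ (6 * d)) ^ 3 := pow_le_pow_left₀ hk0pos.le hk0two 3
      _ = 2 ^ (18 * d) := by rw [← pow_mul]; congr 1; ring
  set c4 : ℕ := d * d + 2 * d with hc4
  set c7 : ℕ := d * d + 20 * d with hc7
  refine ⟨(2 ^ (6 ^ (2 * c7)) : ℝ) * 6 ^ (c4 + d), ?_, ?_⟩
  · have h1 : (1 : ℝ) ≤ 2 ^ (6 ^ (2 * c7)) := one_le_pow₀ (by norm_num)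
    have h2 : (1 : ℝ) ≤ 6 ^ (c4 + d) := one_le_pow₀ (by norm_num)
    calc (1 : ℝ) = 1 * 1 := by ring
      _ ≤ _ := mul_le_mul h1 h2 (by norm_num) (by positivity)
  intro g h hBC
  set B0 := S.ball z₀ 0 with hB0
  set C := g • B0 with hC
  set B := h • B0 with hB
  set nB := lam h 0 with hnB
  set nC := lam g 0 with hnC
  have hB0clo : S.Clo B0 := ball_clo S z₀ 0
  have hCclo : S.Clo C := a1 g B0 hB0clo
  have hBclo : S.Clo B := a1 h B0 hB0clo
  have hz0 : z₀ ∈ B0 := ball_mem_self S z₀ 0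
  have hzB : h • z₀ ∈ B := Set.smul_mem_smul_set hz0
  have hzC : g • z₀ ∈ C := Set.smul_mem_smul_set hz0
  have hCball : C ⊆ S.ball (g • z₀) (nC + d) := (a3 g z₀ 0).2
  have hBball : B ⊆ S.ball (h • z₀) (nB + d) := (a3 h z₀ 0).2
  have hBball' : S.ball (h • z₀) (nB - d) ⊆ B := (a3 h z₀ 0).1
  -- comparison of the levels
  have hnBC : nB ≤ nC + 2 * d := by
    by_contra hcon
    push Not at hcon
    have h1 : S.ball (h • z₀) (nB - d) ⊆ S.ball (h • z₀) (nC + d) := by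
      intro x hx
      have h2 : x ∈ S.ball (g • z₀) (nC + d) := hCball (hBC (hBball' hx))
      have h3 : h • z₀ ∈ S.ball (g • z₀) (nC + d) := hCball (hBC hzB)
      exact S.trans _ _ _ _ (S.symm _ _ _ h3) h2
    have h2 : S.ball (h • z₀) (nC + d) ⊆ S.ball (h • z₀) (nB - d) := ball_mono S _ (by omega)
    have h3 : M t (nC + d) = M t (nB - d) := by
      rw [← hμ.1 (h • z₀) (nC + d), ← hμ.1 (h • z₀) (nB - d), Set.Subset.antisymm h1 h2]
    have h4 := M_cmp t ht (nB - d) (nC + d) 1 0 (by norm_num) (by rw [h3, one_mul])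
    push_cast at h4
    omega
  -- the moving elements
  have hcob : ∀ z : Z, ∃ u : G, S.r (nB + d) (u • (h • z₀)) z ∧ |lam u nB - nB| ≤ d :=
    fun z => hA.cob (h • z₀) z nB nB
  choose γ hγ1 hγ2 using hcob
  have hγlow : ∀ z, nB - d ≤ lam (γ z) nB ∧ lam (γ z) nB ≤ nB + d := by
    intro z
    have := abs_le.mp (hγ2 z)
    constructor <;> linarith [this.1, this.2]
  -- image of B
  have himB : ∀ z, γ z • B ⊆ S.ball z (nB + c4) := by
    intro z x hx
    obtain ⟨y, hy, rfl⟩ := Set.mem_smul_set.mp hx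
    have h1 : S.r (nB + d) (h • z₀) y := hBball hy
    have h2 := hA.up (γ z) _ _ _ h1
    have h3 := abs_le.mp (lam_step hA (γ z) nB d)
    have h4 : lam (γ z) (nB + d) + d ≤ nB + c4 := by
      have := (hγlow z).2
      have h5 := h3.2
      rw [hc4]
      push_cast
      linarith
    have h5 := S.mono _ _ h4 _ _ h2
    have h6 := S.mono (nB + d) (nB + c4) (by rw [hc4]; push_cast; nlinarith) _ _ (hγ1 z)
    exact S.trans _ _ _ _ (S.symm _ _ _ h6) h5
  -- comparison of measures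
  have hratio : ∀ z, ∀ X : Set Z, S.Clo X → X.Nonempty →
      μ (γ z • X) ≤ k0 ^ 2 * μ X ∧ μ X ≤ k0 ^ 2 * μ (γ z • X) := by
    intro z X hX hXne
    obtain ⟨b1, b2⟩ := a6 (γ z) X (h • z₀) nB hX hXne
    obtain ⟨K, hK1, hK2, hK3⟩ := a4 (γ z) (h • z₀) nB
    have hK1' : (1 : ℝ) ≤ K := by exact_mod_cast hK1
    have hK2' : (K : ℝ) ≤ k0 := by rw [hk0]; exact_mod_cast hK2
    have hMB := M_pos_l t nB
    have hml := M_pos_l t (lam (γ z) nB - d)
    have hXpos := mu_pos S t hc μ hμ hX hXne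
    set Rz := μ (γ z • S.ball (h • z₀) nB) / M t nB with hRz
    have hR1 : Rz ≤ k0 := by
      rw [hRz, div_le_iff₀ hMB, hK3]
      have h1 : M t (lam (γ z) nB - d) ≤ M t nB := M_mono_l t ht (by linarith [(hγlow z).2])
      exact mul_le_mul hK2' h1 hml.le hk0pos.le
    have hR2 : 1 ≤ k0 * Rz := by
      rw [hRz, ← mul_div_assoc, le_div_iff₀ hMB, one_mul, hK3]
      have h1 : M t nB ≤ k0 * M t (lam (γ z) nB - d) := by
        have h2 := M_up t ht1 (nB - 2 * d) (2 * d)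
        have h3 : nB - 2 * d + ((2 * d : ℕ) : ℤ) = nB := by push_cast; ring
        rw [h3] at h2
        refine h2.trans (mul_le_mul_of_nonneg_left ?_ hk0pos.le)
        exact M_mono_l t ht (by linarith [(hγlow z).1])
      calc M t nB ≤ k0 * M t (lam (γ z) nB - d) := h1
        _ ≤ k0 * (K * M t (lam (γ z) nB - d)) := by
            apply mul_le_mul_of_nonneg_left _ hk0pos.le
            exact le_mul_of_one_le_left hml.le hK1'
    constructor
    · have h1 : μ (γ z • X) / μ X ≤ k0 ^ 2 := by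
        calc μ (γ z • X) / μ X ≤ k0 * Rz := b1
          _ ≤ k0 * k0 := mul_le_mul_of_nonneg_left hR1 hk0pos.le
          _ = k0 ^ 2 := by ring
      rwa [div_le_iff₀ hXpos] at h1
    · have h1 : 1 ≤ k0 ^ 2 * (μ (γ z • X) / μ X) := by
        calc 1 ≤ k0 * Rz := hR2
          _ ≤ k0 * (k0 * (μ (γ z • X) / μ X)) := mul_le_mul_of_nonneg_left b2 hk0pos.le
          _ = k0 ^ 2 * (μ (γ z • X) / μ X) := by ring
      rw [← mul_div_assoc, le_div_iff₀ hXpos, one_mul] at h1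
      exact h1
  -- level of the image of C
  have hlevC : ∀ z, nC - 18 * d ≤ lam (γ z * g) 0 ∧ lam (γ z * g) 0 ≤ nC + 18 * d := by
    intro z
    obtain ⟨b1, b2⟩ := hratio z C hCclo ⟨_, hzC⟩
    obtain ⟨K, hK1, hK2, hK3⟩ := a4 g z₀ 0
    obtain ⟨K', hK1', hK2', hK3'⟩ := a4 (γ z * g) z₀ 0
    have hgC : γ z • C = (γ z * g) • B0 := by rw [hC, mul_smul]
    rw [hgC] at b1 b2
    rw [← hB0] at hK3 hK3'
    rw [hK3'] at b1 b2
    rw [hC, hK3] at b1 b2
    have e1 : (1 : ℝ) ≤ K := by exact_mod_cast hK1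
    have e2 : (K : ℝ) ≤ k0 := by rw [hk0]; exact_mod_cast hK2
    have e1' : (1 : ℝ) ≤ K' := by exact_mod_cast hK1'
    have e2' : (K' : ℝ) ≤ k0 := by rw [hk0]; exact_mod_cast hK2'
    have m1 := M_pos_l t (lam g 0 - d)
    have m2 := M_pos_l t (lam (γ z * g) 0 - d)
    constructor
    · have h1 : M t (lam g 0 - d) ≤ k0 ^ 3 * M t (lam (γ z * g) 0 - d) := by
        calc M t (lam g 0 - d) ≤ K * M t (lam g 0 - d) := le_mul_of_one_le_left m1.le e1
          _ ≤ k0 ^ 2 * (K' * M t (lam (γ z * g) 0 - d)) := b2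
          _ ≤ k0 ^ 2 * (k0 * M t (lam (γ z * g) 0 - d)) := by
              apply mul_le_mul_of_nonneg_left _ (by positivity)
              exact mul_le_mul_of_nonneg_right e2' m2.le
          _ = k0 ^ 3 * M t (lam (γ z * g) 0 - d) := by ring
      have h2 := M_cmp t ht _ _ _ _ hk03 h1
      push_cast at h2
      linarith
    · have h1 : M t (lam (γ z * g) 0 - d) ≤ k0 ^ 3 * M t (lam g 0 - d) := by
        calc M t (lam (γ z * g) 0 - d) ≤ K' * M t (lam (γ z * g) 0 - d) :=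
              le_mul_of_one_le_left m2.le e1'
          _ ≤ k0 ^ 2 * (K * M t (lam g 0 - d)) := b1
          _ ≤ k0 ^ 2 * (k0 * M t (lam g 0 - d)) := by
              apply mul_le_mul_of_nonneg_left _ (by positivity)
              exact mul_le_mul_of_nonneg_right e2 m1.le
          _ = k0 ^ 3 * M t (lam g 0 - d) := by ring
      have h2 := M_cmp t ht _ _ _ _ hk03 h1
      push_cast at h2
      linarith
  have hdd : (d : ℤ) ≤ d * d := by nlinarith [show (1 : ℤ) ≤ d by exact_mod_cast hd1]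
  -- the images of C are few
  have himC : ∀ z ∈ C, γ z • C ∈ {A : Set Z | S.Sat (nC - c7) A ∧
      A ⊆ S.ball (g • z₀) (nC - c7 + ((2 * c7 : ℕ) : ℤ))} := by
    intro z hz
    have hgC : γ z • C = (γ z * g) • B0 := by rw [hC, mul_smul]
    obtain ⟨l1, l2⟩ := hlevC z
    refine ⟨?_, ?_⟩
    · rw [hgC]
      have h1 := a2 (γ z * g) B0 0 (ball_sat_l S z₀ 0)
      refine sat_mono_l S ?_ h1
      rw [hc7]; push_cast; nlinarith
    · have hlev : nC - c7 + ((2 * c7 : ℕ) : ℤ) = nC + c7 := by push_cast; ring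
      rw [hlev]
      intro x hx
      -- x and g_z h z0 are both in g_z C
      have h1 : γ z • C ⊆ S.ball ((γ z * g) • z₀) (lam (γ z * g) 0 + d) := by
        rw [hgC]; exact (a3 (γ z * g) z₀ 0).2
      have h2 : S.r (nC + c7) ((γ z * g) • z₀) x :=
        S.mono _ _ (by rw [hc7]; push_cast; nlinarith) _ _ (h1 hx)
      have h3 : S.r (nC + c7) ((γ z * g) • z₀) (γ z • (h • z₀)) :=
        S.mono _ _ (by rw [hc7]; push_cast; nlinarith) _ _
          (h1 (Set.smul_mem_smul_set (hBC hzB)))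
      have h4 : S.r (nC + c7) z (γ z • (h • z₀)) :=
        S.mono (nB + c4) _ (by rw [hc7, hc4]; push_cast; nlinarith) _ _
          (himB z (Set.smul_mem_smul_set hzB))
      have h5 : S.r (nC + c7) (g • z₀) z :=
        S.mono (nC + d) _ (by rw [hc7]; push_cast; nlinarith) _ _ (hCball hz)
      exact S.trans _ _ _ _ h5 (S.trans _ _ _ _ h4 (S.trans _ _ _ _ (S.symm _ _ _ h3) h2))
  obtain ⟨fs1, fs2⟩ := few_sat S t ht1 hc (g • z₀) (nC - c7) (2 * c7)
  set CC : Set (Set Z) := (fun z => γ z • C) '' C with hCC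
  set BB : Set (Set Z) := (fun z => γ z • B) '' C with hBB
  have hCCsub : CC ⊆ {A : Set Z | S.Sat (nC - c7) A ∧
      A ⊆ S.ball (g • z₀) (nC - c7 + ((2 * c7 : ℕ) : ℤ))} := by
    rintro _ ⟨z, hz, rfl⟩
    exact himC z hz
  have hCCfin : CC.Finite := fs1.subset hCCsub
  have hCCcard : CC.ncard ≤ 2 ^ (6 ^ (2 * c7)) := (Set.ncard_le_ncard hCCsub fs1).trans fs2
  -- representatives
  have hrep : ∀ A : Set Z, ∃ z : Z, A ∈ CC → γ z • C = A := by
    intro A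
    by_cases hAC : A ∈ CC
    · obtain ⟨z, _, hz⟩ := hAC
      exact ⟨z, fun _ => hz⟩
    · exact ⟨z₀, fun h => absurd h hAC⟩
  choose ζ hζ using hrep
  have horbfin : (orb G C B).Finite := hfin g h
  have hBBsub : BB ⊆ (fun p : Set Z × Set Z => γ (ζ p.1) • p.2) '' (CC ×ˢ orb G C B) := by
    rintro _ ⟨z, hz, rfl⟩
    have hmem : γ z • C ∈ CC := ⟨z, hz, rfl⟩
    have h1 := hζ (γ z • C) hmem
    refine ⟨(γ z • C, ((γ (ζ (γ z • C)))⁻¹ * γ z) • B), ⟨hmem, ?_⟩, ?_⟩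
    · refine ⟨(γ (ζ (γ z • C)))⁻¹ * γ z, ?_, rfl⟩
      rw [mul_smul]
      nth_rewrite 2 [← h1]
      rw [inv_smul_smul]
    · show γ (ζ (γ z • C)) • (((γ (ζ (γ z • C)))⁻¹ * γ z) • B) = γ z • B
      rw [mul_smul, smul_inv_smul]
  have hprodfin : (CC ×ˢ orb G C B).Finite := hCCfin.prod horbfin
  have hBBfin : BB.Finite := (hprodfin.image _).subset hBBsub
  have hBBcard : BB.ncard ≤ 2 ^ (6 ^ (2 * c7)) * (orb G C B).ncard := by
    calc BB.ncard ≤ ((fun p : Set Z × Set Z => γ (ζ p.1) • p.2) '' (CC ×ˢ orb G C B)).ncard :=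
          Set.ncard_le_ncard hBBsub (hprodfin.image _)
      _ ≤ (CC ×ˢ orb G C B).ncard := Set.ncard_image_le hprodfin
      _ = CC.ncard * (orb G C B).ncard := Set.ncard_prod
      _ ≤ _ := Nat.mul_le_mul_right _ hCCcard
  -- classes of level nB + c4 meeting C
  have hnum : S.num (nB + c4) C ≤ BB.ncard := by
    have hrep2 : ∀ q : Quotient (S.st (nB + c4)), ∃ z : Z,
        q ∈ (Quotient.mk (S.st (nB + c4))) '' C → z ∈ C ∧ Quotient.mk (S.st (nB + c4)) z = q := by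
      intro q
      by_cases hq : q ∈ (Quotient.mk (S.st (nB + c4))) '' C
      · obtain ⟨z, hz, hzq⟩ := hq
        exact ⟨z, fun _ => ⟨hz, hzq⟩⟩
      · exact ⟨z₀, fun h => absurd h hq⟩
    choose ξ hξ using hrep2
    refine Set.ncard_le_ncard_of_injOn (fun q => γ (ξ q) • B) ?_ ?_ hBBfin
    · intro q hq
      exact ⟨ξ q, (hξ q hq).1, rfl⟩
    · intro q hq q' hq' hqq
      obtain ⟨h1, h2⟩ := hξ q hq
      obtain ⟨h3, h4⟩ := hξ q' hq'
      rw [← h2, ← h4]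
      apply Quotient.sound
      have hx : γ (ξ q) • (h • z₀) ∈ γ (ξ q) • B := Set.smul_mem_smul_set hzB
      have hx1 := himB (ξ q) hx
      have hqq' : γ (ξ q) • B = γ (ξ q') • B := hqq
      rw [hqq'] at hx
      have hx2 := himB (ξ q') hx
      exact S.trans _ _ _ _ hx1 (S.symm _ _ _ hx2)
  -- assemble
  have hμC := mu_le_num S t hc μ hμ hCclo (nB + c4)
  have hMB : M t (nB + c4) ≤ 6 ^ (c4 + d) * μ B := by
    have h1 := M_up t ht1 (nB - d) (c4 + d)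
    have h2 : nB - d + ((c4 + d : ℕ) : ℤ) = nB + c4 := by push_cast; ring
    rw [h2] at h1
    have h3 : M t (nB - d) ≤ μ B := by
      rw [← hμ.1 (h • z₀) (nB - d)]
      exact mu_mono_l S t hc μ hμ (ball_clo S _ _) hBclo hBball'
    exact h1.trans (mul_le_mul_of_nonneg_left h3 (by positivity))
  have hμB : 0 < μ B := mu_pos S t hc μ hμ hBclo ⟨_, hzB⟩
  have hfinal : ((S.num (nB + c4) C : ℕ) : ℝ) ≤
      2 ^ (6 ^ (2 * c7)) * ((orb G C B).ncard : ℝ) := by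
    exact_mod_cast hnum.trans hBBcard
  calc μ C ≤ (S.num (nB + c4) C : ℝ) * M t (nB + c4) := hμC
    _ ≤ (2 ^ (6 ^ (2 * c7)) * ((orb G C B).ncard : ℝ)) * (6 ^ (c4 + d) * μ B) :=
        mul_le_mul hfinal hMB (M_pos_l t _).le (by positivity)
    _ = (2 ^ (6 ^ (2 * c7)) : ℝ) * 6 ^ (c4 + d) * (((orb G C B).ncard : ℝ) * μ B) := by ring

end Pool.Agent.Helper190.RT
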