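import Pool.Agent.Helper190.RTBasic

set_option autoImplicit false

namespace Pool.Agent.Helper190.RT

variable {Z : Type*}

open Pointwise
theorem M_pos (t : ℤ → ℤ) (n : ℤ) : 0 < M t n := by unfold M; positivity

theorem M_eq (t : ℤ → ℤ) (ht : Monotone t) {m n : ℤ} (h : m ≤ n) :
    M t n = (2 ^ (n - m).toNat * 3 ^ (t n - t m).toNat) * M t m := by
  have e2 : (2 : ℝ) ^ n = 2 ^ (n - m).toNat * 2 ^ m := by
    rw [← zpow_natCast, Int.toNat_of_nonneg (sub_nonneg.2 h), ← zpow_add₀ (by norm_num)]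
    congr 1; ring
  have e3 : (3 : ℝ) ^ (t n) = 3 ^ (t n - t m).toNat * 3 ^ (t m) := by
    rw [← zpow_natCast, Int.toNat_of_nonneg (sub_nonneg.2 (ht h)), ← zpow_add₀ (by norm_num)]
    congr 1; ring
  unfold M
  rw [e2, e3]; ring

theorem t_le (t : ℤ → ℤ) (ht1 : ∀ n, t (n + 1) ≤ t n + 1) {m n : ℤ} (h : m ≤ n) :
    t n - t m ≤ n - m := by
  induction n, h using Int.leInduction with
  | base => simp
  | succ n hn ih => have := ht1 n; omega

theorem M_ge (t : ℤ → ℤ) (ht : Monotone t) {m n : ℤ} (h : m ≤ n) :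
    2 ^ (n - m).toNat * M t m ≤ M t n := by
  rw [M_eq t ht h]
  refine mul_le_mul_of_nonneg_right ?_ (M_pos t m).le
  have : (1 : ℝ) ≤ 3 ^ (t n - t m).toNat := one_le_pow₀ (by norm_num)
  nlinarith [pow_pos (show (0 : ℝ) < 2 by norm_num) (n - m).toNat]

theorem M_mono (t : ℤ → ℤ) (ht : Monotone t) {m n : ℤ} (h : m ≤ n) : M t m ≤ M t n := by
  refine le_trans ?_ (M_ge t ht h)
  have : (1 : ℝ) ≤ 2 ^ (n - m).toNat := one_le_pow₀ (by norm_num)
  nlinarith [M_pos t m]

theorem num_le (t : ℤ → ℤ) (ht1 : ∀ n, t (n + 1) ≤ t n + 1) {m n : ℤ} (h : m ≤ n) :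
    2 ^ (n - m).toNat * 3 ^ (t n - t m).toNat ≤ 6 ^ (n - m).toNat := by
  have h1 : (t n - t m).toNat ≤ (n - m).toNat := by
    have := t_le t ht1 h; omega
  calc 2 ^ (n - m).toNat * 3 ^ (t n - t m).toNat ≤ 2 ^ (n - m).toNat * 3 ^ (n - m).toNat :=
        Nat.mul_le_mul_left _ (Nat.pow_le_pow_right (by norm_num) h1)
    _ = 6 ^ (n - m).toNat := by rw [← mul_pow]; norm_num

theorem M_le (t : ℤ → ℤ) (ht : Monotone t) (ht1 : ∀ n, t (n + 1) ≤ t n + 1) {m n : ℤ}
    (h : m ≤ n) : M t n ≤ 6 ^ (n - m).toNat * M t m := by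
  rw [M_eq t ht h]
  refine mul_le_mul_of_nonneg_right ?_ (M_pos t m).le
  exact_mod_cast num_le t ht1 h

theorem le_of_M_le (t : ℤ → ℤ) (ht : Monotone t) {a b : ℤ} {j : ℕ}
    (h : M t a ≤ 6 ^ j * M t b) : a ≤ b + 3 * j := by
  by_contra hlt
  push Not at hlt
  have h1 : b ≤ b + (3 * j + 1 : ℕ) := by omega
  have h2 := M_ge t ht h1
  have h3 : (b + (3 * j + 1 : ℕ) - b).toNat = 3 * j + 1 := by omega
  rw [h3] at h2
  have h4 : M t (b + (3 * j + 1 : ℕ)) ≤ M t a := M_mono t ht (by push_cast; omega)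
  have h5 : (2 : ℝ) ^ (3 * j + 1) = 2 * 8 ^ j := by
    rw [pow_succ, pow_mul]; norm_num; ring
  have h6 : (6 : ℝ) ^ j ≤ 8 ^ j := pow_le_pow_left₀ (by norm_num) (by norm_num) j
  rw [h5] at h2
  have h7 := M_pos t b
  have h8 : (0 : ℝ) < 8 ^ j := by positivity
  nlinarith [mul_pos h8 h7, mul_le_mul_of_nonneg_right h6 h7.le]

variable {S : Scale Z} {t : ℤ → ℤ}

theorem sat_mono {m m' : ℤ} (h : m' ≤ m) {A : Set Z} (hA : S.Sat m A) : S.Sat m' A :=
  fun x y hx hxy => hA x y hx (S.mono m' m h x y hxy)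

theorem ball_sat (z : Z) (n : ℤ) : S.Sat n (S.ball z n) :=
  fun x y hx hxy => S.trans n z x y hx hxy

theorem mem_ball_self (z : Z) (n : ℤ) : z ∈ S.ball z n := S.refl n z

theorem ball_sub {z z' : Z} {m n : ℤ} (h : S.r n z z') (hmn : m ≤ n) :
    S.ball z' m ⊆ S.ball z n := fun x hx => S.trans n z z' x h (S.mono m n hmn z' x hx)

theorem ball_fin (hc : S.Count t) (z : Z) {m n : ℤ} (h : m ≤ n) :
    ((Quotient.mk (S.st m)) '' S.ball z n).Finite := by
  refine Set.finite_of_ncard_ne_zero ?_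
  change S.num m (S.ball z n) ≠ 0
  rw [hc z m n h]
  positivity

theorem sat_inj {m : ℤ} {X Y : Set Z} (hX : S.Sat m X) (hY : S.Sat m Y)
    (h : (Quotient.mk (S.st m)) '' X = (Quotient.mk (S.st m)) '' Y) : X = Y := by
  have key : ∀ X Y : Set Z, S.Sat m Y →
      (Quotient.mk (S.st m)) '' X = (Quotient.mk (S.st m)) '' Y → X ⊆ Y := by
    intro X Y hY h x hx
    have h1 : Quotient.mk (S.st m) x ∈ (Quotient.mk (S.st m)) '' Y := by
      rw [← h]; exact ⟨x, hx, rfl⟩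
    obtain ⟨y, hy, hxy⟩ := h1
    exact hY y x hy (Quotient.exact hxy)
  exact Set.Subset.antisymm (key X Y hY h) (key Y X hX h.symm)

/-- saturated subsets of a ball -/
def fam (S : Scale Z) (m : ℤ) (z : Z) (n : ℤ) : Set (Set Z) := {X | S.Sat m X ∧ X ⊆ S.ball z n}

theorem fam_count (hc : S.Count t) (ht1 : ∀ n, t (n + 1) ≤ t n + 1) (z : Z) {m n : ℤ}
    (h : m ≤ n) :
    (fam S m z n).Finite ∧ (fam S m z n).ncard ≤ 2 ^ 6 ^ (n - m).toNat := by
  have hf := ball_fin hc z h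
  have hmaps : Set.MapsTo (fun X : Set Z => (Quotient.mk (S.st m)) '' X) (fam S m z n)
      (𝒫 ((Quotient.mk (S.st m)) '' S.ball z n)) := fun X hX => Set.image_mono hX.2
  have hinj : Set.InjOn (fun X : Set Z => (Quotient.mk (S.st m)) '' X) (fam S m z n) :=
    fun X hX Y hY hXY => sat_inj hX.1 hY.1 hXY
  have hpf : (𝒫 ((Quotient.mk (S.st m)) '' S.ball z n)).Finite := hf.powerset
  refine ⟨Set.Finite.of_injOn hmaps hinj hpf, ?_⟩
  refine (Set.ncard_le_ncard_of_injOn _ hmaps hinj hpf).trans ?_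
  rw [Set.ncard_powerset _ hf]
  refine Nat.pow_le_pow_right (by norm_num) ?_
  change S.num m (S.ball z n) ≤ _
  rw [hc z m n h]
  exact num_le t ht1 h

theorem mu_mono (hc : S.Count t) {μ : Set Z → ℝ} (hμ : IsMu S t μ) {A B : Set Z}
    (hA : S.Clo A) (hB : S.Clo B) (h : A ⊆ B) : μ A ≤ μ B := by
  obtain ⟨⟨m, hm⟩, hAb⟩ := hA
  obtain ⟨⟨m', hm'⟩, z, n, hz⟩ := hB
  set p := min (min m m') n with hp
  have h1 : S.Sat p A := sat_mono ((min_le_left _ _).trans (min_le_left _ _)) hm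
  have h2 : S.Sat p B := sat_mono ((min_le_left _ _).trans (min_le_right _ _)) hm'
  rw [hμ.2.2 A p h1 hAb, hμ.2.2 B p h2 ⟨z, n, hz⟩]
  refine mul_le_mul_of_nonneg_right ?_ (M_pos t p).le
  have hf := ball_fin (S := S) (t := t) hc z (min_le_right (min m m') n)
  have h3 : S.num p A ≤ S.num p B :=
    Set.ncard_le_ncard (Set.image_mono h) (hf.subset (Set.image_mono hz))
  exact_mod_cast h3

section act

variable {G : Type*} [Group G] [MulAction G Z] {lam : G → ℤ → ℤ} {D : ℤ} {μ : Set Z → ℝ}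

theorem clo_ball (z : Z) (n : ℤ) : S.Clo (S.ball z n) := ⟨⟨n, ball_sat z n⟩, z, n, Set.Subset.rfl⟩

theorem mu_tr (ht : Monotone t) (ht1 : ∀ n, t (n + 1) ≤ t n + 1)
    (hc : S.Count t) (hA : Act S lam D) (hμ : IsMu S t μ) (g : G) (z : Z) (n : ℤ) :
    M t (lam g n - D) ≤ μ (g • S.ball z n) ∧
      μ (g • S.ball z n) ≤ 6 ^ (2 * D).toNat * M t (lam g n - D) := by
  obtain ⟨-, -, -, b4, -, -⟩ := act_basic S t ht ht1 hc lam D hA μ hμ
  obtain ⟨K, h1, h2, h3⟩ := b4 g z n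
  rw [h3]
  have hM := (M_pos t (lam g n - D)).le
  constructor
  · have : (1 : ℝ) ≤ K := by exact_mod_cast h1
    nlinarith
  · refine mul_le_mul_of_nonneg_right ?_ hM
    exact_mod_cast h2

theorem stab_ratio (ht : Monotone t) (ht1 : ∀ n, t (n + 1) ≤ t n + 1)
    (hc : S.Count t) (hA : Act S lam D) (hμ : IsMu S t μ) (z₀ : Z) {u g : G}
    (hu : u • g • S.ball z₀ 0 = g • S.ball z₀ 0) {X : Set Z} (hX : S.Clo X) (hne : X.Nonempty)
    (hpos : 0 < μ X) :
    μ (u • X) ≤ 6 ^ (2 * (2 * D).toNat) * μ X ∧ μ X ≤ 6 ^ (2 * (2 * D).toNat) * μ (u • X) := by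
  obtain ⟨b1, -, -, -, -, b6⟩ := act_basic S t ht ht1 hc lam D hA μ hμ
  have hA1 : S.Clo (g • S.ball z₀ 0) := b1 g _ (clo_ball z₀ 0)
  have hAne : (g • S.ball z₀ 0).Nonempty := Set.Nonempty.smul_set ⟨z₀, mem_ball_self z₀ 0⟩
  have hApos : 0 < μ (g • S.ball z₀ 0) :=
    (M_pos t _).trans_le (mu_tr ht ht1 hc hA hμ g z₀ 0).1
  obtain ⟨h1, h2⟩ := b6 u _ z₀ 0 hA1 hAne
  rw [hu, div_self hApos.ne'] at h1 h2
  obtain ⟨h3, h4⟩ := b6 u X z₀ 0 hX hne
  set ρ := μ (u • S.ball z₀ 0) / M t 0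
  set k : ℝ := 6 ^ (2 * D).toNat with hk
  have hk0 : 0 < k := by positivity
  have e : (6 : ℝ) ^ (2 * (2 * D).toNat) = k * k := by rw [hk, ← pow_add]; congr 1; ring
  rw [e]
  constructor
  · have h5 : μ (u • X) / μ X ≤ k * k := h3.trans (by nlinarith)
    rwa [div_le_iff₀ hpos] at h5
  · have h5 : 1 ≤ k * (k * (μ (u • X) / μ X)) := h1.trans (mul_le_mul_of_nonneg_left h4 hk0.le)
    have h6 : μ X * 1 ≤ μ X * (k * (k * (μ (u • X) / μ X))) := mul_le_mul_of_nonneg_left h5 hpos.le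
    have h7 : μ X * (k * (k * (μ (u • X) / μ X))) = k * k * μ (u • X) := by
      field_simp
    rw [h7, mul_one] at h6
    exact h6

theorem stab_level (ht : Monotone t) (ht1 : ∀ n, t (n + 1) ≤ t n + 1)
    (hc : S.Count t) (hA : Act S lam D) (hμ : IsMu S t μ) (z₀ : Z) {u g : G} (h : G)
    (hu : u • g • S.ball z₀ 0 = g • S.ball z₀ 0) :
    |lam (u * h) 0 - lam h 0| ≤ 18 * D := by
  obtain ⟨b1, -, -, -, -, b6⟩ := act_basic S t ht ht1 hc lam D hA μ hμ
  have hD := hA.hD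
  obtain ⟨m1, m2⟩ := mu_tr ht ht1 hc hA hμ h z₀ 0
  obtain ⟨m3, m4⟩ := mu_tr ht ht1 hc hA hμ (u * h) z₀ 0
  have hne : (h • S.ball z₀ 0).Nonempty :=
    Set.Nonempty.smul_set ⟨z₀, mem_ball_self z₀ 0⟩
  obtain ⟨r1, r2⟩ := stab_ratio ht ht1 hc hA hμ z₀ hu (b1 h _ (clo_ball z₀ 0)) hne
    ((M_pos t _).trans_le m1)
  rw [smul_smul] at r1 r2
  set j := (2 * D).toNat with hj
  have hjD : (j : ℤ) = 2 * D := by rw [hj]; omega
  have e : (6 : ℝ) ^ (3 * j) = 6 ^ (2 * j) * 6 ^ j := by rw [← pow_add]; congr 1; ring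
  have q1 : M t (lam (u * h) 0 - D) ≤ 6 ^ (3 * j) * M t (lam h 0 - D) := by
    rw [e, mul_assoc]
    exact m3.trans (r1.trans (mul_le_mul_of_nonneg_left m2 (by positivity)))
  have q2 : M t (lam h 0 - D) ≤ 6 ^ (3 * j) * M t (lam (u * h) 0 - D) := by
    rw [e, mul_assoc]
    exact m1.trans (r2.trans (mul_le_mul_of_nonneg_left m4 (by positivity)))
  have q3 := le_of_M_le t ht q1
  have q4 := le_of_M_le t ht q2
  rw [abs_le]
  push_cast at q3 q4
  constructor <;> omega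

/-- translates under the stabilizer -/
theorem stab_fam (ht : Monotone t) (ht1 : ∀ n, t (n + 1) ≤ t n + 1)
    (hc : S.Count t) (hA : Act S lam D) (hμ : IsMu S t μ) (z₀ : Z) {u g : G} (h : G)
    (hu : u • g • S.ball z₀ 0 = g • S.ball z₀ 0) :
    S.Sat (lam h 0 - 19 * D) (u • h • S.ball z₀ 0) ∧
    ∀ y ∈ u • h • S.ball z₀ 0, u • h • S.ball z₀ 0 ⊆ S.ball y (lam h 0 + 19 * D) := by
  obtain ⟨-, b2, b3, -, -, -⟩ := act_basic S t ht ht1 hc lam D hA μ hμ
  have hD := hA.hD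
  have h1 := stab_level ht ht1 hc hA hμ z₀ h hu
  rw [abs_le] at h1
  rw [smul_smul]
  constructor
  · exact sat_mono (by omega) (b2 (u * h) _ 0 (ball_sat z₀ 0))
  · intro y hy x hx
    have h2 := (b3 (u * h) z₀ 0).2 hy
    have h3 := (b3 (u * h) z₀ 0).2 hx
    exact S.mono _ _ (by omega) y x (S.trans _ _ _ _ (S.symm _ _ _ h2) h3)

end act

/-- orbits of sets under stabilizers: finiteness and upper bounds -/
theorem orb_upper (S : Scale Z) (t : ℤ → ℤ) (ht : Monotone t) (ht1 : ∀ n, t (n + 1) ≤ t n + 1)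
    (hc : S.Count t) {G : Type*} [Group G] [MulAction G Z] (lam : G → ℤ → ℤ) (D : ℤ)
    (hA : Act S lam D) (μ : Set Z → ℝ) (hμ : IsMu S t μ) (z₀ : Z) :
    (∀ g h : G, (orb G (g • S.ball z₀ 0) (h • S.ball z₀ 0)).Finite) ∧
    ∃ c : ℝ, 1 ≤ c ∧ ∀ g h : G, h • S.ball z₀ 0 ⊆ g • S.ball z₀ 0 →
      ((orb G (g • S.ball z₀ 0) (h • S.ball z₀ 0)).ncard : ℝ) * μ (h • S.ball z₀ 0)
        ≤ c * μ (g • S.ball z₀ 0) ∧
      ((orb G (h • S.ball z₀ 0) (g • S.ball z₀ 0)).ncard : ℝ) ≤ c := by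
  obtain ⟨b1, b2, b3, -, -, b6⟩ := act_basic S t ht ht1 hc lam D hA μ hμ
  have hD := hA.hD
  set j := (2 * D).toNat with hj
  have hjD : (j : ℤ) = 2 * D := by rw [hj]; omega
  have hne : ∀ h : G, (h • S.ball z₀ 0).Nonempty := fun h =>
    Set.Nonempty.smul_set ⟨z₀, mem_ball_self z₀ 0⟩
  have hmem : ∀ h : G, h • z₀ ∈ h • S.ball z₀ 0 := fun h =>
    Set.smul_mem_smul_set (mem_ball_self z₀ 0)
  constructor
  · intro g h
    obtain ⟨n1, hn1⟩ := S.exh (g • z₀) (h • z₀)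
    set N := max n1 (lam h 0 + D) with hN
    have hBQ : h • S.ball z₀ 0 ⊆ S.ball (g • z₀) N :=
      ((b3 h z₀ 0).2).trans (ball_sub (S.mono _ _ (le_max_left _ _) _ _ hn1) (le_max_right _ _))
    set N' := max (N + 14 * D) (lam g 0 + D) with hN'
    have hle : lam h 0 - 19 * D ≤ N' := by
      have h1 := le_max_right n1 (lam h 0 + D)
      have h2 := le_max_left (N + 14 * D) (lam g 0 + D)
      omega
    refine (fam_count hc ht1 (g • z₀) hle).1.subset ?_
    rintro X ⟨u, hu, rfl⟩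
    refine ⟨(stab_fam ht ht1 hc hA hμ z₀ h hu).1, ?_⟩
    have hQpos : 0 < μ (S.ball (g • z₀) N) := by rw [hμ.1]; exact M_pos t _
    have h1 := (stab_ratio ht ht1 hc hA hμ z₀ hu (clo_ball (g • z₀) N)
      ⟨g • z₀, mem_ball_self _ _⟩ hQpos).1
    rw [hμ.1] at h1
    have h2 := (mu_tr ht ht1 hc hA hμ u (g • z₀) N).1
    have h3 := le_of_M_le t ht (h2.trans h1)
    rw [← hj] at h3
    push_cast at h3
    have h4 : u • g • z₀ ∈ g • S.ball z₀ 0 := by
      rw [← hu]; exact Set.smul_mem_smul_set (hmem g)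
    have h5 : S.r N' (g • z₀) (u • g • z₀) :=
      S.mono _ _ (le_max_right _ _) _ _ ((b3 g z₀ 0).2 h4)
    refine (Set.smul_set_mono hBQ).trans ((b3 u (g • z₀) N).2.trans (ball_sub h5 ?_))
    refine le_trans ?_ (le_max_left _ _)
    omega
  · set K1 : ℕ := 2 ^ 6 ^ (38 * D).toNat with hK1
    have hfam : ∀ (h : G) (z : Z), (fam S (lam h 0 - 19 * D) z (lam h 0 + 19 * D)).Finite ∧
        (fam S (lam h 0 - 19 * D) z (lam h 0 + 19 * D)).ncard ≤ K1 := by
      intro h z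
      have h1 := fam_count (S := S) (t := t) hc ht1 z
        (show lam h 0 - 19 * D ≤ lam h 0 + 19 * D by omega)
      have h2 : (lam h 0 + 19 * D - (lam h 0 - 19 * D)).toNat = (38 * D).toNat := by
        congr 1; ring
      rw [h2] at h1
      exact h1
    set k : ℝ := 6 ^ j with hk
    have hk1 : 1 ≤ k := one_le_pow₀ (by norm_num)
    have hK1' : (1 : ℝ) ≤ K1 := by
      have : 1 ≤ K1 := Nat.one_le_two_pow
      exact_mod_cast this
    refine ⟨K1 * k ^ 2, ?_, fun g h hsub => ⟨?_, ?_⟩⟩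
    · have : 1 ≤ k ^ 2 := one_le_pow₀ hk1
      nlinarith
    · -- the set of classes of level `L` meeting `C`
      classical
      set L := lam h 0 + 19 * D with hL
      set C := g • S.ball z₀ 0 with hC
      have hCfin : ∀ m, ((Quotient.mk (S.st m)) '' C).Finite := by
        intro m
        have h1 : C ⊆ S.ball (g • z₀) (max m (lam g 0 + D)) :=
          ((b3 g z₀ 0).2).trans (ball_sub (S.refl _ _) (le_max_right _ _))
        exact (ball_fin hc (g • z₀) (le_max_left m (lam g 0 + D))).subset (Set.image_mono h1)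
      have hTf := hCfin L
      set Tf := hTf.toFinset with hTfdef
      have horb : orb G C (h • S.ball z₀ 0) ⊆
          ((Tf.biUnion fun q => (hfam h q.out).1.toFinset : Finset (Set Z)) : Set (Set Z)) := by
        rintro X ⟨u, hu, rfl⟩
        obtain ⟨f1, f2⟩ := stab_fam ht ht1 hc hA hμ z₀ h hu
        have hy : u • h • z₀ ∈ u • h • S.ball z₀ 0 := Set.smul_mem_smul_set (hmem h)
        have hyC : u • h • z₀ ∈ C := by
          rw [← hu]; exact Set.smul_set_mono hsub hy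
        rw [Finset.mem_coe, Finset.mem_biUnion]
        refine ⟨Quotient.mk (S.st L) (u • h • z₀), ?_, ?_⟩
        · rw [hTfdef, Set.Finite.mem_toFinset]
          exact ⟨_, hyC, rfl⟩
        · rw [Set.Finite.mem_toFinset]
          refine ⟨f1, (f2 _ hy).trans (ball_sub ?_ le_rfl)⟩
          exact Quotient.exact (Quotient.out_eq (Quotient.mk (S.st L) (u • h • z₀)))
      have hcard : (orb G C (h • S.ball z₀ 0)).ncard ≤ S.num L C * K1 := by
        refine (Set.ncard_le_ncard horb (Finset.finite_toSet _)).trans ?_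
        rw [Set.ncard_coe_finset]
        have h1 := Finset.card_biUnion_le_card_mul Tf (fun q => (hfam h q.out).1.toFinset) K1
          (fun q _ => by
            rw [← Set.ncard_eq_toFinset_card _ (hfam h q.out).1]
            exact (hfam h q.out).2)
        have h2 : Tf.card = S.num L C := by
          rw [hTfdef, ← Set.ncard_eq_toFinset_card _ hTf]; rfl
        rwa [h2] at h1
      obtain ⟨m1, m2⟩ := mu_tr ht ht1 hc hA hμ h z₀ 0
      obtain ⟨m3, m4⟩ := mu_tr ht ht1 hc hA hμ g z₀ 0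
      have hB0 : 0 < μ (h • S.ball z₀ 0) := (M_pos t _).trans_le m1
      have hC0 : 0 < μ C := (M_pos t _).trans_le m3
      have hnum : (S.num L C : ℝ) * μ (h • S.ball z₀ 0) ≤ k ^ 2 * μ C := by
        rcases le_or_gt L (lam g 0 + D) with hcase | hcase
        · have h1 : S.num L C ≤ S.num L (S.ball (g • z₀) (lam g 0 + D)) :=
            Set.ncard_le_ncard (Set.image_mono (b3 g z₀ 0).2) (ball_fin hc _ hcase)
          have h2 : (S.num L (S.ball (g • z₀) (lam g 0 + D)) : ℝ) * M t L =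
              M t (lam g 0 + D) := by
            rw [hc _ _ _ hcase, M_eq t ht hcase]; push_cast; ring
          have h3 : (S.num L C : ℝ) * M t L ≤ M t (lam g 0 + D) := by
            rw [← h2]
            refine mul_le_mul_of_nonneg_right ?_ (M_pos t L).le
            exact_mod_cast h1
          have h4 : M t (lam h 0 - D) ≤ M t L := M_mono t ht (by omega)
          have h5 : M t (lam g 0 + D) ≤ k * M t (lam g 0 - D) := by
            have h6 := M_le t ht ht1 (show lam g 0 - D ≤ lam g 0 + D by omega)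
            have h7 : (lam g 0 + D - (lam g 0 - D)).toNat = j := by rw [hj]; congr 1; ring
            rw [h7] at h6
            exact h6
          calc (S.num L C : ℝ) * μ (h • S.ball z₀ 0)
              ≤ (S.num L C : ℝ) * (k * M t (lam h 0 - D)) :=
                mul_le_mul_of_nonneg_left m2 (by positivity)
            _ = k * ((S.num L C : ℝ) * M t (lam h 0 - D)) := by ring
            _ ≤ k * ((S.num L C : ℝ) * M t L) := by gcongr
            _ ≤ k * M t (lam g 0 + D) := by gcongr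
            _ ≤ k * (k * M t (lam g 0 - D)) := by gcongr
            _ ≤ k * (k * μ C) := by gcongr
            _ = k ^ 2 * μ C := by ring
        · have h1 : S.num L C ≤ 1 := by
            have h2 : C ⊆ S.ball (g • z₀) L :=
              ((b3 g z₀ 0).2).trans (ball_sub (S.refl _ _) hcase.le)
            have h3 : S.num L C ≤ S.num L (S.ball (g • z₀) L) :=
              Set.ncard_le_ncard (Set.image_mono h2) (ball_fin hc _ le_rfl)
            rw [hc _ _ _ le_rfl] at h3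
            simpa using h3
          have h2 : (S.num L C : ℝ) ≤ 1 := by exact_mod_cast h1
          have h3 : μ (h • S.ball z₀ 0) ≤ μ C :=
            mu_mono hc hμ (b1 h _ (clo_ball z₀ 0)) (b1 g _ (clo_ball z₀ 0)) hsub
          have h4 : 1 ≤ k ^ 2 := one_le_pow₀ hk1
          nlinarith
      have hcard' : ((orb G C (h • S.ball z₀ 0)).ncard : ℝ) ≤ S.num L C * K1 := by
        exact_mod_cast hcard
      calc ((orb G C (h • S.ball z₀ 0)).ncard : ℝ) * μ (h • S.ball z₀ 0)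
          ≤ (S.num L C * K1) * μ (h • S.ball z₀ 0) :=
            mul_le_mul_of_nonneg_right hcard' hB0.le
        _ = K1 * ((S.num L C : ℝ) * μ (h • S.ball z₀ 0)) := by ring
        _ ≤ K1 * (k ^ 2 * μ C) := by gcongr
        _ = K1 * k ^ 2 * μ C := by ring
    · have horb : orb G (h • S.ball z₀ 0) (g • S.ball z₀ 0) ⊆
          fam S (lam g 0 - 19 * D) (h • z₀) (lam g 0 + 19 * D) := by
        rintro X ⟨u, hu, rfl⟩
        obtain ⟨f1, f2⟩ := stab_fam ht ht1 hc hA hμ z₀ g hu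
        refine ⟨f1, f2 _ ?_⟩
        have h1 : h • z₀ ∈ u • h • S.ball z₀ 0 := by rw [hu]; exact hmem h
        exact Set.smul_set_mono hsub h1
      have h1 := (Set.ncard_le_ncard horb (hfam g (h • z₀)).1).trans (hfam g (h • z₀)).2
      have h2 : ((orb G (h • S.ball z₀ 0) (g • S.ball z₀ 0)).ncard : ℝ) ≤ K1 := by
        exact_mod_cast h1
      have h3 : 1 ≤ k ^ 2 := one_le_pow₀ hk1
      nlinarith

end Pool.Agent.Helper190.RT
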