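import Pool.Agent.Helper190.RTExtremal
import Pool.Agent.Helper190.RTLower
import Pool.Agent.Helper190.RTUpper
import Pool.Agent.Helper190.RTCocycle
import Pool.Agent.Helper190.RTArith
import Pool.Agent.Helper190.RTTrans
import Pool.Agent.Helper190.RTDist
import Pool.Agent.Helper190.RTMu

/-! Assembly: there is no coarse similarity action. -/

set_option autoImplicit false

namespace Pool.Agent.Helper190.RT

variable {Z : Type*}

open Pointwise

theorem M_pos_f (t : ℤ → ℤ) (n : ℤ) : 0 < M t n := by unfold M; positivity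

theorem M_mono_f {t : ℤ → ℤ} (ht : Monotone t) {m n : ℤ} (h : m ≤ n) : M t m ≤ M t n := by
  unfold M
  apply mul_le_mul
  · exact zpow_le_zpow_right₀ (by norm_num) h
  · exact zpow_le_zpow_right₀ (by norm_num) (ht h)
  · positivity
  · positivity

/-- existence of the modular function -/
theorem exists_modular (S : Scale Z) (t : ℤ → ℤ) (ht : Monotone t) (ht1 : ∀ n, t (n + 1) ≤ t n + 1)
    (hc : S.Count t) {G : Type*} [Group G] [MulAction G Z] (lam : G → ℤ → ℤ) (D : ℤ)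
    (hA : Act S lam D) (μ : Set Z → ℝ) (hμ : IsMu S t μ) (z₀ : Z) :
    ∃ Δ : G → ℝ, (∀ g, 0 < Δ g) ∧ (∀ g h, Δ (g * h) = Δ g * Δ h) ∧ ∃ c : ℝ, 1 ≤ c ∧
      ∀ (g : G) z n, μ (g • S.ball z n) ≤ c * (Δ g * M t n) ∧
        Δ g * M t n ≤ c * μ (g • S.ball z n) := by
  obtain ⟨hb1, hb2, hb3, hb4, hb5, hb6⟩ := act_basic S t ht ht1 hc lam D hA μ hμ
  obtain ⟨hfin, c₁, hc₁, hup⟩ := orb_upper S t ht ht1 hc lam D hA μ hμ z₀
  obtain ⟨c₂, hc₂, hlow⟩ := orb_lower S t ht ht1 hc lam D hA μ hμ z₀ hfin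
  have hD := hA.hD
  set k₀ : ℝ := (6 : ℝ) ^ (2 * D).toNat with hk₀
  have hk₀1 : 1 ≤ k₀ := one_le_pow₀ (by norm_num)
  set B : G → Set Z := fun g => g • S.ball z₀ 0 with hB
  set P : Set (Set Z) := Set.range B with hP
  have hfinP : ∀ x ∈ P, ∀ y ∈ P, (orb G x y).Finite := by
    rintro _ ⟨g, rfl⟩ _ ⟨h, rfl⟩
    exact hfin g h
  obtain ⟨hcoc, hinv, hpos⟩ := orb_cocycle P hfinP
  have hμpos' : ∀ (g : G) z n, 0 < μ (g • S.ball z n) := by
    intro g z n
    obtain ⟨K, hK1, -, hK⟩ := hb4 g z n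
    rw [hK]
    have : (1 : ℝ) ≤ K := by exact_mod_cast hK1
    have := M_pos_f t (lam g n - D)
    positivity
  have hμpos : ∀ g, 0 < μ (B g) := fun g => hμpos' g z₀ 0
  set a : G → G → ℝ := fun g h => ((orb G (B g) (B h)).ncard : ℝ) with ha
  have ha1 : ∀ g h, 1 ≤ a g h := fun g h => by
    have := hpos (B g) ⟨g, rfl⟩ (B h) ⟨h, rfl⟩
    simp only [ha]
    exact_mod_cast this
  have ha0 : ∀ g h, 0 < a g h := fun g h => by linarith [ha1 g h]
  have hBmul : ∀ k g, B (k * g) = k • B g := fun k g => by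
    simp only [hB, mul_smul]
  have ha2 : ∀ k g h, a (k * g) (k * h) = a g h := fun k g h => by
    simp only [ha, hBmul, hinv]
  have ha3 : ∀ g h k, a g h * a h k * a k g = a h g * a k h * a g k := fun g h k => by
    have := hcoc (B g) ⟨g, rfl⟩ (B h) ⟨h, rfl⟩ (B k) ⟨k, rfl⟩
    simp only [ha]
    exact_mod_cast this
  -- nested comparison
  set c₀ := c₁ * c₁ * c₂ with hc₀
  have hc₀1 : 1 ≤ c₀ := by
    have : 1 ≤ c₁ * c₁ := by nlinarith
    rw [hc₀]; nlinarith
  have hnest : ∀ g h, B h ⊆ B g → a g h * μ (B h) ≤ c₀ * (a h g * μ (B g)) ∧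
      a h g * μ (B g) ≤ c₀ * (a g h * μ (B h)) := by
    intro g h hgh
    obtain ⟨h1, h2⟩ := hup g h hgh
    have h3 := hlow g h hgh
    have e1 : a g h * μ (B h) ≤ c₁ * μ (B g) := h1
    have e2 : a h g ≤ c₁ := h2
    have e3 : μ (B g) ≤ c₂ * (a g h * μ (B h)) := h3
    have p1 := ha1 h g
    have p2 := hμpos g
    have p3 := hμpos h
    have p4 := ha1 g h
    have hcc : c₁ ≤ c₀ := by
      have : 1 ≤ c₁ * c₂ := by nlinarith
      rw [hc₀]
      nlinarith
    have hcc2 : c₁ * c₂ ≤ c₀ := by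
      rw [hc₀]
      nlinarith [mul_pos (show 0 < c₁ by linarith) (show 0 < c₂ by linarith)]
    constructor
    · calc a g h * μ (B h) ≤ c₁ * μ (B g) := e1
        _ ≤ c₀ * μ (B g) := mul_le_mul_of_nonneg_right hcc p2.le
        _ ≤ c₀ * (a h g * μ (B g)) := by
          apply mul_le_mul_of_nonneg_left _ (by linarith)
          nlinarith
    · calc a h g * μ (B g) ≤ c₁ * (c₂ * (a g h * μ (B h))) := by
            apply mul_le_mul e2 e3 p2.le (by linarith)
        _ = c₁ * c₂ * (a g h * μ (B h)) := by ring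
        _ ≤ c₀ * (a g h * μ (B h)) := by
          apply mul_le_mul_of_nonneg_right hcc2
          have := ha0 g h
          positivity
  -- a big translate containing two given ones
  have hbig : ∀ g h, ∃ k, B g ⊆ B k ∧ B h ⊆ B k := by
    intro g h
    obtain ⟨n₁, hn₁⟩ := S.exh z₀ (g • z₀)
    obtain ⟨n₂, hn₂⟩ := S.exh z₀ (h • z₀)
    set N := max (max n₁ n₂) (max (lam g 0 + D) (lam h 0 + D)) with hN
    -- choose `R` with `M (-R)` tiny
    set ε : ℝ := M t (N - 2 * D) * M t 0 / (k₀ * k₀ * M t (N + D) * (3 : ℝ) ^ (t 0)) with hε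
    have hε0 : 0 < ε := by
      have := M_pos_f t (N - 2 * D)
      have := M_pos_f t 0
      have := M_pos_f t (N + D)
      positivity
    obtain ⟨R, hR⟩ := exists_pow_lt_of_lt_one hε0 (show (1 / 2 : ℝ) < 1 by norm_num)
    have hMR : M t (-(R : ℤ)) < ε * (3 : ℝ) ^ (t 0) := by
      unfold M
      have e1 : (2 : ℝ) ^ (-(R : ℤ)) = (1 / 2 : ℝ) ^ R := by
        rw [zpow_neg, zpow_natCast, one_div, inv_pow]
      have e2 : (3 : ℝ) ^ (t (-(R : ℤ))) ≤ (3 : ℝ) ^ (t 0) :=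
        zpow_le_zpow_right₀ (by norm_num) (ht (by omega))
      rw [e1]
      have p1 : (0 : ℝ) < (1 / 2) ^ R := by positivity
      have p2 : (0 : ℝ) < (3 : ℝ) ^ (t 0) := by positivity
      calc (1 / 2 : ℝ) ^ R * (3 : ℝ) ^ (t (-(R : ℤ))) ≤ (1 / 2 : ℝ) ^ R * (3 : ℝ) ^ (t 0) :=
            mul_le_mul_of_nonneg_left e2 p1.le
        _ < ε * (3 : ℝ) ^ (t 0) := mul_lt_mul_of_pos_right hR p2
    obtain ⟨k, hk1, hk2⟩ := hA.cob z₀ z₀ (-(R : ℤ)) N
    rw [abs_le] at hk2
    have hlam : N + D ≤ lam k 0 - D := by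
      by_contra hcon
      push Not at hcon
      have h1 := hb5 k z₀ (-(R : ℤ)) z₀ 0
      obtain ⟨K, hK1, hK2, hK⟩ := hb4 k z₀ (-(R : ℤ))
      obtain ⟨K', hK1', hK2', hK'⟩ := hb4 k z₀ 0
      rw [hK, hK'] at h1
      have p0 := M_pos_f t (-(R : ℤ))
      have p1 := M_pos_f t 0
      have p2 := M_pos_f t (N + D)
      have p3 := M_pos_f t (N - 2 * D)
      have m1 : M t (N - 2 * D) ≤ M t (lam k (-(R : ℤ)) - D) := M_mono_f ht (by omega)
      have m2 : M t (lam k 0 - D) ≤ M t (N + D) := M_mono_f ht hcon.le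
      have hK1r : (1 : ℝ) ≤ K := by exact_mod_cast hK1
      have hK2r : (K' : ℝ) ≤ k₀ := by
        rw [hk₀]; exact_mod_cast hK2'
      have l1 : M t (N - 2 * D) / M t (-(R : ℤ)) ≤
          (K : ℝ) * M t (lam k (-(R : ℤ)) - D) / M t (-(R : ℤ)) := by
        gcongr
        nlinarith [M_pos_f t (lam k (-(R : ℤ)) - D)]
      have l2 : (k₀ : ℝ) * ((K' : ℝ) * M t (lam k 0 - D) / M t 0) ≤
          k₀ * (k₀ * M t (N + D) / M t 0) := by
        gcongr
        exact (M_pos_f t (lam k 0 - D)).le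
      have l3 : M t (N - 2 * D) / M t (-(R : ℤ)) ≤ k₀ * (k₀ * M t (N + D) / M t 0) :=
        l1.trans (h1.trans l2)
      rw [div_le_iff₀ p0] at l3
      have l4 : M t (-(R : ℤ)) < M t (N - 2 * D) * M t 0 / (k₀ * k₀ * M t (N + D)) := by
        refine hMR.trans_le (le_of_eq ?_)
        rw [hε]
        have : (0 : ℝ) < (3 : ℝ) ^ (t 0) := by positivity
        field_simp
      rw [lt_div_iff₀ (by positivity)] at l4
      have l5 : k₀ * (k₀ * M t (N + D) / M t 0) * M t (-(R : ℤ)) < M t (N - 2 * D) := by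
        rw [show k₀ * (k₀ * M t (N + D) / M t 0) * M t (-(R : ℤ))
          = (M t (-(R : ℤ)) * (k₀ * k₀ * M t (N + D))) / M t 0 by ring]
        rw [div_lt_iff₀ p1]
        exact l4
      linarith
    have hsub : ∀ u : G, S.r N z₀ (u • z₀) → lam u 0 + D ≤ N → B u ⊆ B k := by
      intro u hu hu2 x hx
      apply (hb3 k z₀ 0).1
      have h1 := (hb3 u z₀ 0).2 hx
      show S.r (lam k 0 - D) (k • z₀) x
      have h2 : S.r N (u • z₀) x := S.mono _ _ hu2 _ _ h1
      have h3 : S.r N z₀ x := S.trans _ _ _ _ hu h2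
      exact S.mono _ _ hlam _ _ (S.trans _ _ _ _ hk1 (S.mono _ _ (by omega) _ _ h3))
    refine ⟨k, hsub g (S.mono _ _ ?_ _ _ hn₁) ?_, hsub h (S.mono _ _ ?_ _ _ hn₂) ?_⟩
    · exact (le_max_left _ _).trans (le_max_left _ _)
    · exact (le_max_left _ _).trans (le_max_right _ _)
    · exact (le_max_right _ _).trans (le_max_left _ _)
    · exact (le_max_right _ _).trans (le_max_right _ _)
  -- general comparison
  have hgen : ∀ g h, a g h * μ (B h) ≤ c₀ * c₀ * (a h g * μ (B g)) := by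
    intro g h
    obtain ⟨k, hkg, hkh⟩ := hbig g h
    have n1 := (hnest k g hkg).2
    have n2 := (hnest k h hkh).1
    have e := ha3 g h k
    have p := hμpos k
    have pg := hμpos g
    have ph := hμpos h
    have q1 := ha0 g h
    have q2 := ha0 h g
    have q3 := ha0 k g
    have q4 := ha0 g k
    have q5 := ha0 k h
    have q6 := ha0 h k
    -- multiply n1 and n2
    have h1 : (a g k * μ (B k)) * (a k h * μ (B h)) ≤
        (c₀ * (a k g * μ (B g))) * (c₀ * (a h k * μ (B k))) :=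
      mul_le_mul n1 n2 (by positivity) (by positivity)
    have h2 : (a h g * a g k * a k h * μ (B h)) * μ (B k) ≤
        (c₀ * c₀ * (a h g * a k g * a h k * μ (B g))) * μ (B k) := by
      nlinarith [mul_le_mul_of_nonneg_left h1 q2.le]
    have h3 := le_of_mul_le_mul_right h2 p
    have h4 : a h g * a g k * a k h = a g h * (a h k * a k g) := by linarith
    rw [h4] at h3
    have h5 : (a g h * μ (B h)) * (a h k * a k g) ≤
        (c₀ * c₀ * (a h g * μ (B g))) * (a h k * a k g) := by nlinarith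
    exact le_of_mul_le_mul_right h5 (by positivity)
  have hB1 : μ (B 1) = M t 0 := by
    simp only [hB, one_smul]
    exact hμ.1 z₀ 0
  refine ⟨fun g => a g 1 / a 1 g, fun g => div_pos (ha0 _ _) (ha0 _ _), ?_, k₀ * (c₀ * c₀), ?_, ?_⟩
  · intro g h
    have e := ha3 (g * h) g 1
    have e1 : a (g * h) g = a h 1 := by have := ha2 g h 1; rwa [mul_one] at this
    have e2 : a g (g * h) = a 1 h := by have := ha2 g 1 h; rwa [mul_one] at this
    rw [e1, e2] at e
    have q1 := ha0 1 (g * h)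
    have q2 := ha0 1 g
    have q3 := ha0 1 h
    show a (g * h) 1 / a 1 (g * h) = a g 1 / a 1 g * (a h 1 / a 1 h)
    rw [div_mul_div_comm, div_eq_div_iff q1.ne' (by positivity)]
    linarith
  · have : 1 ≤ c₀ * c₀ := by nlinarith
    nlinarith
  · intro g z n
    show μ (g • S.ball z n) ≤ k₀ * (c₀ * c₀) * (a g 1 / a 1 g * M t n) ∧
      a g 1 / a 1 g * M t n ≤ k₀ * (c₀ * c₀) * μ (g • S.ball z n)
    have g1 := hgen g 1
    have g2 := hgen 1 g
    rw [hB1] at g1 g2
    have f1 := hb5 g z n z₀ 0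
    have f2 := hb5 g z₀ 0 z n
    have p0 := M_pos_f t 0
    have pn := M_pos_f t n
    have q1 := ha0 g 1
    have q2 := ha0 1 g
    have r1 : μ (B g) / M t 0 ≤ c₀ * c₀ * (a g 1 / a 1 g) := by
      rw [div_le_iff₀ p0]
      have : c₀ * c₀ * (a g 1 / a 1 g) * M t 0 = c₀ * c₀ * (a g 1 * M t 0) / a 1 g := by ring
      rw [this, le_div_iff₀ q2]
      linarith
    have r2 : a g 1 / a 1 g ≤ c₀ * c₀ * (μ (B g) / M t 0) := by
      rw [div_le_iff₀ q2]
      have : c₀ * c₀ * (μ (B g) / M t 0) * a 1 g = c₀ * c₀ * (a 1 g * μ (B g)) / M t 0 := by ring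
      rw [this, le_div_iff₀ p0]
      linarith
    have e : μ (B g) = μ (g • S.ball z₀ 0) := rfl
    rw [e] at r1 r2
    constructor
    · have : μ (g • S.ball z n) / M t n ≤ k₀ * (c₀ * c₀ * (a g 1 / a 1 g)) :=
        f1.trans (mul_le_mul_of_nonneg_left r1 (by linarith))
      rw [div_le_iff₀ pn] at this
      linarith
    · have : a g 1 / a 1 g ≤ c₀ * c₀ * (k₀ * (μ (g • S.ball z n) / M t n)) :=
        r2.trans (mul_le_mul_of_nonneg_left f2 (by positivity))
      have h2 : c₀ * c₀ * (k₀ * (μ (g • S.ball z n) / M t n)) =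
          k₀ * (c₀ * c₀) * μ (g • S.ball z n) / M t n := by ring
      rw [h2, le_div_iff₀ pn] at this
      exact this

/-- there is no coarse similarity action on the model scale -/
theorem no_act {G : Type*} [Group G] [MulAction G ZZ] (lam : G → ℤ → ℤ) (D : ℤ)
    (hA : Act SS lam D) : False := by
  obtain ⟨μ, hμ⟩ := exists_mu SS tt tt_mono count_SS
  set z₀ : ZZ := ⟨(fun _ => 0, fun _ => 0), 0, fun _ _ => ⟨rfl, rfl⟩⟩ with hz₀
  obtain ⟨Δ, hΔ, hmul, c, hc1, hcomp⟩ :=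
    exists_modular SS tt tt_mono tt_step count_SS lam D hA μ hμ z₀
  have hlin := exists_linear SS tt tt_mono tt_step count_SS lam D hA μ hμ z₀ Δ hΔ hmul c hc1 hcomp
  obtain ⟨hb1, hb2, hb3, hb4, hb5, hb6⟩ :=
    act_basic SS tt tt_mono tt_step count_SS lam D hA μ hμ
  have hθ0 : 0 < θ₀ := by unfold θ₀; positivity
  have hD := hA.hD
  refine arith_false θ₀ theta_irr hθ0 (6 ^ (2 * D).toNat) (4 * D + 1) ?_
  intro I
  obtain ⟨k, z, n, r, hr0, hr1, hkn, hI⟩ := hlin (max I 1)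
  have hK : ∀ i : ℕ, ∃ K : ℕ, 1 ≤ K ∧ K ≤ 6 ^ (2 * D).toNat ∧
      μ ((k ^ i) • SS.ball z n) = K * M tt (lam (k ^ i) n - D) := fun i => hb4 (k ^ i) z n
  choose K hK1 hK2 hK3 using hK
  refine ⟨r, n, fun i => lam (k ^ i) n - D, K, hr0, hr1, ?_, ?_⟩
  · simp only [pow_one]
    rw [abs_le] at hkn ⊢
    constructor <;> omega
  · intro i hi
    refine ⟨hK1 i, hK2 i, ?_⟩
    have h1 := hI i (hi.trans (le_max_left _ _))
    rw [hK3 i] at h1
    unfold M at h1
    exact h1.symm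

end Pool.Agent.Helper190.RT
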