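import Pool.Agent.Helper190.RTLeaf

/-! Growth lemma: vertical lines go to coarsely vertical lines. -/

set_option autoImplicit false

namespace Pool.Agent.Helper190.RT

variable {Z : Type*}

theorem D2_nonneg {A : ℤ} (hA : 1 ≤ A) : 0 ≤ D2 A := by unfold D2; positivity

theorem D1_nonneg {A : ℤ} (hA : 1 ≤ A) : 0 ≤ D1 A := by
  unfold D1; have := D2_nonneg hA; omega

/-- constants -/
def E4 (A : ℤ) : ℤ := 3 * D1 A + 2 * A + 1
def T0 (A : ℤ) : ℤ := A * (E4 A + 1)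
def D5 (A : ℤ) : ℤ := 2 * A * T0 A + 1
def D6 (A : ℤ) : ℤ := D5 A + 2 * A

theorem E4_nonneg {A : ℤ} (hA : 1 ≤ A) : 0 ≤ E4 A := by
  unfold E4; have := D1_nonneg hA; omega

theorem T0_pos {A : ℤ} (hA : 1 ≤ A) : 1 ≤ T0 A := by
  unfold T0; have := E4_nonneg hA; nlinarith

theorem D5_nonneg {A : ℤ} (hA : 1 ≤ A) : 1 ≤ D5 A := by
  unfold D5; have := T0_pos hA; nlinarith

theorem vert_near (S : Scale Z) (z : Z) (w : W) {k k' : ℤ} (h : k ≤ k') :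
    near S (k' - k) (⟨k, z, w⟩ : Pt Z) ⟨k', z, w⟩ :=
  ⟨k', k, le_rfl, h, h, le_rfl, S.refl _ _, agree_refl _ _, le_rfl⟩

/-- `z`-parts along an initial part of a vertical line -/
theorem vert_r (S : Scale Z) (A : ℤ) (F : Pt Z → Pt Z) (hF : QI S A F) (z : Z) (w : W)
    (k₀ : ℤ) (m : ℤ) (T : ℕ) :
    (∀ j : ℕ, j ≤ T → (F ⟨k₀ + j, z, w⟩).lv ≤ m) →
    S.r (m + 2 * A) (F ⟨k₀, z, w⟩).z (F ⟨k₀ + T, z, w⟩).z := by
  induction T with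
  | zero => intro _; simpa using S.refl _ _
  | succ T ih =>
    intro h
    refine S.trans _ _ _ _ (ih (fun j hj => h j (by omega))) ?_
    have h1 : near S ((k₀ + (T + 1 : ℕ)) - (k₀ + T)) (⟨k₀ + T, z, w⟩ : Pt Z)
      ⟨k₀ + (T + 1 : ℕ), z, w⟩ := vert_near S z w (by push_cast; omega)
    have h2 := hF.1 _ _ _ h1
    apply near_r S h2
    have h3 := h T (by omega)
    have h4 : min (F ⟨k₀ + T, z, w⟩).lv (F ⟨k₀ + (T + 1 : ℕ), z, w⟩).lv ≤ m :=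
      (min_le_left _ _).trans h3
    have h5 : A * ((k₀ + ((T + 1 : ℕ) : ℤ)) - (k₀ + T)) + A = 2 * A := by push_cast; ring
    rw [h5]
    omega

theorem grow1 (S : Scale Z) (hS : S.FinCls) (hsp : S.Split) (A : ℤ) (hA : 1 ≤ A)
    (F : Pt Z → Pt Z) (hF : QI S A F) (z : Z) (w : W) (k₀ : ℤ) (T : ℕ) :
    ∃ k, k₀ ≤ k ∧ k ≤ k₀ + T ∧
      (T : ℤ) ≤ A * ((F ⟨k, z, w⟩).lv - (F ⟨k₀, z, w⟩).lv + E4 A) := by
  obtain ⟨k, hk, hmax⟩ := Finset.exists_max_image (Finset.Icc k₀ (k₀ + T))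
    (fun k => (F ⟨k, z, w⟩).lv) ⟨k₀, by rw [Finset.mem_Icc]; omega⟩
  rw [Finset.mem_Icc] at hk
  refine ⟨k, hk.1, hk.2, ?_⟩
  set m := (F ⟨k, z, w⟩).lv with hm
  obtain ⟨z', hz1, hz2⟩ := hsp z (k₀ + T)
  have hle : ∀ j : ℕ, j ≤ T → (F ⟨k₀ + j, z, w⟩).lv ≤ m := fun j hj =>
    hmax (k₀ + j) (by rw [Finset.mem_Icc]; omega)
  have hle' : ∀ j : ℕ, j ≤ T → (F ⟨k₀ + j, z', w⟩).lv ≤ m + D1 A := by
    intro j hj
    have h1 := hle j hj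
    have h2 := (leaf S hS A hA F hF (k₀ + j) z z' w).1
    rw [abs_le] at h2
    omega
  have h1 := vert_r S A F hF z w k₀ m T hle
  have h2 := vert_r S A F hF z' w k₀ (m + D1 A) T hle'
  have h3 : near S 0 (⟨k₀ + T, z, w⟩ : Pt Z) ⟨k₀ + T, z', w⟩ :=
    ⟨k₀ + T, k₀ + T, le_rfl, le_rfl, le_rfl, le_rfl, hz1, agree_refl _ _, by omega⟩
  have h4 := hF.1 _ _ _ h3
  have hD1 := D1_nonneg hA
  have h5 : S.r (m + D1 A + 2 * A) (F ⟨k₀ + T, z, w⟩).z (F ⟨k₀ + T, z', w⟩).z := by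
    apply near_r S h4
    have := hle T le_rfl
    have h6 : min (F ⟨k₀ + T, z, w⟩).lv (F ⟨k₀ + T, z', w⟩).lv ≤ m := (min_le_left _ _).trans this
    omega
  have h6 : S.r (m + D1 A + 2 * A) (F ⟨k₀, z, w⟩).z (F ⟨k₀, z', w⟩).z := by
    refine S.trans _ _ _ _ (S.mono _ _ (by omega) _ _ h1) (S.trans _ _ _ _ h5 (S.symm _ _ _ h2))
  obtain ⟨hl1, hl2⟩ := leaf S hS A hA F hF k₀ z z' w
  have hy : (F ⟨k₀, z, w⟩).lv ≤ m := by have := hle 0 (by omega); simpa using this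
  have hy' : (F ⟨k₀, z', w⟩).lv ≤ m + D1 A := by have := hle' 0 (by omega); simpa using this
  rw [abs_le] at hl1
  have h7 : near S (m - (F ⟨k₀, z, w⟩).lv + 3 * D1 A + 2 * A) (F ⟨k₀, z, w⟩) (F ⟨k₀, z', w⟩) :=
    ⟨m + D1 A + 2 * A, min (F ⟨k₀, z, w⟩).lv (F ⟨k₀, z', w⟩).lv - D1 A, by omega, by omega,
      by omega, by omega, h6, hl2, by omega⟩
  obtain ⟨H, L, g1, g2, g3, g4, g5, g6, g7⟩ := hF.2 _ _ _ h7
  simp only at g1 g2 g3 g4 g5 g6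
  have hH : k₀ + T ≤ H := by
    by_contra hcon
    exact hz2 (S.mono _ _ (by omega) _ _ g5)
  have : (T : ℤ) ≤ A * (m - (F ⟨k₀, z, w⟩).lv + 3 * D1 A + 2 * A) + A := by omega
  unfold E4
  nlinarith

theorem grow (S : Scale Z) (hS : S.FinCls) (hsp : S.Split) (A : ℤ) (hA : 1 ≤ A)
    (F : Pt Z → Pt Z) (hF : QI S A F) (z : Z) (w : W) : ∀ (N : ℕ) (k₀ k : ℤ), k₀ ≤ k → k - k₀ ≤ N →
    k - k₀ ≤ T0 A * ((F ⟨k, z, w⟩).lv - (F ⟨k₀, z, w⟩).lv + D5 A) := by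
  have hT0 := T0_pos hA
  intro N
  induction N with
  | zero =>
    intro k₀ k h1 h2
    have : k = k₀ := by push_cast at h2; omega
    subst this
    have := D5_nonneg hA
    nlinarith
  | succ N ih =>
    intro k₀ k h1 h2
    by_cases h : k - k₀ ≤ T0 A
    · have h3 := near_lv S (hF.1 _ _ _ (vert_near S z w h1))
      rw [abs_le] at h3
      have h4 : A * (k - k₀) + A ≤ 2 * A * T0 A := by nlinarith
      have h5 : 1 ≤ (F ⟨k, z, w⟩).lv - (F ⟨k₀, z, w⟩).lv + D5 A := by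
        unfold D5; omega
      nlinarith
    · push Not at h
      obtain ⟨k₁, h3, h4, h5⟩ := grow1 S hS hsp A hA F hF z w k₀ (T0 A).toNat
      rw [Int.toNat_of_nonneg (by omega)] at h4 h5
      have h6 : (F ⟨k₀, z, w⟩).lv + 1 ≤ (F ⟨k₁, z, w⟩).lv := by
        have h7 : A * (E4 A + 1) ≤ A * ((F ⟨k₁, z, w⟩).lv - (F ⟨k₀, z, w⟩).lv + E4 A) := by
          have : T0 A = A * (E4 A + 1) := rfl
          rw [← this]; exact h5
        have := le_of_mul_le_mul_left h7 (by omega)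
        omega
      have hne : k₁ ≠ k₀ := by
        rintro rfl
        omega
      have h8 := ih k₁ k (by omega) (by push_cast at h2; omega)
      have h9 : T0 A * ((F ⟨k, z, w⟩).lv - (F ⟨k₁, z, w⟩).lv + D5 A) ≤
          T0 A * ((F ⟨k, z, w⟩).lv - (F ⟨k₀, z, w⟩).lv - 1 + D5 A) := by
        apply mul_le_mul_of_nonneg_left _ (by omega)
        omega
      have h10 : T0 A * ((F ⟨k, z, w⟩).lv - (F ⟨k₀, z, w⟩).lv - 1 + D5 A)
          = T0 A * ((F ⟨k, z, w⟩).lv - (F ⟨k₀, z, w⟩).lv + D5 A) - T0 A := by ring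
      omega

theorem growth (S : Scale Z) (hS : S.FinCls) (hsp : S.Split) (A : ℤ) (hA : 1 ≤ A)
    (F : Pt Z → Pt Z) (hF : QI S A F) (z : Z) (w : W) {k₀ k : ℤ} (h : k₀ ≤ k) :
    k - k₀ ≤ T0 A * ((F ⟨k, z, w⟩).lv - (F ⟨k₀, z, w⟩).lv + D5 A) :=
  grow S hS hsp A hA F hF z w (k - k₀).toNat k₀ k h (by omega)

theorem lv_mono (S : Scale Z) (hS : S.FinCls) (hsp : S.Split) (A : ℤ) (hA : 1 ≤ A)
    (F : Pt Z → Pt Z) (hF : QI S A F) (z : Z) (w : W) {k₀ k : ℤ} (h : k₀ ≤ k) :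
    (F ⟨k₀, z, w⟩).lv ≤ (F ⟨k, z, w⟩).lv + D5 A := by
  have h1 := growth S hS hsp A hA F hF z w h
  by_contra hcon
  have : T0 A * ((F ⟨k, z, w⟩).lv - (F ⟨k₀, z, w⟩).lv + D5 A) ≤ T0 A * (-1) := by
    apply mul_le_mul_of_nonneg_left _ (by have := T0_pos hA; omega)
    omega
  have := T0_pos hA
  omega

/-- stability of the `z`-parts -/
theorem z_stable (S : Scale Z) (hS : S.FinCls) (hsp : S.Split) (A : ℤ) (hA : 1 ≤ A)
    (F : Pt Z → Pt Z) (hF : QI S A F) (z : Z) (w : W) {k₀ k : ℤ} (h : k₀ ≤ k) :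
    S.r ((F ⟨k, z, w⟩).lv + D6 A) (F ⟨k₀, z, w⟩).z (F ⟨k, z, w⟩).z := by
  have h1 := vert_r S A F hF z w k₀ ((F ⟨k, z, w⟩).lv + D5 A) (k - k₀).toNat (by
    intro j hj
    exact lv_mono S hS hsp A hA F hF z w (by omega))
  rw [Int.toNat_of_nonneg (by omega)] at h1
  have e : k₀ + (k - k₀) = k := by ring
  rw [e] at h1
  have e2 : (F ⟨k, z, w⟩).lv + D6 A = (F ⟨k, z, w⟩).lv + D5 A + 2 * A := by unfold D6; ring
  rw [e2]
  exact h1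

/-- levels tend to minus infinity downwards -/
theorem lv_tendsto (S : Scale Z) (hS : S.FinCls) (hsp : S.Split) (A : ℤ) (hA : 1 ≤ A)
    (F : Pt Z → Pt Z) (hF : QI S A F) (z : Z) (w : W) (m : ℤ) :
    ∃ k₀ : ℤ, ∀ k ≤ k₀, (F ⟨k, z, w⟩).lv ≤ m := by
  have hT0 := T0_pos hA
  refine ⟨min 0 (-(T0 A * ((F ⟨0, z, w⟩).lv + D5 A - m))), fun k hk => ?_⟩
  have h1 := growth S hS hsp A hA F hF z w (show k ≤ 0 by omega)
  have h2 : T0 A * ((F ⟨0, z, w⟩).lv + D5 A - m) ≤ T0 A * ((F ⟨0, z, w⟩).lv - (F ⟨k, z, w⟩).lv + D5 A) := by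
    omega
  have := le_of_mul_le_mul_left h2 (by omega)
  omega

end Pool.Agent.Helper190.RT
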