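import Pool.Agent.Helper190.RTFinal

/-! Main theorem for MP_d1d9c5. -/

set_option autoImplicit false

namespace Pool.Agent.Helper190.RT

open Pointwise

theorem finCls_SS : SS.FinCls := by
  intro z m n
  have key : ∀ z m n, m ≤ n → ((Quotient.mk (SS.st m)) '' (SS.ball z n)).Finite := by
    intro z m n hmn
    apply Set.finite_of_ncard_pos
    have := count_SS z m n hmn
    unfold Scale.num at this
    rw [this]
    positivity
  rcases le_total m n with h | h
  · exact key z m n h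
  · refine (key z m m le_rfl).subset (Set.image_mono ?_)
    intro x hx
    exact SS.mono _ _ h _ _ hx

theorem split_SS : SS.Split := by
  intro z n
  by_contra hcon
  push Not at hcon
  have h1 := count_SS z (n - 1) n (by omega)
  have h2 : (Quotient.mk (SS.st (n - 1))) '' (SS.ball z n) = {Quotient.mk (SS.st (n - 1)) z} := by
    ext c
    constructor
    · rintro ⟨x, hx, rfl⟩
      exact Quotient.sound (SS.symm _ _ _ (hcon x hx))
    · rintro rfl
      exact ⟨z, SS.refl _ _, rfl⟩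
  unfold Scale.num at h1
  rw [h2, Set.ncard_singleton] at h1
  have h3 : (n - (n - 1)).toNat = 1 := by omega
  rw [h3] at h1
  have : 0 < 3 ^ (tt n - tt (n - 1)).toNat := by positivity
  omega

/-- a coarse quasi-action with cobounded orbits does not exist -/
theorem no_fam (A : ℤ) {G : Type*} [Group G] (F : G → Pt ZZ → Pt ZZ) (hF : Fam SS A F) : False := by
  let _ := bdAction SS finCls_SS split_SS SS_complete SS_sep hF
  exact no_act _ _ (bd_act SS finCls_SS split_SS SS_complete SS_sep hF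
    ⟨(fun _ => 0, fun _ => 0), 0, fun _ _ => ⟨rfl, rfl⟩⟩)

instance : Nonempty ZZ := ⟨⟨(fun _ => 0, fun _ => 0), 0, fun _ _ => ⟨rfl, rfl⟩⟩⟩

instance : Infinite (Pt ZZ) :=
  Infinite.of_injective (fun n : ℕ => (⟨(n : ℤ), Classical.arbitrary ZZ, w0⟩ : Pt ZZ)) (by
    intro a b h
    simpa using congrArg Pt.lv h)

/-- the graph -/
noncomputable def GG : SimpleGraph (Pt ZZ) := graph SS

theorem GG_near (x y : Pt ZZ) : near SS (GG.dist x y) x y := near_dist SS x y

theorem GG_dist {r : ℤ} {x y : Pt ZZ} (h : near SS r x y) : (GG.dist x y : ℤ) ≤ 3 * r + 2 :=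
  dist_le SS h

/-- `f` satisfies the rough isometry conditions with constant `K` from the graph to a metric space -/
theorem not_homogeneous (Y : Type*) [MetricSpace Y] (hY : ∀ y y' : Y, ∃ g : Y ≃ᵢ Y, g y = y')
    (K : ℝ) (hK : 0 < K) (f : Pt ZZ → Y)
    (h1 : ∀ x y, K⁻¹ * dist (f x) (f y) - K ≤ (GG.dist x y : ℝ))
    (h2 : ∀ x y, (GG.dist x y : ℝ) ≤ K * dist (f x) (f y) + K)
    (h3 : ∀ y, ∃ x, dist (f x) y < K) : False := by
  have h1' : ∀ x y, dist (f x) (f y) ≤ K * (GG.dist x y : ℝ) + K ^ 2 := by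
    intro x y
    have := h1 x y
    have e : K⁻¹ * dist (f x) (f y) ≤ (GG.dist x y : ℝ) + K := by linarith
    have := mul_le_mul_of_nonneg_left e hK.le
    rw [← mul_assoc, mul_inv_cancel₀ hK.ne', one_mul] at this
    nlinarith
  have hF : ∀ (g : Y ≃ᵢ Y) (x : Pt ZZ), ∃ x', dist (f x') (g (f x)) < K := fun g x => h3 _
  choose F hF using hF
  set A : ℤ := ⌈K ^ 3 + 7 * K ^ 2 + K + 1⌉ with hA
  have hA1 : K ^ 3 + 7 * K ^ 2 + K + 1 ≤ (A : ℝ) := Int.le_ceil _
  have hA2 : 1 ≤ A := by
    have : (0 : ℝ) < K ^ 3 + 7 * K ^ 2 + K := by positivity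
    have : (1 : ℝ) ≤ (A : ℝ) := by linarith
    exact_mod_cast this
  have hK2 : 0 < K ^ 2 := by positivity
  have hK3 : 0 < K ^ 3 := by positivity
  have bound : ∀ (p q : Pt ZZ), (GG.dist p q : ℝ) ≤ A → near SS A p q := by
    intro p q h
    refine near_mono SS (GG_near p q) ?_
    exact_mod_cast h
  refine no_fam A F ⟨hA2, ?_, ?_, ?_, ?_⟩
  · intro g
    have key : ∀ (a b c d : Pt ZZ) (r : ℤ), near SS r a b →
        dist (f c) (f d) ≤ dist (f a) (f b) + 2 * K → near SS (A * r + A) c d := by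
      intro a b c d r h hd
      have hr : (0 : ℝ) ≤ r := by exact_mod_cast near_nonneg SS h
      have e1 : (GG.dist a b : ℝ) ≤ 3 * r + 2 := by exact_mod_cast GG_dist h
      have e2 := h1' a b
      have e3 := h2 c d
      have e4 : K * (GG.dist a b : ℝ) ≤ K * (3 * r + 2) := mul_le_mul_of_nonneg_left e1 hK.le
      have e5 : K * dist (f c) (f d) ≤ K * (K * (3 * r + 2) + K ^ 2 + 2 * K) :=
        mul_le_mul_of_nonneg_left (by linarith) hK.le
      have e6 : (GG.dist c d : ℝ) ≤ 3 * K ^ 2 * r + (K ^ 3 + 4 * K ^ 2 + K) := by nlinarith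
      have e7 : 3 * K ^ 2 * (r : ℝ) ≤ A * r := mul_le_mul_of_nonneg_right (by nlinarith) hr
      have e8 : (GG.dist c d : ℝ) ≤ ((A * r + A : ℤ) : ℝ) := by
        push_cast
        nlinarith
      refine near_mono SS (GG_near c d) ?_
      exact_mod_cast e8
    constructor
    · intro x y r h
      apply key x y _ _ r h
      have t1 := hF g x
      have t2 := hF g y
      have t3 : dist (g (f x)) (g (f y)) = dist (f x) (f y) := g.dist_eq _ _
      have t4 := dist_triangle4 (f (F g x)) (g (f x)) (g (f y)) (f (F g y))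
      rw [dist_comm (g (f y)) (f (F g y))] at t4
      linarith
    · intro x y r h
      apply key _ _ x y r h
      have t1 := hF g x
      have t2 := hF g y
      have t3 : dist (g (f x)) (g (f y)) = dist (f x) (f y) := g.dist_eq _ _
      have t4 := dist_triangle4 (g (f x)) (f (F g x)) (f (F g y)) (g (f y))
      rw [dist_comm (g (f x)) (f (F g x))] at t4
      linarith
  · intro g h p
    apply bound
    have t1 := hF g (F h p)
    have t2 := hF h p
    have t3 := hF (g * h) p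
    have t4 : dist (g (f (F h p))) (g (h (f p))) = dist (f (F h p)) (h (f p)) := g.dist_eq _ _
    have t5 : (g * h) (f p) = g (h (f p)) := rfl
    rw [t5] at t3
    have t6 := dist_triangle4 (f (F g (F h p))) (g (f (F h p))) (g (h (f p))) (f (F (g * h) p))
    rw [dist_comm (g (h (f p))) (f (F (g * h) p))] at t6
    have t7 := h2 (F g (F h p)) (F (g * h) p)
    have t8 : K * dist (f (F g (F h p))) (f (F (g * h) p)) ≤ K * (3 * K) :=
      mul_le_mul_of_nonneg_left (by linarith) hK.le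
    nlinarith
  · intro p
    apply bound
    have t1 := hF 1 p
    have t5 : (1 : Y ≃ᵢ Y) (f p) = f p := rfl
    rw [t5] at t1
    have t7 := h2 (F 1 p) p
    have t8 : K * dist (f (F 1 p)) (f p) ≤ K * K := mul_le_mul_of_nonneg_left t1.le hK.le
    nlinarith
  · intro p q
    obtain ⟨g, hg⟩ := hY (f p) (f q)
    refine ⟨g, bound _ _ ?_⟩
    have t1 := hF g p
    rw [hg] at t1
    have t7 := h2 (F g p) q
    have t8 : K * dist (f (F g p)) (f q) ≤ K * K := mul_le_mul_of_nonneg_left t1.le hK.le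
    nlinarith

/-- rough transitivity -/
theorem roughly_transitive : ∃ C : ℝ, 0 < C ∧ ∀ x y : Pt ZZ, ∃ f : Pt ZZ → Pt ZZ,
    (∀ a b, C⁻¹ * (GG.dist (f a) (f b) : ℝ) - C ≤ (GG.dist a b : ℝ)) ∧
    (∀ a b, (GG.dist a b : ℝ) ≤ C * (GG.dist (f a) (f b) : ℝ) + C) ∧
    (∀ b, ∃ a, (GG.dist (f a) b : ℝ) < C) ∧ f x = y := by
  obtain ⟨s, hs, hF⟩ := rough_trans
  have hsr : (0 : ℝ) ≤ s := by exact_mod_cast hs
  refine ⟨3 * s + 3, by positivity, fun x y => ?_⟩
  obtain ⟨F, hF1, hF2, hF3⟩ := hF x y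
  refine ⟨F, ?_, ?_, ?_, hF1⟩
  · intro a b
    have e1 : (GG.dist (F a) (F b) : ℝ) ≤ 3 * (GG.dist a b : ℝ) + 2 := by
      exact_mod_cast GG_dist (hF2 a b _ (GG_near a b))
    have e0 : (0 : ℝ) ≤ (GG.dist a b : ℝ) := Nat.cast_nonneg _
    have hC : (0 : ℝ) < 3 * s + 3 := by positivity
    rw [sub_le_iff_le_add, inv_mul_le_iff₀ hC]
    nlinarith
  · intro a b
    have e1 : (GG.dist a b : ℝ) ≤ 3 * ((GG.dist (F a) (F b) : ℝ) + s) + 2 := by
      exact_mod_cast GG_dist (hF3 a b _ (GG_near (F a) (F b)))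
    have e0 : (0 : ℝ) ≤ (GG.dist (F a) (F b) : ℝ) := Nat.cast_nonneg _
    nlinarith
  · intro b
    refine ⟨F.symm b, ?_⟩
    rw [Equiv.apply_symm_apply, SimpleGraph.dist_self]
    push_cast
    positivity

end Pool.Agent.Helper190.RT
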