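import Pool.Agent.Helper190.RTBd

set_option autoImplicit false

namespace Pool.Agent.Helper190.RT

variable {Z : Type*}

open Pointwise
/-- pairs of a binary and a ternary sequence, vanishing far to the right -/
def ZZ : Type := {p : (ℤ → Fin 2) × (ℤ → Fin 3) // ∃ N : ℤ, ∀ h > N, p.1 h = 0 ∧ p.2 h = 0}

/-- slope of the Sturmian sequence -/
noncomputable def θ₀ : ℝ := 1 / Real.sqrt 2

noncomputable def tt (n : ℤ) : ℤ := ⌊(n : ℝ) * θ₀⌋

theorem tt_mono : Monotone tt := by
  intro a b h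
  unfold tt θ₀
  apply Int.floor_le_floor
  have : (a : ℝ) ≤ b := by exact_mod_cast h
  gcongr

/-- the scale structure on `ZZ` -/
noncomputable def SS : Scale ZZ where
  r n x y := (∀ h > n, x.1.1 h = y.1.1 h) ∧ (∀ i > tt n, x.1.2 i = y.1.2 i)
  refl n x := ⟨fun _ _ => rfl, fun _ _ => rfl⟩
  symm n x y h := ⟨fun k hk => (h.1 k hk).symm, fun k hk => (h.2 k hk).symm⟩
  trans n x y z h h' := ⟨fun k hk => (h.1 k hk).trans (h'.1 k hk),
    fun k hk => (h.2 k hk).trans (h'.2 k hk)⟩
  mono m n hmn x y h := ⟨fun k hk => h.1 k (lt_of_le_of_lt hmn hk),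
    fun k hk => h.2 k (lt_of_le_of_lt (tt_mono hmn) hk)⟩
  exh x y := by
    obtain ⟨N, hN⟩ := x.2
    obtain ⟨N', hN'⟩ := y.2
    obtain ⟨n, hn⟩ := exists_nat_gt (((max (max N N') 0 + 1 : ℤ) : ℝ) / θ₀)
    have hθ : 0 < θ₀ := by unfold θ₀; positivity
    have hθ1 : θ₀ ≤ 1 := by
      unfold θ₀
      rw [div_le_one (by positivity)]
      have := Real.one_lt_sqrt_two
      linarith
    have hnn : ((max (max N N') 0 + 1 : ℤ) : ℝ) < n * θ₀ := by
      rwa [div_lt_iff₀ hθ] at hn
    have h1 : max (max N N') 0 + 1 ≤ tt n := by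
      unfold tt
      rw [Int.le_floor]
      push_cast at hnn ⊢
      exact hnn.le
    have h2 : tt n ≤ n := by
      unfold tt
      have : (n : ℝ) * θ₀ ≤ n := by
        have : (0 : ℝ) ≤ n := Nat.cast_nonneg n
        nlinarith
      have h3 : (⌊((n : ℤ) : ℝ) * θ₀⌋ : ℝ) ≤ ((n : ℤ) : ℝ) := by
        refine (Int.floor_le _).trans ?_
        push_cast
        exact this
      exact_mod_cast h3
    refine ⟨n, fun k hk => ?_, fun k hk => ?_⟩
    · rw [(hN k (by omega)).1, (hN' k (by omega)).1]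
    · rw [(hN k (by omega)).2, (hN' k (by omega)).2]

theorem theta_pos : 0 < θ₀ := by unfold θ₀; positivity

theorem theta_le_one : θ₀ ≤ 1 := by
  unfold θ₀
  rw [div_le_one (by positivity)]
  exact Real.one_lt_sqrt_two.le

theorem tt_zero : tt 0 = 0 := by
  unfold tt; simp

theorem exists_tt_lt (i : ℤ) : ∃ j : ℕ, tt (-(j : ℤ)) < i := by
  obtain ⟨j, hj⟩ := exists_nat_gt ((-(i : ℝ)) / θ₀)
  refine ⟨j, ?_⟩
  rw [div_lt_iff₀ theta_pos] at hj
  unfold tt
  rw [Int.floor_lt]
  push_cast
  linarith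

theorem tt_step (n : ℤ) : tt (n + 1) ≤ tt n + 1 := by
  unfold tt
  rw [← Int.floor_add_one]
  apply Int.floor_le_floor
  push_cast
  have := theta_le_one
  nlinarith

theorem theta_irr : Irrational θ₀ := by
  unfold θ₀
  rw [one_div]
  exact irrational_sqrt_two.inv

/-- build a point from its digits between the levels `m` and `n` -/
noncomputable def build (z : ZZ) (m n : ℤ)
    (ab : (↥(Finset.Ioc m n) → Fin 2) × (↥(Finset.Ioc (tt m) (tt n)) → Fin 3)) : ZZ :=
  ⟨(fun h => if hh : h ∈ Finset.Ioc m n then ab.1 ⟨h, hh⟩ else if n < h then z.1.1 h else 0,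
    fun i => if hi : i ∈ Finset.Ioc (tt m) (tt n) then ab.2 ⟨i, hi⟩
      else if tt n < i then z.1.2 i else 0), by
    obtain ⟨N, hN⟩ := z.2
    refine ⟨max N (max n (tt n)), fun h hh => ⟨?_, ?_⟩⟩
    · have h1 : h ∉ Finset.Ioc m n := by rw [Finset.mem_Ioc]; omega
      simp only [h1, dite_false]
      rw [if_pos (by omega)]
      exact (hN h (by omega)).1
    · have h1 : h ∉ Finset.Ioc (tt m) (tt n) := by rw [Finset.mem_Ioc]; omega
      simp only [h1, dite_false]
      rw [if_pos (by omega)]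
      exact (hN h (by omega)).2⟩

theorem count_SS : SS.Count tt := by
  intro z m n hmn
  have htt := tt_mono hmn
  unfold Scale.num
  set g : (↥(Finset.Ioc m n) → Fin 2) × (↥(Finset.Ioc (tt m) (tt n)) → Fin 3) →
    Quotient (SS.st m) := fun ab => Quotient.mk (SS.st m) (build z m n ab) with hg
  have hinj : Function.Injective g := by
    intro ab ab' h
    have h1 : SS.r m (build z m n ab) (build z m n ab') := Quotient.exact h
    obtain ⟨h2, h3⟩ := h1
    refine Prod.ext ?_ ?_
    · funext ⟨h, hh⟩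
      have := h2 h (Finset.mem_Ioc.mp hh).1
      simp only [build, hh, dite_true] at this
      exact this
    · funext ⟨i, hi⟩
      have := h3 i (Finset.mem_Ioc.mp hi).1
      simp only [build, hi, dite_true] at this
      exact this
  have hrange : (Quotient.mk (SS.st m)) '' (SS.ball z n) = g '' Set.univ := by
    ext q
    constructor
    · rintro ⟨x, hx, rfl⟩
      refine ⟨(fun h => x.1.1 h, fun i => x.1.2 i), Set.mem_univ _, ?_⟩
      refine Quotient.sound ?_
      have hx' : SS.r n z x := hx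
      refine (⟨fun h hh => ?_, fun i hi => ?_⟩ : SS.r m _ _)
      · by_cases h1 : h ∈ Finset.Ioc m n
        · simp only [build, h1, dite_true]
        · simp only [build, h1, dite_false]
          rw [Finset.mem_Ioc] at h1
          rw [if_pos (by omega)]
          exact hx'.1 h (by omega)
      · by_cases h1 : i ∈ Finset.Ioc (tt m) (tt n)
        · simp only [build, h1, dite_true]
        · simp only [build, h1, dite_false]
          rw [Finset.mem_Ioc] at h1
          rw [if_pos (by omega)]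
          exact hx'.2 i (by omega)
    · rintro ⟨ab, -, rfl⟩
      refine ⟨build z m n ab, ?_, rfl⟩
      refine (⟨fun h hh => ?_, fun i hi => ?_⟩ : SS.r n z _)
      · have h1 : h ∉ Finset.Ioc m n := by rw [Finset.mem_Ioc]; omega
        simp only [build, h1, dite_false]
        rw [if_pos (by omega)]
      · have h1 : i ∉ Finset.Ioc (tt m) (tt n) := by rw [Finset.mem_Ioc]; omega
        simp only [build, h1, dite_false]
        rw [if_pos (by omega)]
  rw [hrange, Set.ncard_image_of_injective _ hinj, Set.ncard_univ, Nat.card_eq_fintype_card]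
  simp only [Fintype.card_prod, Fintype.card_fun, Fintype.card_fin, Fintype.card_coe, Int.card_Ioc]

theorem r_chain (ζ : ℕ → ZZ) (h : ∀ j : ℕ, SS.r (-(j : ℤ)) (ζ j) (ζ (j + 1))) (j k : ℕ)
    (hjk : j ≤ k) : SS.r (-(j : ℤ)) (ζ j) (ζ k) := by
  induction k, hjk using Nat.le_induction with
  | base => exact SS.refl _ _
  | succ k hk ih =>
    exact SS.trans _ _ _ _ ih (SS.mono _ _ (by omega) _ _ (h k))

/-- completeness -/
theorem SS_complete (ζ : ℕ → ZZ) (h : ∀ j : ℕ, SS.r (-(j : ℤ)) (ζ j) (ζ (j + 1))) :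
    ∃ z, ∀ j : ℕ, SS.r (-(j : ℤ)) (ζ j) z := by
  choose J hJ using exists_tt_lt
  have hA : ∀ (j : ℕ) (x : ℤ), -(j : ℤ) < x → (ζ (1 - x).toNat).1.1 x = (ζ j).1.1 x := by
    intro j x hx
    have h1 := (r_chain ζ h (1 - x).toNat (max (1 - x).toNat j) (le_max_left _ _)).1 x (by omega)
    have h2 := (r_chain ζ h j (max (1 - x).toNat j) (le_max_right _ _)).1 x hx
    rw [h1, h2]
  have hB : ∀ (j : ℕ) (x : ℤ), tt (-(j : ℤ)) < x → (ζ (J x)).1.2 x = (ζ j).1.2 x := by
    intro j x hx
    have h1 := (r_chain ζ h (J x) (max (J x) j) (le_max_left _ _)).2 x (hJ x)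
    have h2 := (r_chain ζ h j (max (J x) j) (le_max_right _ _)).2 x hx
    rw [h1, h2]
  obtain ⟨N, hN⟩ := (ζ 0).2
  refine ⟨⟨(fun x => (ζ (1 - x).toNat).1.1 x, fun x => (ζ (J x)).1.2 x), max N 0,
    fun x hx => ⟨?_, ?_⟩⟩, fun j => ⟨fun x hx => ?_, fun x hx => ?_⟩⟩
  · simp only
    rw [hA 0 x (by simp; omega)]
    exact (hN x (by omega)).1
  · simp only
    rw [hB 0 x (by simp [tt_zero]; omega)]
    exact (hN x (by omega)).2
  · exact (hA j x hx).symm
  · exact (hB j x hx).symm

theorem SS_sep (x y : ZZ) (h : ∀ j : ℕ, SS.r (-(j : ℤ)) x y) : x = y := by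
  apply Subtype.ext
  refine Prod.ext ?_ ?_
  · funext k
    exact (h (1 - k).toNat).1 k (by omega)
  · funext k
    obtain ⟨j, hj⟩ := exists_tt_lt k
    exact (h j).2 k hj

end Pool.Agent.Helper190.RT
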