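import Pool.Agent.Helper190.RTDefs

/-! Basic facts on the coarse distance `near`, pigeonhole lemmas. -/

set_option autoImplicit false

namespace Pool.Agent.Helper190.RT

variable {Z : Type*}

theorem agree_refl (n : ℤ) (w : W) : agree n w w := fun _ _ => rfl

theorem agree_symm {n : ℤ} {w w' : W} (h : agree n w w') : agree n w' w :=
  fun k hk => (h k hk).symm

theorem agree_trans {n : ℤ} {w w' w'' : W} (h : agree n w w') (h' : agree n w' w'') :
    agree n w w'' := fun k hk => (h k hk).trans (h' k hk)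

theorem agree_mono {n m : ℤ} {w w' : W} (h : agree m w w') (hn : n ≤ m) : agree n w w' :=
  fun k hk => h k (hk.trans hn)

theorem near_symm (S : Scale Z) {r : ℤ} {x y : Pt Z} (h : near S r x y) : near S r y x := by
  obtain ⟨H, L, h1, h2, h3, h4, h5, h6, h7⟩ := h
  exact ⟨H, L, h2, h1, h4, h3, S.symm _ _ _ h5, agree_symm h6, h7⟩

theorem near_refl (S : Scale Z) (x : Pt Z) : near S 0 x x :=
  ⟨x.lv, x.lv, le_rfl, le_rfl, le_rfl, le_rfl, S.refl _ _, agree_refl _ _, by omega⟩

theorem near_mono (S : Scale Z) {r r' : ℤ} {x y : Pt Z} (h : near S r x y) (hr : r ≤ r') :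
    near S r' x y := by
  obtain ⟨H, L, h1, h2, h3, h4, h5, h6, h7⟩ := h
  exact ⟨H, L, h1, h2, h3, h4, h5, h6, h7.trans hr⟩

theorem near_nonneg (S : Scale Z) {r : ℤ} {x y : Pt Z} (h : near S r x y) : 0 ≤ r := by
  obtain ⟨H, L, h1, h2, h3, h4, h5, h6, h7⟩ := h
  omega

theorem near_trans (S : Scale Z) {r s : ℤ} {x y z : Pt Z} (h : near S r x y) (h' : near S s y z) :
    near S (r + s) x z := by
  obtain ⟨H, L, h1, h2, h3, h4, h5, h6, h7⟩ := h
  obtain ⟨H', L', h1', h2', h3', h4', h5', h6', h7'⟩ := h'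
  refine ⟨max H H', min L L', by omega, by omega, by omega, by omega, ?_, ?_, by omega⟩
  · exact S.trans _ _ _ _ (S.mono _ _ (le_max_left _ _) _ _ h5) (S.mono _ _ (le_max_right _ _) _ _ h5')
  · exact agree_trans (agree_mono h6 (min_le_left _ _)) (agree_mono h6' (min_le_right _ _))

theorem near_lv (S : Scale Z) {r : ℤ} {x y : Pt Z} (h : near S r x y) : |x.lv - y.lv| ≤ r := by
  obtain ⟨H, L, h1, h2, h3, h4, h5, h6, h7⟩ := h
  rw [abs_le]; constructor <;> omega

theorem near_r (S : Scale Z) {r n : ℤ} {x y : Pt Z} (h : near S r x y)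
    (hn : min x.lv y.lv + r ≤ n) : S.r n x.z y.z := by
  obtain ⟨H, L, h1, h2, h3, h4, h5, h6, h7⟩ := h
  exact S.mono _ _ (by omega) _ _ h5

theorem near_w (S : Scale Z) {r n : ℤ} {x y : Pt Z} (h : near S r x y)
    (hn : n ≤ max x.lv y.lv - r) : agree n x.w y.w := by
  obtain ⟨H, L, h1, h2, h3, h4, h5, h6, h7⟩ := h
  exact agree_mono h6 (by omega)

/-- change one entry -/
def upd (w : W) (h : ℤ) (i : ℕ) : W :=
  ⟨Function.update w.1 h i, by
    obtain ⟨N, hN⟩ := w.2
    refine ⟨min N h, fun k hk => ?_⟩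
    rw [Function.update_of_ne (by omega)]
    exact hN k (by omega)⟩

theorem agree_upd (w : W) (n : ℤ) (i : ℕ) : agree n w (upd w (n + 1) i) := by
  intro k hk
  show w.1 k = Function.update w.1 (n + 1) i k
  rw [Function.update_of_ne (by omega)]

theorem agree_upd_upd {w : W} {n L : ℤ} {i j : ℕ} (hij : i ≠ j)
    (h : agree L (upd w (n + 1) i) (upd w (n + 1) j)) : L ≤ n := by
  by_contra hL
  have := h (n + 1) (by omega)
  simp only [upd, Function.update_self] at this
  exact hij this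

theorem near_upd_upd (S : Scale Z) {w : W} {n a r : ℤ} {i j : ℕ} (hij : i ≠ j) {z z' : Z}
    (h : near S r ⟨n + a, z, upd w (n + 1) i⟩ ⟨n + a, z', upd w (n + 1) j⟩) : a ≤ r := by
  obtain ⟨H, L, h1, h2, h3, h4, h5, h6, h7⟩ := h
  have := agree_upd_upd hij h6
  simp only at h3
  omega

/-- colour of a point: its level and its class -/
def col (S : Scale Z) (p : Pt Z) : Σ n : ℤ, Quotient (S.st n) := ⟨p.lv, Quotient.mk (S.st p.lv) p.z⟩

theorem col_eq (S : Scale Z) {p q : Pt Z} (h : col S p = col S q) :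
    p.lv = q.lv ∧ S.r p.lv p.z q.z := by
  obtain ⟨n, z, w⟩ := p
  obtain ⟨n', z', w'⟩ := q
  simp only [col, Sigma.mk.injEq] at h
  obtain ⟨h1, h2⟩ := h
  subst h1
  refine ⟨rfl, ?_⟩
  have := Quotient.exact (eq_of_heq h2)
  exact this

theorem col_finite (S : Scale Z) (hS : S.FinCls) (x : Pt Z) (r : ℤ) :
    {c | ∃ p, near S r x p ∧ col S p = c}.Finite := by
  have : {c | ∃ p, near S r x p ∧ col S p = c} ⊆ ⋃ n ∈ Set.Icc (x.lv - r) (x.lv + r),
      (fun c => (⟨n, c⟩ : Σ n : ℤ, Quotient (S.st n))) ''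
        ((Quotient.mk (S.st n)) '' (S.ball x.z (x.lv + r))) := by
    rintro c ⟨p, hp, rfl⟩
    rw [Set.mem_iUnion₂]
    have h1 := near_lv S hp
    rw [abs_le] at h1
    refine ⟨p.lv, ⟨by omega, by omega⟩, Quotient.mk _ p.z, ⟨p.z, ?_, rfl⟩, rfl⟩
    exact near_r S hp (by omega)
  refine Set.Finite.subset ?_ this
  apply Set.Finite.biUnion (Set.finite_Icc _ _)
  intro n _
  exact (hS _ _ _).image _

theorem pigeon {α β : Type*} {I : Set α} (hI : I.Infinite) (f : α → β) {T : Set β} (hT : T.Finite)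
    (h : ∀ i ∈ I, f i ∈ T) : ∃ c ∈ T, {i ∈ I | f i = c}.Infinite := by
  by_contra hcon
  push Not at hcon
  apply hI
  refine Set.Finite.subset (Set.Finite.biUnion hT (t := fun c => {i ∈ I | f i = c}) ?_) ?_
  · intro c hc
    exact hcon c hc
  · intro i hi
    rw [Set.mem_iUnion₂]
    exact ⟨f i, h i hi, hi, rfl⟩

theorem split (ω : ℕ → W) (m : ℤ) (R : ℕ) : ∀ I : Set ℕ, I.Infinite →
    (∀ i ∈ I, ∀ j ∈ I, agree (m - R) (ω i) (ω j)) →
    (∀ i ∈ I, ∀ j ∈ I, i ≠ j → ¬ agree m (ω i) (ω j)) →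
    ∃ l : ℤ, m - R < l ∧ l ≤ m ∧ ∃ I' ⊆ I, I'.Infinite ∧ ∀ i ∈ I', ∀ j ∈ I',
      agree (l - 1) (ω i) (ω j) ∧ (i ≠ j → (ω i).1 l ≠ (ω j).1 l) := by
  induction R with
  | zero =>
    intro I hI h1 h2
    obtain ⟨i, hi⟩ := hI.nonempty
    obtain ⟨j, hj, hij⟩ := (hI.diff (Set.finite_singleton i)).nonempty
    exfalso
    refine h2 i hi j hj (fun h => hij h.symm) ?_
    have := h1 i hi j hj
    simpa using this
  | succ R ih =>
    intro I hI h1 h2
    by_cases hc : ∃ c : ℕ, {i ∈ I | (ω i).1 (m - R) = c}.Infinite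
    · obtain ⟨c, hc⟩ := hc
      obtain ⟨l, hl1, hl2, I', hI', hI'2, h⟩ := ih _ hc (by
        rintro i ⟨hi, hic⟩ j ⟨hj, hjc⟩ k hk
        rcases eq_or_lt_of_le hk with rfl | hk'
        · rw [hic, hjc]
        · exact h1 i hi j hj k (by push_cast; omega)) (by
        rintro i ⟨hi, hic⟩ j ⟨hj, hjc⟩ hij
        exact h2 i hi j hj hij)
      exact ⟨l, by push_cast; omega, hl2, I', hI'.trans (Set.sep_subset _ _), hI'2, h⟩
    · push Not at hc
      refine ⟨m - R, by push_cast; omega, by omega, ?_⟩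
      have himg : ((fun i => (ω i).1 (m - R)) '' I).Infinite := by
        intro hfin
        apply hI
        refine Set.Finite.subset (Set.Finite.biUnion hfin
          (t := fun c => {i ∈ I | (ω i).1 (m - R) = c}) ?_) ?_
        · intro c _
          exact hc c
        · intro i hi
          rw [Set.mem_iUnion₂]
          exact ⟨(ω i).1 (m - R), ⟨i, hi, rfl⟩, hi, rfl⟩
      obtain ⟨I', hI', hbij⟩ := Set.exists_subset_bijOn I (fun i => (ω i).1 (m - R))
      refine ⟨I', hI', ?_, ?_⟩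
      · intro hfin
        apply himg
        rw [← hbij.image_eq]
        exact hfin.image _
      · intro i hi j hj
        refine ⟨?_, fun hij h => hij (hbij.injOn hi hj h)⟩
        have := h1 i (hI' hi) j (hI' hj)
        refine agree_mono this ?_
        push_cast; omega

/-- first passage in a finite chain -/
theorem first_pass (P : ℕ → Prop) (N : ℕ) (h0 : ¬ P 0) (hN : P N) :
    ∃ k < N, ¬ P k ∧ P (k + 1) := by
  classical
  induction N with
  | zero => exact absurd hN h0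
  | succ N ih =>
    by_cases h : P N
    · obtain ⟨k, hk, h1, h2⟩ := ih h
      exact ⟨k, by omega, h1, h2⟩
    · exact ⟨N, by omega, h, hN⟩

end Pool.Agent.Helper190.RT
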